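import Mathlib
import Pool.Agent.TH344.JG.Stm
import Pool.Agent.TH344.MT.Stm

/-!
# Project JT: the exact threshold of the moments of the 2-Selmer groups of hyperelliptic Jacobians

For `y² = ∏ (x - a_i)`, `a` a tuple of `n = 2 g + 1` distinct integers in a box, the mean value of
`(#Sel_2) ^ k` is bounded if `2 ^ k ≤ 4 g` (project JG). This project shows that for every real `κ`
with `2 ^ κ > 4 g` the mean value of `(#Sel_2) ^ κ` is at least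
`c (log X) ^ ((g / 2) (2 ^ κ - 1) (1 - 4 g / 2 ^ κ))`.

Idea: match the indices `2 j`, `2 j + 1` (`j < g`). Let `b_j` be a product of primes `p` which divide
`a_(2 j) - a_(2 j + 1)` exactly once and no other difference, and such that
`∏_(l ≠ 2 j, 2 j + 1) (a_(2 j) - a_l)` is a square modulo `p` (`Spt`). The tuple with the entries
`b_j`, `b_j` at `2 j`, `2 j + 1` and `1` at `2 g` is in the Selmer group if `b_j ≡ 1 (mod 8)`, `b_j`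
is a square modulo the small primes, and `b_j b_j'` is a square modulo all the primes that divide one
of the other (unmatched) differences `a_i - a_l`, `i` in the class `j`, `l` in the class `j'`
(`b_g = 1`). Follows project MT (`g = 1`).
-/

set_option autoImplicit false

namespace Pool.Agent.TH344.JT

open Finset Polynomial Pool.Agent.TH344.JG

open Pool.Agent.TH344.MT (Pr)

/-- the class of an index: `2 j` and `2 j + 1` are in the class `j < g`, `2 g` is in the class `g` -/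
def cl {g : ℕ} (i : Fin (2 * g + 1)) : Fin (g + 1) := ⟨i / 2, by omega⟩

/-- the first index of a class `j < g` -/
def fs {g : ℕ} (j : Fin g) : Fin (2 * g + 1) := ⟨2 * j, by omega⟩

/-- the second index of a class `j < g` -/
def sn {g : ℕ} (j : Fin g) : Fin (2 * g + 1) := ⟨2 * j + 1, by omega⟩

/-- the unmatched pairs of indices -/
def UM (g : ℕ) : Finset (PR (2 * g + 1)) := univ.filter (fun c => cl c.1.1 ≠ cl c.1.2)

/-- `a i ≡ a l` is the only congruence modulo `p` between entries at different indices -/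
def Only {n : ℕ} (p : ℕ) (a : Fin n → ℤ) (i l : Fin n) : Prop :=
  i ≠ l ∧ (p : ℤ) ∣ a i - a l ∧
    ∀ i' l', i' ≠ l' → (p : ℤ) ∣ a i' - a l' → (i' = i ∧ l' = l) ∨ (i' = l ∧ l' = i)

/-- there is no congruence modulo `p` between entries at different indices -/
def Inj {n : ℕ} (p : ℕ) (a : Fin n → ℤ) : Prop := ∀ i l, i ≠ l → ¬ (p : ℤ) ∣ a i - a l

/-- the prime `p` splits and belongs to the matched pair `j` -/
def Spt {g : ℕ} (p : ℕ) (a : Fin (2 * g + 1) → ℤ) (j : Fin g) : Prop :=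
  Only p a (fs j) (sn j) ∧ ¬ (p : ℤ) ^ 2 ∣ a (fs j) - a (sn j) ∧
    IsSquare ((∏ m ∈ (univ.erase (fs j)).erase (sn j), (a (fs j) - a m) : ℤ) : ZMod p)

/-- the number of the primes dividing `n` -/
def om (n : ℤ) : ℕ := n.natAbs.primeFactors.card

/-! ### Local part -/

/-- JT-PTF: prescribed quadratic characters (Weil bound). -/
def S_PTF : Prop := ∀ n : ℕ, ∃ Z : ℕ, ∀ (p : ℕ) [Fact p.Prime], Z < p →
  ∀ b e : Fin n → ZMod p, Function.Injective b → (∀ i, e i ≠ 0) →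
    ∃ x : ZMod p, ∀ i, x ≠ b i ∧ IsSquare ((x - b i) * e i)

/-- JT-LOCU: the unramified local condition. -/
def S_LOCU : Prop := ∀ n : ℕ, ∃ Z : ℕ, ∀ (p : ℕ) [Fact p.Prime], Z < p → ∀ a d : Fin n → ℤ,
  (∀ i, ¬ (p : ℤ) ∣ d i) → IsSquare ((∏ i, d i : ℤ) : ZMod p) →
  (∀ i l, i ≠ l → (p : ℤ) ∣ a i - a l → IsSquare ((d i * d l : ℤ) : ZMod p)) →
    LocJ ℚ_[p] a d

/-- JT-LOCR: the ramified local condition at a split prime. -/
def S_LOCR : Prop := ∀ n : ℕ, ∃ Z : ℕ, ∀ (p : ℕ) [Fact p.Prime], Z < p →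
  ∀ (a d : Fin n → ℤ) (i l : Fin n), Only p a i l → ¬ (p : ℤ) ^ 2 ∣ a i - a l →
  IsSquare ((∏ m ∈ (univ.erase i).erase l, (a i - a m) : ℤ) : ZMod p) →
  (∃ e : ℤ, ¬ (p : ℤ) ∣ e ∧ d i = p * e ∧ d l = p * e) →
  (∀ m, m ≠ i → m ≠ l → ¬ (p : ℤ) ∣ d m) →
  IsSquare ((∏ m ∈ (univ.erase i).erase l, d m : ℤ) : ZMod p) → LocJ ℚ_[p] a d

/-- JT-LOCG: the elements of the Selmer group. -/
def S_LOCG : Prop := ∀ g : ℕ, 1 ≤ g → ∃ Z : ℕ, ∀ (a : Fin (2 * g + 1) → ℤ)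
  (b : Fin (g + 1) → ℤ), (∀ j, 0 < b j ∧ Squarefree (b j) ∧ b j % 8 = 1) →
  b (Fin.last g) = 1 →
  (∀ p : ℕ, p.Prime → p ≠ 2 → p ≤ Z → ∀ j, ¬ (p : ℤ) ∣ b j ∧ IsSquare ((b j : ℤ) : ZMod p)) →
  (∀ p : ℕ, p.Prime → Z < p → ∀ i l, (p : ℤ) ∣ a i - a l → cl i ≠ cl l →
    IsSquare ((b (cl i) * b (cl l) : ℤ) : ZMod p)) →
  (∀ p : ℕ, p.Prime → ∀ j : Fin g, (p : ℤ) ∣ b j.castSucc → Spt p a j) →
    (fun i => b (cl i)) ∈ SelJ a

/-- JT-CNT: many elements of the Selmer group. -/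
def S_CNT : Prop := ∀ g : ℕ, 1 ≤ g → ∃ Z C0 : ℕ, ∀ a : Fin (2 * g + 1) → ℤ,
  Function.Injective a → ∀ P : Fin g → Finset ℕ,
  (∀ j, ∀ p ∈ P j, p.Prime ∧ Z < p ∧ Spt p a j) →
    2 ^ (∑ j, (P j).card) ≤ C0 * 2 ^ (∑ c ∈ UM g, om (df a c)) * (SelJ a).ncard

/-! ### Global part -/

/-- the tuples of positive integers `≤ X` -/
noncomputable def bx (n X : ℕ) : Finset (Fin n → ℤ) := Fintype.piFinset fun _ => Icc (1 : ℤ) (X : ℤ)

open Classical in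
/-- JT-SEQ: tuples in residue classes that are injective modulo many primes (lower bound sieve). -/
def S_SEQ : Prop := ∀ n z : ℕ, n + 2 ≤ z → ∃ (K w0 : ℕ) (c : ℝ), 1 ≤ K ∧ 2 ≤ w0 ∧ 0 < c ∧
  ∀ w : ℕ, w0 ≤ w → ∀ (X B : ℕ) (A : Fin n → ℤ), 1 ≤ B → (B * w ^ K) ^ 2 ≤ X →
    c * ((X : ℝ) / B) ^ n / (Real.log w) ^ (n * (n - 1) / 2) ≤
      (((bx n X).filter (fun a => (∀ i, (B : ℤ) ∣ a i - A i) ∧
        ∀ p ∈ Pr z w, ¬ p ∣ B → Inj p a)).card : ℝ)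

open Classical in
/-- JT-EUL: a truncated Euler product. -/
def S_EULJ : Prop := ∀ (β C : ℝ) (z : ℕ), 0 ≤ β → 0 ≤ C → C ≤ z →
  ∃ (L w0 : ℕ) (c : ℝ), 1 ≤ L ∧ 2 ≤ w0 ∧ 0 < c ∧ ∀ w : ℕ, w0 ≤ w →
    c * (Real.log w) ^ β ≤ ∑ S ∈ (Pr z w).powerset.filter (fun S => ∏ p ∈ S, p ≤ w ^ L),
      ∏ p ∈ S, (β / (p : ℝ) * (1 - C / p))

open Classical in
/-- JT-ABS: a lower bound for the mean value of a product of local weights. -/
def S_ABS : Prop := ∀ (n z : ℕ) (β C : ℝ) (f : ℕ → (Fin n → ℤ) → ℝ), n + 2 ≤ z → 0 ≤ β →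
  0 ≤ C → C ≤ z → (∀ (p : ℕ) (a : Fin n → ℤ), 0 ≤ f p a) →
  (∀ (p : ℕ) (a a' : Fin n → ℤ), (∀ i, (p : ℤ) ^ 2 ∣ a i - a' i) → f p a = f p a') →
  (∀ p : ℕ, p.Prime → z < p → (p : ℝ) ^ (2 * n) * (β / (p : ℝ) * (1 - C / p)) ≤
    ∑ A ∈ Fintype.piFinset (fun _ : Fin n => Ico (0 : ℤ) ((p : ℤ) ^ 2)), f p A) →
  ∃ (K w0 : ℕ) (c : ℝ), 1 ≤ K ∧ 2 ≤ w0 ∧ 0 < c ∧ ∀ w : ℕ, w0 ≤ w →
    c * ((w : ℝ) ^ K) ^ n * (Real.log w) ^ (β - ((n * (n - 1) / 2 : ℕ) : ℝ)) ≤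
      ∑ a ∈ (bx n (w ^ K)).filter (fun a => Function.Injective a),
        ∏ p ∈ Pr z w, (f p a + if Inj p a then 1 else 0)

open Classical in
/-- the local weights -/
noncomputable def fw {g : ℕ} (κ : ℝ) (p : ℕ) (a : Fin (2 * g + 1) → ℤ) : ℝ :=
  ∑ j : Fin g, (if Spt p a j then (2 : ℝ) ^ κ else if Only p a (fs j) (sn j) then 1 else 0) +
    ∑ c ∈ UM g, (if Only p a c.1.1 c.1.2 then (2 : ℝ) ^ (-κ) else 0)

/-- the mean value of the local weights, times `p` -/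
noncomputable def gp (g : ℕ) (κ : ℝ) : ℝ :=
  (g : ℝ) * ((2 : ℝ) ^ κ + 1) / 2 + 2 * (g : ℝ) ^ 2 * (2 : ℝ) ^ (-κ)

/-- JT-DEN: the local densities. -/
def S_DEN : Prop := ∀ (g : ℕ) (κ : ℝ), 1 ≤ g → 0 ≤ κ → ∃ C : ℕ, ∀ p : ℕ, p.Prime → C < p →
  (p : ℝ) ^ (2 * (2 * g + 1)) * (gp g κ / (p : ℝ) * (1 - (C : ℝ) / p)) ≤
    ∑ A ∈ Fintype.piFinset (fun _ : Fin (2 * g + 1) => Ico (0 : ℤ) ((p : ℤ) ^ 2)),
      fw (g := g) κ p A

open Classical in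
/-- JT-LOW: the product of the local weights is a lower bound for the number of elements. -/
def S_LOWJ : Prop := ∀ (g : ℕ) (κ : ℝ) (z K : ℕ), 1 ≤ g → 0 ≤ κ → 2 ≤ z → ∃ C1 : ℝ, 0 < C1 ∧
  ∀ w : ℕ, 2 ≤ w → ∀ a ∈ bx (2 * g + 1) (w ^ K), Function.Injective a →
    ∏ p ∈ Pr z w, (fw κ p a + if Inj p a then 1 else 0) ≤
      C1 * (2 : ℝ) ^ (κ * ((∑ j : Fin g, (((Pr z w).filter (fun p => Spt p a j)).card : ℝ)) -
        ∑ c ∈ UM g, (om (df a c) : ℝ)))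

open Classical in
/-- the main result: the moments are large above the threshold -/
def S_THR : Prop := ∀ (g : ℕ) (κ : ℝ), 1 ≤ g → 4 * (g : ℝ) < (2 : ℝ) ^ κ →
  ∃ (c : ℝ) (X0 : ℕ), 0 < c ∧ ∀ X : ℕ, X0 ≤ X →
    c * ((X : ℝ) ^ (2 * g + 1) *
      (Real.log X) ^ ((g : ℝ) / 2 * ((2 : ℝ) ^ κ - 1) * (1 - 4 * g / (2 : ℝ) ^ κ))) ≤
      ∑ a ∈ (BoxJ (2 * g + 1) X).filter (fun a => Function.Injective a),
        ((SelJ a).ncard : ℝ) ^ κ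

end Pool.Agent.TH344.JT
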