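import Mathlib
import Pool.Agent.TH344.JT.Stm

/-!
# JT-ABS: a lower bound for the mean value of a product of local weights
(job 4800 of helper344, written by helper574)
-/

set_option autoImplicit false

namespace Pool.Agent.TH344.JT.ABSf

open Finset

open Pool.Agent.TH344.MT (Pr)

lemma mem_Pr {z w p : ℕ} : p ∈ Pr z w ↔ (z + 1 ≤ p ∧ p ≤ w) ∧ p.Prime := by
  unfold Pr
  rw [mem_filter, mem_Icc]

/-! ### many primes -/

/-- `k` primes between `m` and `2 ^ k m` (Bertrand) -/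
lemma bertrand_many (m : ℕ) (hm : 1 ≤ m) (k : ℕ) :
    k ≤ ((Ioc m (2 ^ k * m)).filter Nat.Prime).card := by
  induction k with
  | zero => exact Nat.zero_le _
  | succ k ih =>
    obtain ⟨p, hp, h1, h2⟩ := Nat.exists_prime_lt_and_le_two_mul (2 ^ k * m) (by positivity)
    have h3 : insert p ((Ioc m (2 ^ k * m)).filter Nat.Prime) ⊆
        (Ioc m (2 ^ (k + 1) * m)).filter Nat.Prime := by
      have h5 : 1 ≤ 2 ^ k := Nat.one_le_two_pow
      have h4 : m ≤ 2 ^ k * m := Nat.le_mul_of_pos_left m h5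
      have h6 : 2 ^ (k + 1) * m = 2 * (2 ^ k * m) := by ring
      intro q hq
      rw [mem_insert, mem_filter, mem_Ioc] at hq
      rw [mem_filter, mem_Ioc, h6]
      rcases hq with rfl | ⟨⟨h7, h8⟩, h9⟩
      · exact ⟨⟨by omega, h2⟩, hp⟩
      · exact ⟨⟨h7, by omega⟩, h9⟩
    have h4 : p ∉ (Ioc m (2 ^ k * m)).filter Nat.Prime := by
      rw [mem_filter, mem_Ioc]
      omega
    have h5 := card_le_card h3
    rw [card_insert_of_notMem h4] at h5
    omega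

/-- the product of the primes is large -/
lemma prod_Pr_large (z L w : ℕ) (hw : 2 ^ (L + 1) * (z + 1) + 2 ^ ((L + 1) * (L + 1)) ≤ w) :
    w ^ L < ∏ p ∈ Pr z w, p := by
  obtain ⟨k, hk⟩ : ∃ k, k = L + 1 := ⟨_, rfl⟩
  rw [← hk] at hw
  obtain ⟨m, hm⟩ : ∃ m, m = w / 2 ^ k := ⟨_, rfl⟩
  have h2k : 0 < 2 ^ k := by positivity
  have hzm : z + 1 ≤ m := by
    rw [hm, Nat.le_div_iff_mul_le h2k]
    calc (z + 1) * 2 ^ k = 2 ^ k * (z + 1) := mul_comm _ _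
      _ ≤ w := le_trans (Nat.le_add_right _ _) hw
  have hmw : 2 ^ k * m ≤ w := by
    rw [hm]
    exact Nat.mul_div_le w _
  have hwm : w < (m + 1) * 2 ^ k := by
    rw [hm, mul_comm]
    exact Nat.lt_mul_div_succ w h2k
  have hsub : (Ioc m (2 ^ k * m)).filter Nat.Prime ⊆ Pr z w := by
    intro q hq
    rw [mem_filter, mem_Ioc] at hq
    rw [mem_Pr]
    exact ⟨⟨by omega, by omega⟩, hq.2⟩
  have h1 : ∏ p ∈ (Ioc m (2 ^ k * m)).filter Nat.Prime, p ≤ ∏ p ∈ Pr z w, p :=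
    prod_le_prod_of_subset_of_one_le' hsub fun p hp _ => (mem_Pr.1 hp).2.one_lt.le
  have h2 : (m + 1) ^ ((Ioc m (2 ^ k * m)).filter Nat.Prime).card ≤
      ∏ p ∈ (Ioc m (2 ^ k * m)).filter Nat.Prime, p := by
    refine pow_card_le_prod _ _ _ fun p hp => ?_
    rw [mem_filter, mem_Ioc] at hp
    omega
  have h3 : (m + 1) ^ k ≤ (m + 1) ^ ((Ioc m (2 ^ k * m)).filter Nat.Prime).card :=
    Nat.pow_le_pow_right (by omega) (bertrand_many m (by omega) k)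
  have h4 : w ^ L * 2 ^ (k * k) < (m + 1) ^ k * 2 ^ (k * k) := by
    have hkw : 2 ^ (k * k) ≤ w := le_trans (Nat.le_add_left _ _) hw
    calc w ^ L * 2 ^ (k * k) ≤ w ^ L * w := Nat.mul_le_mul_left _ hkw
      _ = w ^ k := by rw [hk, pow_succ]
      _ < ((m + 1) * 2 ^ k) ^ k := Nat.pow_lt_pow_left hwm (by omega)
      _ = (m + 1) ^ k * 2 ^ (k * k) := by rw [mul_pow, ← pow_mul]
  have h5 : w ^ L < (m + 1) ^ k := Nat.lt_of_mul_lt_mul_right h4
  exact h5.trans_le (h3.trans (h2.trans h1))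

/-! ### the Chinese remainder theorem for tuples -/

/-- the residue tuples -/
noncomputable def RS (n m : ℕ) : Finset (Fin n → ℤ) := Fintype.piFinset fun _ => Ico (0 : ℤ) (m : ℤ)

lemma mem_RS {n m : ℕ} {a : Fin n → ℤ} : a ∈ RS n m ↔ ∀ i, 0 ≤ a i ∧ a i < m := by
  unfold RS
  simp only [Fintype.mem_piFinset, mem_Ico]

lemma card_RS (n m : ℕ) : (RS n m).card = m ^ n := by
  unfold RS
  rw [Fintype.card_piFinset]
  simp

/-- reduction -/
def rd {n : ℕ} (m : ℕ) (a : Fin n → ℤ) : Fin n → ℤ := fun i => a i % m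

lemma rd_mem {n m : ℕ} (hm : 0 < m) (a : Fin n → ℤ) : rd m a ∈ RS n m := by
  have hm' : (0 : ℤ) < m := by exact_mod_cast hm
  exact mem_RS.2 fun i => ⟨Int.emod_nonneg _ hm'.ne', Int.emod_lt_of_pos _ hm'⟩

lemma rd_dvd {n : ℕ} (m : ℕ) (a : Fin n → ℤ) (i : Fin n) : (m : ℤ) ∣ a i - rd m a i :=
  Int.dvd_self_sub_emod

lemma eq_of_modEq {n m : ℕ} {a a' : Fin n → ℤ} (ha : a ∈ RS n m) (ha' : a' ∈ RS n m)
    (h : ∀ i, a i ≡ a' i [ZMOD m]) : a = a' := by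
  funext i
  have h1 := mem_RS.1 ha i
  have h2 := mem_RS.1 ha' i
  have h3 := h i
  unfold Int.ModEq at h3
  rwa [Int.emod_eq_of_lt h1.1 h1.2, Int.emod_eq_of_lt h2.1 h2.2] at h3

lemma crt {n m1 m2 : ℕ} (h1 : 0 < m1) (h2 : 0 < m2) (hco : m1.Coprime m2)
    (F G : (Fin n → ℤ) → ℝ) (hF : ∀ a a' : Fin n → ℤ, (∀ i, (m1 : ℤ) ∣ a i - a' i) → F a = F a')
    (hG : ∀ a a' : Fin n → ℤ, (∀ i, (m2 : ℤ) ∣ a i - a' i) → G a = G a') :
    ∑ A ∈ RS n (m1 * m2), F A * G A = (∑ A ∈ RS n m1, F A) * ∑ A ∈ RS n m2, G A := by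
  rw [sum_mul_sum, ← sum_product']
  have hmaps : Set.MapsTo (fun A : Fin n → ℤ => (rd m1 A, rd m2 A))
      (RS n (m1 * m2) : Set (Fin n → ℤ)) ((RS n m1 ×ˢ RS n m2 : Finset _) : Set _) := by
    intro A _
    rw [mem_coe, mem_product]
    exact ⟨rd_mem h1 A, rd_mem h2 A⟩
  have hinj : Set.InjOn (fun A : Fin n → ℤ => (rd m1 A, rd m2 A))
      (RS n (m1 * m2) : Set (Fin n → ℤ)) := by
    intro A hA A' hA' h
    rw [mem_coe] at hA hA'
    have e := Prod.ext_iff.1 h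
    refine eq_of_modEq hA hA' fun i => ?_
    have e1 : A i ≡ A' i [ZMOD m1] := congrFun e.1 i
    have e2 : A i ≡ A' i [ZMOD m2] := congrFun e.2 i
    push_cast
    exact (Int.modEq_and_modEq_iff_modEq_mul (by simpa using hco)).1 ⟨e1, e2⟩
  refine sum_nbij (fun A => (rd m1 A, rd m2 A)) hmaps hinj ?_ ?_
  · refine surjOn_of_injOn_of_card_le _ hmaps hinj ?_
    rw [card_product, card_RS, card_RS, card_RS, mul_pow]
  · intro A _
    rw [hF A (rd m1 A) (rd_dvd m1 A), hG A (rd m2 A) (rd_dvd m2 A)]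

lemma prod_sum' {n : ℕ} (f : ℕ → (Fin n → ℤ) → ℝ)
    (hf : ∀ (p : ℕ) (a a' : Fin n → ℤ), (∀ i, (p : ℤ) ^ 2 ∣ a i - a' i) → f p a = f p a')
    (S : Finset ℕ) (hS : ∀ p ∈ S, p.Prime) :
    ∑ A ∈ RS n ((∏ p ∈ S, p) ^ 2), ∏ p ∈ S, f p A = ∏ p ∈ S, ∑ A ∈ RS n (p ^ 2), f p A := by
  induction S using Finset.induction_on with
  | empty =>
    simp only [prod_empty, one_pow, sum_const, nsmul_eq_mul, mul_one, card_RS]
    simp
  | insert q S hq ih =>
    have hq' : q.Prime := hS q (mem_insert_self q S)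
    have hS' : ∀ p ∈ S, p.Prime := fun p hp => hS p (mem_insert_of_mem hp)
    have hpos : 0 < (∏ p ∈ S, p) ^ 2 := pow_pos (prod_pos fun p hp => (hS' p hp).pos) 2
    have hco : (q ^ 2).Coprime ((∏ p ∈ S, p) ^ 2) := by
      refine Nat.Coprime.pow 2 2 (Nat.Coprime.prod_right fun p hp => ?_)
      rw [Nat.coprime_primes hq' (hS' p hp)]
      rintro rfl
      exact hq hp
    rw [prod_insert hq, mul_pow]
    simp only [prod_insert hq]
    rw [crt (pow_pos hq'.pos 2) hpos hco (f q) (fun A => ∏ p ∈ S, f p A), ih hS']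
    · intro a a' h
      refine hf q a a' fun i => ?_
      have := h i
      push_cast at this
      exact this
    · intro a a' h
      refine prod_congr rfl fun p hp => hf p a a' fun i => ?_
      refine dvd_trans ?_ (h i)
      have h1 : p ∣ ∏ p ∈ S, p := dvd_prod_of_mem _ hp
      have h2 : p ^ 2 ∣ (∏ p ∈ S, p) ^ 2 := pow_dvd_pow_of_dvd h1 2
      exact_mod_cast h2

/-! ### one set `S` -/

open Classical in
lemma perS {n z w X N K1 : ℕ} {c1 : ℝ} (f : ℕ → (Fin n → ℤ) → ℝ)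
    (hf0 : ∀ (p : ℕ) (a : Fin n → ℤ), 0 ≤ f p a)
    (hf : ∀ (p : ℕ) (a a' : Fin n → ℤ), (∀ i, (p : ℤ) ^ 2 ∣ a i - a' i) → f p a = f p a')
    (hseq : ∀ (B : ℕ) (A : Fin n → ℤ), 1 ≤ B → (B * w ^ K1) ^ 2 ≤ X →
      c1 * ((X : ℝ) / B) ^ n / (Real.log w) ^ N ≤
      (((bx n X).filter (fun a => (∀ i, (B : ℤ) ∣ a i - A i) ∧
        ∀ p ∈ Pr z w, ¬ p ∣ B → Inj p a)).card : ℝ))
    (S : Finset ℕ) (hS : S ⊆ Pr z w) (hB : ((∏ p ∈ S, p) ^ 2 * w ^ K1) ^ 2 ≤ X) :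
    c1 * ((X : ℝ) / ((∏ p ∈ S, p : ℕ) : ℝ) ^ 2) ^ n / (Real.log w) ^ N *
      (∏ p ∈ S, ∑ A ∈ RS n (p ^ 2), f p A) ≤
      ∑ a ∈ (bx n X).filter (fun a => ∀ p ∈ Pr z w \ S, Inj p a), ∏ p ∈ S, f p a := by
  have hSp : ∀ p ∈ S, p.Prime := fun p hp => (mem_Pr.1 (hS hp)).2
  obtain ⟨B, hBdef⟩ : ∃ B : ℕ, B = (∏ p ∈ S, p) ^ 2 := ⟨_, rfl⟩
  have hBpos : 0 < B := by
    rw [hBdef]
    exact pow_pos (prod_pos fun p hp => (hSp p hp).pos) 2
  rw [← prod_sum' f hf S hSp, ← hBdef]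
  have hBr : ((∏ p ∈ S, p : ℕ) : ℝ) ^ 2 = (B : ℝ) := by
    rw [hBdef]
    push_cast
    rfl
  rw [hBr]
  rw [← hBdef] at hB
  -- fibres
  rw [← sum_fiberwise_of_maps_to
    (s := (bx n X).filter (fun a => ∀ p ∈ Pr z w \ S, Inj p a)) (t := RS n B)
    (g := fun a => rd B a) (fun a _ => rd_mem hBpos a) (fun a => ∏ p ∈ S, f p a), mul_sum]
  refine sum_le_sum fun A hA => ?_
  have h1 := hseq B A hBpos hB
  have hF0 : 0 ≤ ∏ p ∈ S, f p A := prod_nonneg fun p _ => hf0 p A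
  have h2 : (bx n X).filter (fun a => (∀ i, (B : ℤ) ∣ a i - A i) ∧
      ∀ p ∈ Pr z w, ¬ p ∣ B → Inj p a) ⊆
      ((bx n X).filter (fun a => ∀ p ∈ Pr z w \ S, Inj p a)).filter (fun a => rd B a = A) := by
    intro a ha
    rw [mem_filter] at ha
    obtain ⟨ha1, ha2, ha3⟩ := ha
    rw [mem_filter, mem_filter]
    refine ⟨⟨ha1, fun p hp => ?_⟩, ?_⟩
    · rw [mem_sdiff] at hp
      refine ha3 p hp.1 fun hpB => hp.2 ?_
      have hpp := (mem_Pr.1 hp.1).2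
      rw [hBdef] at hpB
      have h3 := hpp.dvd_of_dvd_pow hpB
      obtain ⟨q, hq, hpq⟩ := (Prime.dvd_finsetProd_iff hpp.prime _).1 h3
      rwa [(Nat.prime_dvd_prime_iff_eq hpp (hSp q hq)).1 hpq]
    · refine eq_of_modEq (rd_mem hBpos a) hA fun i => ?_
      have h4 : rd B a i ≡ a i [ZMOD B] := Int.mod_modEq _ _
      have h5 : a i ≡ A i [ZMOD B] := (Int.modEq_iff_dvd.2 (ha2 i)).symm
      exact h4.trans h5
  have h3 : ∀ a ∈ ((bx n X).filter (fun a => ∀ p ∈ Pr z w \ S, Inj p a)).filter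
      (fun a => rd B a = A), ∏ p ∈ S, f p a = ∏ p ∈ S, f p A := by
    intro a ha
    rw [mem_filter] at ha
    refine prod_congr rfl fun p hp => hf p a A fun i => ?_
    have h4 := rd_dvd B a i
    rw [ha.2] at h4
    refine dvd_trans ?_ h4
    have h5 : p ^ 2 ∣ B := by
      rw [hBdef]
      exact pow_dvd_pow_of_dvd (dvd_prod_of_mem _ hp) 2
    exact_mod_cast h5
  rw [sum_congr rfl h3, sum_const, nsmul_eq_mul]
  refine mul_le_mul_of_nonneg_right (h1.trans ?_) hF0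
  exact_mod_cast card_le_card h2

end Pool.Agent.TH344.JT.ABSf

namespace Pool.Agent.TH344.JT

open Finset ABSf

open Pool.Agent.TH344.MT (Pr)

theorem abs_of (h1 : S_SEQ) (h2 : S_EULJ) : S_ABS := by
  classical
  intro n z β C f hz hβ hC hCz hf0 hf hden
  obtain ⟨K1, w1, c1, hK1, hw1, hc1, hseq⟩ := h1 n z hz
  obtain ⟨L, w2, c2, hL, hw2, hc2, heul⟩ := h2 β C z hβ hC hCz
  obtain ⟨W3, hW3⟩ : ∃ W3 : ℕ, W3 = 2 ^ (L + 1) * (z + 1) + 2 ^ ((L + 1) * (L + 1)) := ⟨_, rfl⟩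
  refine ⟨2 * (K1 + 2 * L), w1 + w2 + W3 + 3,
    c1 * c2, by omega, by omega, by positivity, fun w hw => ?_⟩
  have hseq' := hseq w (by omega)
  have heul' := heul w (by omega)
  obtain ⟨N, hN⟩ : ∃ N : ℕ, N = n * (n - 1) / 2 := ⟨_, rfl⟩
  rw [← hN] at hseq' ⊢
  obtain ⟨X, hX⟩ : ∃ X : ℕ, X = w ^ (2 * (K1 + 2 * L)) := ⟨_, rfl⟩
  rw [← hX]
  have hXr : (w : ℝ) ^ (2 * (K1 + 2 * L)) = (X : ℝ) := by
    rw [hX]
    push_cast
    rfl
  rw [hXr]
  have hlog : 0 < Real.log w := Real.log_pos (by exact_mod_cast (by omega : 1 < w))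
  -- expansion
  have hexp : ∀ a : Fin n → ℤ, ∏ p ∈ Pr z w, (f p a + if Inj p a then 1 else 0) =
      ∑ S ∈ (Pr z w).powerset, (∏ p ∈ S, f p a) *
        ∏ p ∈ Pr z w \ S, (if Inj p a then (1 : ℝ) else 0) := fun a =>
    prod_add _ _ _
  have hnn : ∀ (a : Fin n → ℤ) (S : Finset ℕ), 0 ≤ (∏ p ∈ S, f p a) *
      ∏ p ∈ Pr z w \ S, (if Inj p a then (1 : ℝ) else 0) := by
    intro a S
    refine mul_nonneg (prod_nonneg fun p _ => hf0 p a) (prod_nonneg fun p _ => ?_)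
    split_ifs <;> norm_num
  obtain ⟨Gd, hGd⟩ : ∃ Gd : Finset (Finset ℕ), Gd = (Pr z w).powerset.filter
    (fun S => ∏ p ∈ S, p ≤ w ^ L) := ⟨_, rfl⟩
  have hlow : ∑ S ∈ Gd, ∑ a ∈ (bx n X).filter (fun a => Function.Injective a),
      (∏ p ∈ S, f p a) * ∏ p ∈ Pr z w \ S, (if Inj p a then (1 : ℝ) else 0) ≤
      ∑ a ∈ (bx n X).filter (fun a => Function.Injective a),
        ∏ p ∈ Pr z w, (f p a + if Inj p a then 1 else 0) := by
    rw [sum_comm]
    refine sum_le_sum fun a _ => ?_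
    rw [hexp a, hGd]
    exact sum_le_sum_of_subset_of_nonneg (filter_subset _ _) fun S _ _ => hnn a S
  refine le_trans ?_ hlow
  -- one set
  have hone : ∀ S ∈ Gd, c1 * (X : ℝ) ^ n / (Real.log w) ^ N * ∏ p ∈ S, (β / (p : ℝ) * (1 - C / p)) ≤
      ∑ a ∈ (bx n X).filter (fun a => Function.Injective a),
      (∏ p ∈ S, f p a) * ∏ p ∈ Pr z w \ S, (if Inj p a then (1 : ℝ) else 0) := by
    intro S hS
    rw [hGd, mem_filter, mem_powerset] at hS
    obtain ⟨hS1, hS2⟩ := hS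
    have hSp : ∀ p ∈ S, p.Prime := fun p hp => (mem_Pr.1 (hS1 hp)).2
    have hB : ((∏ p ∈ S, p) ^ 2 * w ^ K1) ^ 2 ≤ X := by
      rw [hX]
      calc ((∏ p ∈ S, p) ^ 2 * w ^ K1) ^ 2 ≤ ((w ^ L) ^ 2 * w ^ K1) ^ 2 :=
            Nat.pow_le_pow_left (Nat.mul_le_mul_right _ (Nat.pow_le_pow_left hS2 2)) 2
        _ = w ^ (2 * (K1 + 2 * L)) := by
            rw [← pow_mul, ← pow_add, ← pow_mul]
            congr 1
            ring
    have h3 := perS (w := w) (X := X) (N := N) (K1 := K1) f hf0 hf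
      (fun B A hB1 hB2 => hseq' X B A hB1 hB2) S hS1 hB
    -- the density
    have hP0 : (0 : ℝ) < ((∏ p ∈ S, p : ℕ) : ℝ) := by
      exact_mod_cast prod_pos fun p hp => (hSp p hp).pos
    have h4 : ((∏ p ∈ S, p : ℕ) : ℝ) ^ (2 * n) * ∏ p ∈ S, (β / (p : ℝ) * (1 - C / p)) ≤
        ∏ p ∈ S, ∑ A ∈ RS n (p ^ 2), f p A := by
      have h5 : ((∏ p ∈ S, p : ℕ) : ℝ) ^ (2 * n) * ∏ p ∈ S, (β / (p : ℝ) * (1 - C / p)) =
          ∏ p ∈ S, ((p : ℝ) ^ (2 * n) * (β / (p : ℝ) * (1 - C / p))) := by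
        rw [Nat.cast_prod, ← prod_pow]
        exact prod_mul_distrib.symm
      rw [h5]
      refine prod_le_prod (fun p hp => ?_) fun p hp => ?_
      · have hpz := (mem_Pr.1 (hS1 hp)).1.1
        have hp0 : (0 : ℝ) < p := by exact_mod_cast (hSp p hp).pos
        have hzp : (z : ℝ) ≤ p := by exact_mod_cast (by omega : z ≤ p)
        have h6 : C / p ≤ 1 := by
          rw [div_le_one hp0]
          linarith
        have h7 : 0 ≤ 1 - C / p := by linarith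
        positivity
      · have hpz := (mem_Pr.1 (hS1 hp)).1.1
        have h6 := hden p (hSp p hp) (by omega)
        have h7 : RS n (p ^ 2) = Fintype.piFinset (fun _ : Fin n => Ico (0 : ℤ) ((p : ℤ) ^ 2)) := by
          unfold RS
          push_cast
          rfl
        rw [h7]
        exact h6
    have h5 : c1 * (X : ℝ) ^ n / (Real.log w) ^ N * ∏ p ∈ S, (β / (p : ℝ) * (1 - C / p)) =
        c1 * ((X : ℝ) / ((∏ p ∈ S, p : ℕ) : ℝ) ^ 2) ^ n / (Real.log w) ^ N *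
        (((∏ p ∈ S, p : ℕ) : ℝ) ^ (2 * n) * ∏ p ∈ S, (β / (p : ℝ) * (1 - C / p))) := by
      rw [div_pow, pow_mul]
      field_simp
    rw [h5]
    have h6 : 0 ≤ c1 * ((X : ℝ) / ((∏ p ∈ S, p : ℕ) : ℝ) ^ 2) ^ n / (Real.log w) ^ N := by
      positivity
    refine (mul_le_mul_of_nonneg_left h4 h6).trans (h3.trans ?_)
    -- the indicator functions
    have h7 : ∀ a ∈ (bx n X).filter (fun a => ∀ p ∈ Pr z w \ S, Inj p a), ∏ p ∈ S, f p a =
        (∏ p ∈ S, f p a) * ∏ p ∈ Pr z w \ S, (if Inj p a then (1 : ℝ) else 0) := by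
      intro a ha
      rw [mem_filter] at ha
      rw [prod_congr rfl fun p hp => if_pos (ha.2 p hp), prod_const_one, mul_one]
    rw [sum_congr rfl h7]
    refine sum_le_sum_of_subset_of_nonneg ?_ fun a _ _ => hnn a S
    intro a ha
    rw [mem_filter] at ha ⊢
    refine ⟨ha.1, ?_⟩
    have hne : ∃ p, p ∈ Pr z w \ S := by
      by_contra hcon
      push Not at hcon
      have h8 : Pr z w ⊆ S := by
        intro p hp
        by_contra h9
        exact hcon p (mem_sdiff.2 ⟨hp, h9⟩)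
      have h9 : S = Pr z w := subset_antisymm hS1 h8
      rw [h9] at hS2
      have h10 := prod_Pr_large z L w (by rw [← hW3]; omega)
      omega
    obtain ⟨p, hp⟩ := hne
    intro i l hil
    by_contra h8
    apply ha.2 p hp i l h8
    rw [hil, sub_self]
    exact dvd_zero _
  refine le_trans ?_ (sum_le_sum hone)
  rw [← mul_sum]
  have h8 : 0 ≤ c1 * (X : ℝ) ^ n / (Real.log w) ^ N := by positivity
  have h9 : c1 * c2 * (X : ℝ) ^ n * (Real.log w) ^ (β - (N : ℝ)) =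
      c1 * (X : ℝ) ^ n / (Real.log w) ^ N * (c2 * (Real.log w) ^ β) := by
    rw [Real.rpow_sub hlog, Real.rpow_natCast]
    ring
  rw [h9, hGd]
  exact mul_le_mul_of_nonneg_left heul' h8

end Pool.Agent.TH344.JT
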