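import Pool.Agent.TH344.JT.Stm
import Pool.Agent.TH344.MT.Cnt
import Pool.Agent.TH344.JG.Main

/-!
# JT-CNT: counting elements of the 2-Selmer group
-/

set_option autoImplicit false

namespace Pool.Agent.TH344.JT

open Finset Polynomial Pool.Agent.TH344.JG

namespace Cnt

open Pool.Agent.TH344.MT.Cnt (dd dd_pos prime_dvd_dd dd_odd dd_squarefree dd_symm odd_sq sq_class)

/-- a family, extended by the empty set -/
def ex {g : ℕ} (T : Fin g → Finset ℕ) (j : Fin (g + 1)) : Finset ℕ :=
  if h : (j : ℕ) < g then T ⟨j, h⟩ else ∅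

lemma mem_ex {g : ℕ} {T : Fin g → Finset ℕ} {j : Fin (g + 1)} {p : ℕ} :
    p ∈ ex T j ↔ ∃ h : (j : ℕ) < g, p ∈ T ⟨j, h⟩ := by
  unfold ex
  split_ifs with h
  · exact ⟨fun hp => ⟨h, hp⟩, fun ⟨_, hp⟩ => hp⟩
  · exact ⟨fun hp => absurd hp (Finset.notMem_empty _), fun ⟨h', _⟩ => absurd h' h⟩

lemma ex_castSucc {g : ℕ} (T : Fin g → Finset ℕ) (j : Fin g) : ex T j.castSucc = T j := by
  unfold ex
  have h : ((j.castSucc : Fin (g + 1)) : ℕ) < g := j.2
  rw [dif_pos h]
  rfl

lemma ex_last {g : ℕ} (T : Fin g → Finset ℕ) : ex T (Fin.last g) = ∅ := by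
  unfold ex
  rw [dif_neg (by simp)]

lemma ex_mono {g : ℕ} {T P : Fin g → Finset ℕ} (h : ∀ j, T j ⊆ P j) (j : Fin (g + 1)) :
    ex T j ⊆ ex P j := by
  intro p hp
  obtain ⟨h1, h2⟩ := mem_ex.1 hp
  exact mem_ex.2 ⟨h1, h _ h2⟩

/-- the symmetric difference of two families -/
def SD {g : ℕ} (T T0 : Fin g → Finset ℕ) : Fin g → Finset ℕ := fun j => symmDiff (T j) (T0 j)

lemma ex_SD {g : ℕ} (T T0 : Fin g → Finset ℕ) (j : Fin (g + 1)) :
    ex (SD T T0) j = symmDiff (ex T j) (ex T0 j) := by
  unfold ex SD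
  split_ifs with h
  · rfl
  · simp

lemma cl_fs {g : ℕ} (j : Fin g) : cl (fs j) = j.castSucc := by
  apply Fin.ext
  show (2 * (j : ℕ)) / 2 = j
  omega

lemma cl_sn {g : ℕ} (j : Fin g) : cl (sn j) = j.castSucc := by
  apply Fin.ext
  show (2 * (j : ℕ) + 1) / 2 = j
  omega

lemma symm_sub {S T G : Finset ℕ} (hS : S ⊆ G) (hT : T ⊆ G) : symmDiff S T ⊆ G := by
  intro p hp
  rw [Finset.mem_symmDiff] at hp
  rcases hp with hp | hp
  · exact hS hp.1
  · exact hT hp.1

lemma sq_two (x : ZMod 2) : IsSquare x := by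
  revert x
  decide

lemma mod8 {S T G : Finset ℕ} (hG : ∀ p ∈ G, p.Prime) (hG2 : 2 ∉ G) (hS : S ⊆ G) (hT : T ⊆ G)
    (h : (dd S : ZMod 8) = dd T) : ((dd (symmDiff S T) : ℕ) : ℤ) % 8 = 1 := by
  have hsy := dd_symm S T
  have hI : S ∩ T ⊆ G := fun p hp => hS (mem_of_mem_inter_left hp)
  have e1 := odd_sq (dd_odd (fun p hp => hG p (hI hp)) (fun h2 => hG2 (hI h2)))
  have e2 := odd_sq (dd_odd (fun p hp => hG p (hT hp)) (fun h2 => hG2 (hT h2)))
  have e3 : ((dd (symmDiff S T) : ℕ) : ZMod 8) * (dd (S ∩ T) : ZMod 8) ^ 2 =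
      (dd S : ZMod 8) * dd T := by
    exact_mod_cast congrArg (Nat.cast (R := ZMod 8)) hsy
  rw [e1, mul_one, h, ← pow_two, e2] at e3
  have e4 : ((dd (symmDiff S T) : ℕ) : ZMod 8) = ((1 : ℕ) : ZMod 8) := by
    rw [e3, Nat.cast_one]
  rw [ZMod.natCast_eq_natCast_iff'] at e4
  omega

lemma not_dvd {S G : Finset ℕ} (hG : ∀ p ∈ G, p.Prime) (hS : S ⊆ G) {q : ℕ} (hq : q.Prime)
    (h : q ∉ G) : ¬ q ∣ dd S :=
  fun hd => h (hS (prime_dvd_dd (fun p hp => hG p (hS hp)) hq hd))

end Cnt

open Pool.Agent.TH344.MT.Cnt (dd dd_pos prime_dvd_dd dd_odd dd_squarefree dd_symm odd_sq sq_class)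
open Cnt in
open Classical in
theorem cnt_of (h : S_LOCG) : S_CNT := by
  intro g hg
  obtain ⟨Z0, hZ0⟩ := h g hg
  refine ⟨max Z0 2, (8 * 2 ^ (Z0 + 1)) ^ g, ?_⟩
  intro a ha P hP
  have hEp : ∀ j, ∀ p ∈ ex P j, p.Prime := by
    intro j p hp
    obtain ⟨h1, h2⟩ := mem_ex.1 hp
    exact (hP _ p h2).1
  have hEZ : ∀ j, ∀ p ∈ ex P j, Z0 < p := by
    intro j p hp
    obtain ⟨h1, h2⟩ := mem_ex.1 hp
    exact lt_of_le_of_lt (le_max_left _ _) (hP _ p h2).2.1
  have hE2 : ∀ j, 2 ∉ ex P j := by
    intro j hp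
    obtain ⟨h1, h2⟩ := mem_ex.1 hp
    exact absurd (hP _ 2 h2).2.1 (by simp)
  have hno : ∀ (p : ℕ) (i l : Fin (2 * g + 1)), (p : ℤ) ∣ a i - a l → cl i ≠ cl l →
      ∀ j, p ∉ ex P j := by
    intro p i l hd hc j hp
    obtain ⟨h1, h2⟩ := mem_ex.1 hp
    have hil : i ≠ l := fun h => hc (by rw [h])
    obtain ⟨-, -, h3⟩ := (hP _ p h2).2.2.1
    rcases h3 i l hil hd with h4 | h4
    · exact hc (by rw [h4.1, h4.2, cl_fs, cl_sn])
    · exact hc (by rw [h4.1, h4.2, cl_fs, cl_sn])
  -- the data
  set f : (Fin g → Finset ℕ) → (Fin g → ZMod 8 × Finset ℕ) × (PR (2 * g + 1) → Finset ℕ) :=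
    fun T => (fun j => ((dd (T j) : ZMod 8),
      (range (Z0 + 1)).filter (fun q => IsSquare (dd (T j) : ZMod q))),
      fun c => if c ∈ UM g then (df a c).natAbs.primeFactors.filter
        (fun q => IsSquare ((dd (ex T (cl c.1.1)) * dd (ex T (cl c.1.2)) : ℕ) : ZMod q)) else ∅)
    with hf
  set tt : Finset ((Fin g → ZMod 8 × Finset ℕ) × (PR (2 * g + 1) → Finset ℕ)) :=
    (Fintype.piFinset fun _ : Fin g => (univ : Finset (ZMod 8)) ×ˢ (range (Z0 + 1)).powerset) ×ˢ
    (Fintype.piFinset fun c : PR (2 * g + 1) =>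
      if c ∈ UM g then (df a c).natAbs.primeFactors.powerset else {∅}) with htt
  have htc : tt.card = (8 * 2 ^ (Z0 + 1)) ^ g * 2 ^ (∑ c ∈ UM g, om (df a c)) := by
    rw [htt, card_product, Fintype.card_piFinset, Fintype.card_piFinset]
    congr 1
    · rw [Finset.prod_const, card_product, card_powerset, card_univ, ZMod.card, card_range,
        card_univ, Fintype.card_fin]
    · have e1 : ∀ c : PR (2 * g + 1), (if c ∈ UM g then (df a c).natAbs.primeFactors.powerset
          else {∅}).card = if c ∈ UM g then 2 ^ om (df a c) else 1 := by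
        intro c
        by_cases h1 : c ∈ UM g
        · rw [if_pos h1, if_pos h1, card_powerset]
          rfl
        · rw [if_neg h1, if_neg h1, card_singleton]
      rw [Finset.prod_congr rfl fun c _ => e1 c, Finset.prod_ite_mem, Finset.univ_inter,
        Finset.prod_pow_eq_pow_sum]
  have hcard := Finset.card_le_mul_card_image_of_maps_to
    (s := Fintype.piFinset fun j : Fin g => (P j).powerset) (t := tt) (f := f)
    (fun T _ => by
      rw [hf, htt, mem_product, Fintype.mem_piFinset, Fintype.mem_piFinset]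
      refine ⟨fun j => ?_, fun c => ?_⟩
      · rw [mem_product]
        exact ⟨mem_univ _, by rw [mem_powerset]; exact filter_subset _ _⟩
      · dsimp only
        split_ifs with h1
        · rw [mem_powerset]
          exact filter_subset _ _
        · exact mem_singleton_self _) (SelJ a).ncard ?_
  · rw [htc, Fintype.card_piFinset] at hcard
    have h1 : ∏ j : Fin g, ((P j).powerset).card = 2 ^ (∑ j, (P j).card) := by
      rw [← Finset.prod_pow_eq_pow_sum]
      exact Finset.prod_congr rfl fun j _ => card_powerset _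
    rw [h1] at hcard
    exact hcard.trans (le_of_eq (by ring))
  · intro c _
    rcases ((Fintype.piFinset fun j : Fin g => (P j).powerset).filter
      (fun T => f T = c)).eq_empty_or_nonempty with h0 | ⟨T0, hT0⟩
    · rw [h0]; simp
    · rw [← Set.ncard_coe_finset]
      rw [mem_filter, Fintype.mem_piFinset] at hT0
      have hT0P : ∀ j, T0 j ⊆ P j := fun j => mem_powerset.1 (hT0.1 j)
      have hodd : Odd (2 * g + 1) := ⟨g, rfl⟩
      refine Set.ncard_le_ncard_of_injOn
        (fun T => fun i : Fin (2 * g + 1) => ((dd (ex (SD T T0) (cl i)) : ℕ) : ℤ)) ?_ ?_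
        (Pool.Agent.TH344.JG.seljf hodd ha)
      · intro T hT
        rw [mem_coe, mem_filter, Fintype.mem_piFinset] at hT
        have hTP : ∀ j, T j ⊆ P j := fun j => mem_powerset.1 (hT.1 j)
        have hfe : f T = f T0 := hT.2.trans hT0.2.symm
        have hE : ∀ j, ex T j ⊆ ex P j := ex_mono hTP
        have hE0 : ∀ j, ex T0 j ⊆ ex P j := ex_mono hT0P
        have hEI : ∀ j, ex T j ∩ ex T0 j ⊆ ex P j := fun j p hp => hE j (mem_of_mem_inter_left hp)
        have hD : ∀ j, ex (SD T T0) j ⊆ ex P j := by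
          intro j
          rw [ex_SD]
          exact symm_sub (hE j) (hE0 j)
        -- equality of the data
        have hf8 : ∀ j, (dd (ex T j) : ZMod 8) = dd (ex T0 j) := by
          intro j
          by_cases hj : (j : ℕ) < g
          · have e : j = (⟨j, hj⟩ : Fin g).castSucc := Fin.ext rfl
            rw [e, ex_castSucc, ex_castSucc]
            exact congrArg (fun F => (F.1 ⟨j, hj⟩).1) hfe
          · have e : j = Fin.last g := Fin.ext (by
              have := j.2
              show (j : ℕ) = g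
              omega)
            rw [e, ex_last, ex_last]
        have hfs : ∀ q : ℕ, q ≤ Z0 → ∀ j,
            (IsSquare (dd (ex T j) : ZMod q) ↔ IsSquare (dd (ex T0 j) : ZMod q)) := by
          intro q hq j
          by_cases hj : (j : ℕ) < g
          · have e : j = (⟨j, hj⟩ : Fin g).castSucc := Fin.ext rfl
            rw [e, ex_castSucc, ex_castSucc]
            have e1 : (range (Z0 + 1)).filter (fun q => IsSquare (dd (T ⟨j, hj⟩) : ZMod q)) =
                (range (Z0 + 1)).filter (fun q => IsSquare (dd (T0 ⟨j, hj⟩) : ZMod q)) :=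
              congrArg (fun F => (F.1 ⟨j, hj⟩).2) hfe
            have e2 := Finset.ext_iff.1 e1 q
            rw [mem_filter, mem_filter, mem_range] at e2
            have hq' : q < Z0 + 1 := by omega
            exact ⟨fun h2 => (e2.1 ⟨hq', h2⟩).2, fun h2 => (e2.2 ⟨hq', h2⟩).2⟩
          · have e : j = Fin.last g := Fin.ext (by
              have := j.2
              show (j : ℕ) = g
              omega)
            rw [e, ex_last, ex_last]
        have hfc : ∀ c ∈ UM g, ∀ q : ℕ, q ∈ (df a c).natAbs.primeFactors →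
            (IsSquare ((dd (ex T (cl c.1.1)) * dd (ex T (cl c.1.2)) : ℕ) : ZMod q) ↔
            IsSquare ((dd (ex T0 (cl c.1.1)) * dd (ex T0 (cl c.1.2)) : ℕ) : ZMod q)) := by
          intro c hc q hq
          have e1 := congrArg (fun F => F.2 c) hfe
          rw [hf] at e1
          dsimp only at e1
          rw [if_pos hc, if_pos hc] at e1
          have e2 := Finset.ext_iff.1 e1 q
          rw [mem_filter, mem_filter] at e2
          exact ⟨fun h2 => (e2.1 ⟨hq, h2⟩).2, fun h2 => (e2.2 ⟨hq, h2⟩).2⟩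
        -- the squares at the primes dividing the unmatched differences
        have hsqc : ∀ c ∈ UM g, ∀ p : ℕ, p.Prime → (p : ℤ) ∣ df a c →
            IsSquare ((dd (ex (SD T T0) (cl c.1.1)) * dd (ex (SD T T0) (cl c.1.2)) : ℕ) :
              ZMod p) := by
          intro c hc p hp hd
          by_cases hp2 : p = 2
          · subst hp2
            exact sq_two _
          have hcc : cl c.1.1 ≠ cl c.1.2 := (mem_filter.1 hc).2
          have hcn : c.1.1 ≠ c.1.2 := fun h => hcc (by rw [h])
          have hd0 : df a c ≠ 0 := by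
            unfold df
            exact sub_ne_zero.2 fun h => hcn (ha h)
          have hpm : p ∈ (df a c).natAbs.primeFactors := by
            rw [Nat.mem_primeFactors]
            exact ⟨hp, Int.natCast_dvd.1 hd, by rwa [Ne, Int.natAbs_eq_zero]⟩
          have hn := hno p c.1.1 c.1.2 hd hcc
          have hm : ∀ x y : ℕ, ¬ p ∣ x → ¬ p ∣ y → ¬ p ∣ x * y := fun x y hx hy hxy =>
            ((Nat.Prime.dvd_mul hp).1 hxy).elim hx hy
          refine sq_class hp hp2
            (hm _ _ (not_dvd (hEp _) (hE (cl c.1.1)) hp (hn _))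
              (not_dvd (hEp _) (hE (cl c.1.2)) hp (hn _)))
            (hm _ _ (not_dvd (hEp _) (hE0 (cl c.1.1)) hp (hn _))
              (not_dvd (hEp _) (hE0 (cl c.1.2)) hp (hn _)))
            (hm _ _ (not_dvd (hEp _) (hEI (cl c.1.1)) hp (hn _))
              (not_dvd (hEp _) (hEI (cl c.1.2)) hp (hn _))) (hfc c hc p hpm) ?_
          have s1 := dd_symm (ex T (cl c.1.1)) (ex T0 (cl c.1.1))
          have s2 := dd_symm (ex T (cl c.1.2)) (ex T0 (cl c.1.2))
          rw [ex_SD, ex_SD]
          calc dd (symmDiff (ex T (cl c.1.1)) (ex T0 (cl c.1.1))) *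
                dd (symmDiff (ex T (cl c.1.2)) (ex T0 (cl c.1.2))) *
                (dd (ex T (cl c.1.1) ∩ ex T0 (cl c.1.1)) *
                  dd (ex T (cl c.1.2) ∩ ex T0 (cl c.1.2))) ^ 2
              = (dd (symmDiff (ex T (cl c.1.1)) (ex T0 (cl c.1.1))) *
                  dd (ex T (cl c.1.1) ∩ ex T0 (cl c.1.1)) ^ 2) *
                (dd (symmDiff (ex T (cl c.1.2)) (ex T0 (cl c.1.2))) *
                  dd (ex T (cl c.1.2) ∩ ex T0 (cl c.1.2)) ^ 2) := by ring
            _ = _ := by rw [s1, s2]; ring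
        refine hZ0 a (fun j => ((dd (ex (SD T T0) j) : ℕ) : ℤ)) ?_ ?_ ?_ ?_ ?_
        · intro j
          refine ⟨by exact_mod_cast dd_pos fun p hp => hEp j p (hD j hp),
            Int.squarefree_natCast.2 (dd_squarefree fun p hp => hEp j p (hD j hp)), ?_⟩
          rw [ex_SD]
          exact mod8 (hEp j) (hE2 j) (hE j) (hE0 j) (hf8 j)
        · rw [ex_last]
          simp [dd]
        · intro p hp hp2 hpZ j
          have hpn : ∀ j, p ∉ ex P j := fun j hj => absurd (hEZ j p hj) (by omega)
          refine ⟨fun hd => not_dvd (hEp j) (hD j) hp (hpn j) (by exact_mod_cast hd), ?_⟩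
          have := sq_class hp hp2 (not_dvd (hEp j) (hE j) hp (hpn j))
            (not_dvd (hEp j) (hE0 j) hp (hpn j)) (not_dvd (hEp j) (hEI j) hp (hpn j))
            (hfs p hpZ j) (dd_symm (ex T j) (ex T0 j))
          rw [ex_SD]
          simpa using this
        · intro p hp hpZ i l hd hc
          rcases lt_trichotomy i l with hil | hil | hil
          · have h1 := hsqc ⟨(i, l), hil⟩ (mem_filter.2 ⟨mem_univ _, hc⟩) p hp hd
            push_cast at h1 ⊢
            exact h1
          · exact absurd (by rw [hil]) hc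
          · have hd' : (p : ℤ) ∣ a l - a i := by
              rw [← neg_sub]
              exact (dvd_neg).2 hd
            have h1 := hsqc ⟨(l, i), hil⟩ (mem_filter.2 ⟨mem_univ _, hc.symm⟩) p hp hd'
            push_cast at h1 ⊢
            rw [mul_comm]
            exact h1
        · intro p hp j hpd
          have h1 : p ∈ ex P j.castSucc := hD _ (prime_dvd_dd
            (fun q hq => hEp _ q (hD _ hq)) hp (by exact_mod_cast hpd))
          rw [ex_castSucc] at h1
          exact (hP j p h1).2.2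
      · intro S hS T hT hST
        rw [mem_coe, mem_filter, Fintype.mem_piFinset] at hS hT
        have hp : ∀ U : Fin g → Finset ℕ, (∀ j, U j ⊆ P j) → ∀ j,
            ∀ p ∈ symmDiff (U j) (T0 j), p.Prime := by
          intro U hU j p hp
          exact (hP j p (symm_sub (hU j) (hT0P j) hp)).1
        funext j
        have h1 : dd (symmDiff (S j) (T0 j)) = dd (symmDiff (T j) (T0 j)) := by
          have h3 := congrFun hST (fs j)
          dsimp only at h3
          rw [cl_fs, ex_castSucc, ex_castSucc] at h3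
          exact_mod_cast h3
        have h2 : symmDiff (S j) (T0 j) = symmDiff (T j) (T0 j) := by
          rw [← Nat.primeFactors_prod (hp S (fun j => mem_powerset.1 (hS.1 j)) j),
            ← Nat.primeFactors_prod (hp T (fun j => mem_powerset.1 (hT.1 j)) j)]
          exact congrArg Nat.primeFactors h1
        exact symmDiff_left_injective (T0 j) h2

end Pool.Agent.TH344.JT
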