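import Pool.Agent.TH344.JT.Stm

/-!
# JT-DEN: the local densities
-/

set_option autoImplicit false

namespace Pool.Agent.TH344.JT

open Finset Pool.Agent.TH344.JG

namespace Den

/-- the interval -/
noncomputable def I (p : ℕ) : Finset ℤ := Ico (0 : ℤ) ((p : ℤ) ^ 2)

/-- the box -/
noncomputable def Bx (n p : ℕ) : Finset (Fin n → ℤ) := Fintype.piFinset fun _ => I p

open Classical in
/-- number of elements of the box with a property -/
noncomputable def K (n p : ℕ) (P : (Fin n → ℤ) → Prop) : ℕ := ((Bx n p).filter P).card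

lemma card_I (p : ℕ) : (I p).card = p ^ 2 := by
  unfold I
  rw [Int.card_Ico, sub_zero]
  exact_mod_cast Int.toNat_natCast (p ^ 2)

lemma card_Bx (n p : ℕ) : (Bx n p).card = (p ^ 2) ^ n := by
  unfold Bx
  rw [Fintype.card_piFinset]
  simp [card_I]

lemma update_mem {n p : ℕ} {A : Fin n → ℤ} (hA : A ∈ Bx n p) (m : Fin n) {x : ℤ} (hx : x ∈ I p) :
    Function.update A m x ∈ Bx n p := by
  unfold Bx at *
  rw [Fintype.mem_piFinset] at *
  intro i
  by_cases h : i = m
  · subst h; simpa using hx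
  · rw [Function.update_of_ne h]; exact hA i

open Classical in
lemma avg {n p : ℕ} (m : Fin n) (P : (Fin n → ℤ) → Prop) :
    p ^ 2 * K n p P =
      ∑ A ∈ Bx n p, ((I p).filter (fun x => P (Function.update A m x))).card := by
  have h1 : ∑ A ∈ Bx n p, ((I p).filter (fun x => P (Function.update A m x))).card =
      ∑ q ∈ Bx n p ×ˢ I p, if P (Function.update q.1 m q.2) then 1 else 0 := by
    rw [Finset.sum_product]
    refine Finset.sum_congr rfl fun A _ => ?_
    rw [Finset.card_filter]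
  have h2 : p ^ 2 * K n p P = ∑ q ∈ Bx n p ×ˢ I p, if P q.1 then 1 else 0 := by
    rw [Finset.sum_product, K, Finset.card_filter, Finset.mul_sum]
    refine Finset.sum_congr rfl fun A _ => ?_
    change _ = ∑ y ∈ I p, if P A then 1 else 0
    rw [Finset.sum_const, card_I, smul_eq_mul]
  rw [h1, h2]
  refine Finset.sum_nbij' (fun q => (Function.update q.1 m q.2, q.1 m))
    (fun q => (Function.update q.1 m q.2, q.1 m)) ?_ ?_ ?_ ?_ ?_
  · rintro ⟨A, x⟩ h
    rw [Finset.mem_product] at h ⊢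
    exact ⟨update_mem h.1 m h.2, by
      have := h.1; unfold Bx at this; rw [Fintype.mem_piFinset] at this; exact this m⟩
  · rintro ⟨A, x⟩ h
    rw [Finset.mem_product] at h ⊢
    exact ⟨update_mem h.1 m h.2, by
      have := h.1; unfold Bx at this; rw [Fintype.mem_piFinset] at this; exact this m⟩
  · rintro ⟨A, x⟩ _; simp
  · rintro ⟨A, x⟩ _; simp
  · rintro ⟨A, x⟩ _; simp

lemma cnt (p r s : ℕ) (hr : 0 < r) (h : r * s = p ^ 2) (c : ℤ) :
    ((I p).filter (fun x => (r : ℤ) ∣ c - x)).card = s := by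
  have h1 : (I p).filter (fun x => (r : ℤ) ∣ c - x) =
      (Ico (0 : ℤ) ((p : ℤ) ^ 2)).filter (fun x => x ≡ c [ZMOD (r : ℤ)]) := by
    unfold I
    refine Finset.filter_congr fun x _ => ?_
    rw [Int.modEq_iff_dvd]
  have h2 := Int.Ico_filter_modEq_card (0 : ℤ) ((p : ℤ) ^ 2) (r := (r : ℤ)) (by exact_mod_cast hr) c
  rw [← h1] at h2
  have hr' : (r : ℚ) ≠ 0 := by exact_mod_cast hr.ne'
  have h3 : ((((p : ℤ) ^ 2 : ℤ) : ℚ) - (c : ℚ)) / (((r : ℤ) : ℚ)) =
      (((0 : ℤ) : ℚ) - (c : ℚ)) / (((r : ℤ) : ℚ)) + (s : ℚ) := by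
    have h4 : (((p : ℤ) ^ 2 : ℤ) : ℚ) = (r : ℚ) * s := by
      have : ((p ^ 2 : ℕ) : ℚ) = ((r * s : ℕ) : ℚ) := by rw [h]
      push_cast at this ⊢
      exact this
    rw [h4]
    push_cast
    field_simp
    ring
  rw [h3, Int.ceil_add_natCast] at h2
  have h5 : max ((⌈(((0 : ℤ) : ℚ) - (c : ℚ)) / (((r : ℤ) : ℚ))⌉ + (s : ℤ)) -
      ⌈(((0 : ℤ) : ℚ) - (c : ℚ)) / (((r : ℤ) : ℚ))⌉) 0 = (s : ℤ) := by
    rw [add_sub_cancel_left]
    exact max_eq_left (by positivity)
  rw [h5] at h2
  exact_mod_cast h2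

open Classical in
lemma cnt_zmod (p : ℕ) [hp : Fact p.Prime] (Q : ZMod p → Prop) :
    ((I p).filter (fun x : ℤ => Q (x : ZMod p))).card = p * (univ.filter Q).card := by
  have h0 : 0 < p := hp.out.pos
  have h1 := Finset.card_eq_sum_card_fiberwise (s := (I p).filter (fun x : ℤ => Q (x : ZMod p)))
    (t := univ.filter Q) (f := fun x : ℤ => (x : ZMod p)) (by
      intro x hx
      simp only [Finset.coe_filter, Set.mem_ofPred_eq, Finset.mem_univ, true_and] at hx ⊢
      exact hx.2)
  rw [h1]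
  have h2 : ∀ y ∈ univ.filter Q, (((I p).filter (fun x : ℤ => Q (x : ZMod p))).filter
      (fun x : ℤ => (x : ZMod p) = y)).card = p := by
    intro y hy
    rw [Finset.mem_filter] at hy
    have h3 : ((I p).filter (fun x : ℤ => Q (x : ZMod p))).filter
      (fun x : ℤ => (x : ZMod p) = y) = (I p).filter (fun x => (p : ℤ) ∣ (y.val : ℤ) - x) := by
      ext x
      simp only [Finset.mem_filter]
      have h4 : (x : ZMod p) = y ↔ (p : ℤ) ∣ (y.val : ℤ) - x := by
        rw [← Int.modEq_iff_dvd, ← ZMod.intCast_eq_intCast_iff]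
        simp
      constructor
      · rintro ⟨⟨h5, h6⟩, h7⟩
        exact ⟨h5, h4.1 h7⟩
      · rintro ⟨h5, h6⟩
        have := h4.2 h6
        exact ⟨⟨h5, this ▸ hy.2⟩, this⟩
    rw [h3]
    exact cnt p p p h0 (by ring) _
  rw [Finset.sum_congr rfl h2, Finset.sum_const, smul_eq_mul, mul_comm]

open Classical in
lemma sq_card (p : ℕ) [Fact p.Prime] :
    p ≤ 2 * (univ.filter (fun y : ZMod p => IsSquare y)).card := by
  have h1 : (univ : Finset (ZMod p)).card ≤ 2 * (univ.image (fun x : ZMod p => x * x)).card := by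
    refine Finset.card_le_mul_card_image _ 2 ?_
    intro a ha
    obtain ⟨x0, _, rfl⟩ := Finset.mem_image.1 ha
    refine (Finset.card_le_card (t := {x0, -x0}) ?_).trans Finset.card_le_two
    intro x hx
    rw [Finset.mem_filter] at hx
    rw [Finset.mem_insert, Finset.mem_singleton]
    exact mul_self_eq_mul_self_iff.1 hx.2
  rw [Finset.card_univ, ZMod.card] at h1
  refine h1.trans (Nat.mul_le_mul_left _ (Finset.card_le_card ?_))
  intro y hy
  obtain ⟨x, _, rfl⟩ := Finset.mem_image.1 hy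
  rw [Finset.mem_filter]
  exact ⟨Finset.mem_univ _, ⟨x, rfl⟩⟩

open Classical in
lemma sq_card' (p : ℕ) [Fact p.Prime] (c R : ZMod p) :
    p ≤ 2 * (univ.filter (fun y : ZMod p => IsSquare ((c - y) * R))).card := by
  by_cases hR : R = 0
  · subst hR
    have : univ.filter (fun y : ZMod p => IsSquare ((c - y) * 0)) = univ := by
      ext y; simp
    rw [this, Finset.card_univ, ZMod.card]
    omega
  · have h1 : (univ.filter (fun y : ZMod p => IsSquare y)).card =
        (univ.filter (fun y : ZMod p => IsSquare ((c - y) * R))).card := by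
      refine Finset.card_nbij' (fun s => c - s * R⁻¹) (fun y => (c - y) * R) ?_ ?_ ?_ ?_
      · intro s hs
        simp only [Finset.coe_filter, Set.mem_ofPred_eq, Finset.mem_univ, true_and] at hs ⊢
        have : (c - (c - s * R⁻¹)) * R = s := by field_simp; ring
        rw [this]; exact hs
      · intro y hy
        simp only [Finset.coe_filter, Set.mem_ofPred_eq, Finset.mem_univ, true_and] at hy ⊢
        exact hy
      · intro s _
        simp only []
        field_simp
        ring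
      · intro y _
        simp only []
        field_simp
        ring
    rw [← h1]
    exact sq_card p

/-! ### counts -/

/-- `p ∣ A i - A l` -/
def Dv {n : ℕ} (p : ℕ) (i l : Fin n) (A : Fin n → ℤ) : Prop := (p : ℤ) ∣ A i - A l

/-- the square condition -/
def Sq {n : ℕ} (p : ℕ) (i l : Fin n) (A : Fin n → ℤ) : Prop :=
  IsSquare ((∏ m ∈ (univ.erase i).erase l, (A i - A m) : ℤ) : ZMod p)

lemma mem_filter' {α : Type*} {s : Finset α} {P : α → Prop} {d1 : DecidablePred P} {x : α} :
    x ∈ @Finset.filter α P d1 s ↔ x ∈ s ∧ P x := Finset.mem_filter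

lemma card_biUnion' {α β : Type*} {d : DecidableEq β} (s : Finset α) (f : α → Finset β) :
    (@Finset.biUnion α β d s f).card ≤ ∑ a ∈ s, (f a).card := Finset.card_biUnion_le

lemma card_filter_congr' {α : Type*} (s : Finset α) (P Q : α → Prop) {d1 : DecidablePred P}
    {d2 : DecidablePred Q} (h : ∀ x, P x ↔ Q x) :
    (@Finset.filter α P d1 s).card = (@Finset.filter α Q d2 s).card := by
  congr 1
  exact Finset.filter_congr fun x _ => h x

lemma K_dv {n p : ℕ} (hp : 0 < p) {i l : Fin n} (h : i ≠ l) :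
    p ^ 2 * K n p (Dv p i l) = p * (p ^ 2) ^ n := by
  classical
  rw [avg l, ← card_Bx, mul_comm p, ← smul_eq_mul, ← Finset.sum_const]
  refine Finset.sum_congr rfl fun A _ => ?_
  refine Eq.trans ?_ (cnt p p p hp (by ring) (A i))
  refine card_filter_congr' _ _ _ fun x => ?_
  unfold Dv
  rw [Function.update_of_ne h, Function.update_self]

lemma K_dv2 {n p : ℕ} (hp : 0 < p) {i l : Fin n} (h : i ≠ l) :
    p ^ 2 * K n p (fun A => (p : ℤ) ^ 2 ∣ A i - A l) = (p ^ 2) ^ n := by
  classical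
  rw [avg l, ← card_Bx, ← mul_one (Bx n p).card, ← smul_eq_mul, ← Finset.sum_const]
  refine Finset.sum_congr rfl fun A _ => ?_
  refine Eq.trans ?_ (cnt p (p ^ 2) 1 (by positivity) (by ring) (A i))
  refine card_filter_congr' _ _ _ fun x => ?_
  rw [Function.update_of_ne h, Function.update_self]
  push_cast
  rfl

open Classical in
lemma K_and_aux {n p : ℕ} (hp : 0 < p) {m o : Fin n} (hmo : o ≠ m) (P : (Fin n → ℤ) → Prop)
    (hP : ∀ A x, P (Function.update A m x) ↔ P A) :
    p ^ 2 * K n p (fun A => P A ∧ (p : ℤ) ∣ A o - A m) = p * K n p P := by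
  rw [avg m, K, mul_comm p, ← smul_eq_mul, ← Finset.sum_const, Finset.sum_filter]
  refine Finset.sum_congr rfl fun A _ => ?_
  by_cases hA : P A
  · rw [if_pos hA]
    refine Eq.trans ?_ (cnt p p p hp (by ring) (A o))
    refine card_filter_congr' _ _ _ fun x => ?_
    rw [Function.update_of_ne hmo, Function.update_self, hP]
    exact ⟨fun h => h.2, fun h => ⟨hA, h⟩⟩
  · rw [if_neg hA, Finset.card_eq_zero, Finset.eq_empty_iff_forall_notMem]
    intro x h
    exact hA ((hP A x).1 (mem_filter'.1 h).2.1)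

lemma K_two {n p : ℕ} (hp : 0 < p) {i l i' l' : Fin n} (h : i ≠ l) (h' : i' ≠ l')
    (h1 : ¬ (i' = i ∧ l' = l)) (h2 : ¬ (i' = l ∧ l' = i)) :
    p ^ 2 * K n p (fun A => Dv p i l A ∧ Dv p i' l' A) = (p ^ 2) ^ n := by
  classical
  have key : p ^ 2 * K n p (fun A => Dv p i l A ∧ Dv p i' l' A) = p * K n p (Dv p i l) := by
    by_cases hl : l' = i ∨ l' = l
    · have hi : i' ≠ i ∧ i' ≠ l := by
        rcases hl with hl | hl
        · subst hl
          exact ⟨h', fun h3 => h2 ⟨h3, rfl⟩⟩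
        · subst hl
          exact ⟨fun h3 => h1 ⟨h3, rfl⟩, h'⟩
      have := K_and_aux (p := p) hp (m := i') (o := l') h'.symm (Dv p i l) (by
        intro A x
        unfold Dv
        rw [Function.update_of_ne hi.1.symm, Function.update_of_ne hi.2.symm])
      rw [← this]
      congr 2
      funext A
      apply propext
      unfold Dv
      rw [show A i' - A l' = -(A l' - A i') by ring, dvd_neg]
    · push Not at hl
      have := K_and_aux (p := p) hp (m := l') (o := i') h' (Dv p i l) (by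
        intro A x
        unfold Dv
        rw [Function.update_of_ne hl.1.symm, Function.update_of_ne hl.2.symm])
      rw [← this]
      rfl
  have h3 := K_dv (p := p) hp h
  have h4 : p ^ 2 * (p ^ 2 * K n p (fun A => Dv p i l A ∧ Dv p i' l' A)) = p ^ 2 * (p ^ 2) ^ n := by
    rw [key]
    calc p ^ 2 * (p * K n p (Dv p i l)) = p * (p ^ 2 * K n p (Dv p i l)) := by ring
      _ = p ^ 2 * (p ^ 2) ^ n := by rw [h3]; ring
  exact Nat.eq_of_mul_eq_mul_left (by positivity) h4

open Classical in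
lemma K_sq {n p : ℕ} [hp : Fact p.Prime] {i l m0 : Fin n} (h0 : m0 ≠ i) (h0' : m0 ≠ l) :
    K n p (Dv p i l) ≤ 2 * K n p (fun A => Dv p i l A ∧ Sq p i l A) := by
  have hpos : 0 < p ^ 2 := by have := hp.out.pos; positivity
  have h1 : p ^ 2 * K n p (Dv p i l) ≤ p ^ 2 * (2 * K n p (fun A => Dv p i l A ∧ Sq p i l A)) := by
    have hr := avg (p := p) m0 (fun A => Dv p i l A ∧ Sq p i l A)
    have hl : p ^ 2 * K n p (Dv p i l) = ∑ A ∈ Bx n p, if Dv p i l A then p ^ 2 else 0 := by
      rw [K, mul_comm, ← smul_eq_mul, ← Finset.sum_const, Finset.sum_filter]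
    rw [mul_left_comm, hr, hl, Finset.mul_sum]
    refine Finset.sum_le_sum fun A _ => ?_
    by_cases hA : Dv p i l A
    · rw [if_pos hA]
      set R : ℤ := ∏ m ∈ ((univ.erase i).erase l).erase m0, (A i - A m) with hR
      have h2 := sq_card' p ((A i : ℤ) : ZMod p) ((R : ℤ) : ZMod p)
      have h3 := cnt_zmod p (fun y : ZMod p => IsSquare ((((A i : ℤ) : ZMod p) - y) * ((R : ℤ) : ZMod p)))
      have h4 : ∀ x : ℤ, (Dv p i l (Function.update A m0 x) ∧
          Sq p i l (Function.update A m0 x)) ↔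
          IsSquare ((((A i : ℤ) : ZMod p) - (x : ZMod p)) * ((R : ℤ) : ZMod p)) := by
        intro x
        have e1 : Dv p i l (Function.update A m0 x) ↔ Dv p i l A := by
          unfold Dv
          rw [Function.update_of_ne h0.symm, Function.update_of_ne h0'.symm]
        have e2 : Sq p i l (Function.update A m0 x) ↔
            IsSquare ((((A i : ℤ) : ZMod p) - (x : ZMod p)) * ((R : ℤ) : ZMod p)) := by
          unfold Sq
          have hm : m0 ∈ (univ.erase i).erase l := by
            rw [Finset.mem_erase, Finset.mem_erase]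
            exact ⟨h0', h0, Finset.mem_univ _⟩
          rw [← Finset.mul_prod_erase _ _ hm, Function.update_self, Function.update_of_ne h0.symm]
          have : ∏ m ∈ ((univ.erase i).erase l).erase m0, (A i - Function.update A m0 x m) = R := by
            rw [hR]
            refine Finset.prod_congr rfl fun m hm => ?_
            rw [Function.update_of_ne (Finset.ne_of_mem_erase hm)]
          rw [this]
          push_cast
          exact Iff.rfl
        rw [e1, e2]
        exact ⟨fun h => h.2, fun h => ⟨hA, h⟩⟩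
      rw [card_filter_congr' _ _ _ h4, h3]
      calc p ^ 2 = p * p := by ring
        _ ≤ p * (2 * _) := Nat.mul_le_mul_left p h2
        _ = _ := by
          rw [mul_left_comm]
          exact congrArg (fun c => 2 * (p * c)) (card_filter_congr' _ _ _ fun _ => Iff.rfl)
    · rw [if_neg hA]
      exact Nat.zero_le _
  exact Nat.le_of_mul_le_mul_left h1 hpos

open Classical in
/-- the pairs different from `(i, l)` -/
noncomputable def bad {n : ℕ} (i l : Fin n) : Finset (Fin n × Fin n) :=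
  univ.filter (fun q => q.1 ≠ q.2 ∧ ¬ (q.1 = i ∧ q.2 = l) ∧ ¬ (q.1 = l ∧ q.2 = i))

lemma card_bad {n : ℕ} (i l : Fin n) : (bad i l).card ≤ n ^ 2 := by
  have h := Finset.card_le_univ (bad i l)
  rw [Fintype.card_prod, Fintype.card_fin] at h
  rw [sq]
  exact h

open Classical in
lemma K_le_split {n p : ℕ} (P Q : (Fin n → ℤ) → Prop) (i l : Fin n)
    (h : ∀ A, P A → Q A ∨ ∃ q ∈ bad i l, Dv p i l A ∧ Dv p q.1 q.2 A) :
    K n p P ≤ K n p Q + ∑ q ∈ bad i l, K n p (fun A => Dv p i l A ∧ Dv p q.1 q.2 A) := by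
  unfold K
  refine (Finset.card_le_card (t := (Bx n p).filter Q ∪ (bad i l).biUnion
    (fun q => (Bx n p).filter (fun A => Dv p i l A ∧ Dv p q.1 q.2 A))) ?_).trans ?_
  · intro A hA
    rw [Finset.mem_filter] at hA
    rw [Finset.mem_union, Finset.mem_filter, Finset.mem_biUnion]
    rcases h A hA.2 with h1 | ⟨q, hq, h1⟩
    · exact Or.inl ⟨hA.1, h1⟩
    · exact Or.inr ⟨q, hq, Finset.mem_filter.2 ⟨hA.1, h1⟩⟩
  · refine le_trans (Finset.card_union_le _ _) (Nat.add_le_add_left ?_ _)
    exact (card_biUnion' _ _).trans (Finset.sum_le_sum fun q _ =>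
      le_of_eq (card_filter_congr' _ _ _ fun _ => Iff.rfl))

lemma only_or {n p : ℕ} {i l : Fin n} (hil : i ≠ l) {A : Fin n → ℤ} (hA : Dv p i l A) :
    Only p A i l ∨ ∃ q ∈ bad i l, Dv p i l A ∧ Dv p q.1 q.2 A := by
  by_cases h : Only p A i l
  · exact Or.inl h
  · right
    unfold Only at h
    push Not at h
    obtain ⟨i', l', h1, h2, h3, h4⟩ := h hil hA
    refine ⟨(i', l'), ?_, hA, h2⟩
    unfold bad
    rw [Finset.mem_filter]
    exact ⟨Finset.mem_univ _, h1, fun h5 => h3 h5.1 h5.2, fun h5 => h4 h5.1 h5.2⟩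

lemma sum_bad {n p : ℕ} (hp : 0 < p) {i l : Fin n} (h : i ≠ l) :
    p ^ 2 * ∑ q ∈ bad i l, K n p (fun A => Dv p i l A ∧ Dv p q.1 q.2 A) ≤
      n ^ 2 * (p ^ 2) ^ n := by
  rw [Finset.mul_sum]
  calc _ = ∑ q ∈ bad i l, (p ^ 2) ^ n := by
        refine Finset.sum_congr rfl fun q hq => ?_
        unfold bad at hq
        rw [Finset.mem_filter] at hq
        exact K_two hp h hq.2.1 hq.2.2.1 hq.2.2.2
    _ = (bad i l).card * (p ^ 2) ^ n := by rw [Finset.sum_const, smul_eq_mul]
    _ ≤ _ := Nat.mul_le_mul_right _ (card_bad i l)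

lemma K_only {n p : ℕ} (hp : 0 < p) {i l : Fin n} (h : i ≠ l) :
    p * (p ^ 2) ^ n ≤ p ^ 2 * K n p (fun A => Only p A i l) + n ^ 2 * (p ^ 2) ^ n := by
  have h1 := K_le_split (n := n) (p := p) (Dv p i l) (fun A => Only p A i l) i l
    (fun A hA => only_or h hA)
  have h2 := Nat.mul_le_mul_left (p ^ 2) h1
  rw [K_dv hp h, mul_add] at h2
  exact h2.trans (Nat.add_le_add_left (sum_bad hp h) _)

open Classical in
lemma K_spt {g p : ℕ} [hp : Fact p.Prime] (j : Fin g) :
    p * (p ^ 2) ^ (2 * g + 1) ≤ 2 * (p ^ 2 * K (2 * g + 1) p (fun A => Spt p A j)) +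
      2 * ((2 * g + 1) ^ 2 + 1) * (p ^ 2) ^ (2 * g + 1) := by
  have hp0 : 0 < p := hp.out.pos
  have hj := j.isLt
  have hne : fs j ≠ sn j := by
    intro h
    have := congrArg Fin.val h
    simp [fs, sn] at this
  have h0 : (Fin.last (2 * g)) ≠ fs j := by
    intro h
    have := congrArg Fin.val h
    simp [fs] at this
    omega
  have h0' : (Fin.last (2 * g)) ≠ sn j := by
    intro h
    have := congrArg Fin.val h
    simp [sn] at this
    omega
  have h1 := K_sq (p := p) (i := fs j) (l := sn j) h0 h0'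
  have h2 : K (2 * g + 1) p (fun A => Dv p (fs j) (sn j) A ∧ Sq p (fs j) (sn j) A) ≤
      (K (2 * g + 1) p (fun A => Spt p A j) +
        K (2 * g + 1) p (fun A => (p : ℤ) ^ 2 ∣ A (fs j) - A (sn j))) +
      ∑ q ∈ bad (fs j) (sn j), K (2 * g + 1) p
        (fun A => Dv p (fs j) (sn j) A ∧ Dv p q.1 q.2 A) := by
    refine (K_le_split (n := 2 * g + 1) (p := p) _ (fun A => Spt p A j ∨
      (p : ℤ) ^ 2 ∣ A (fs j) - A (sn j)) (fs j) (sn j) ?_).trans ?_
    · rintro A ⟨hA1, hA2⟩
      rcases only_or hne hA1 with h | h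
      · left
        by_cases h3 : (p : ℤ) ^ 2 ∣ A (fs j) - A (sn j)
        · exact Or.inr h3
        · exact Or.inl ⟨h, h3, hA2⟩
      · exact Or.inr h
    · refine Nat.add_le_add_right ?_ _
      unfold K
      refine le_trans (Finset.card_le_card ?_) (Finset.card_union_le _ _)
      intro A hA
      have hA' := mem_filter'.1 hA
      rw [Finset.mem_union]
      exact hA'.2.elim (fun h => Or.inl (mem_filter'.2 ⟨hA'.1, h⟩))
        (fun h => Or.inr (mem_filter'.2 ⟨hA'.1, h⟩))
  have h3 := K_dv (n := 2 * g + 1) (p := p) hp0 hne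
  have h4 := K_dv2 (n := 2 * g + 1) (p := p) hp0 hne
  have h5 := sum_bad (n := 2 * g + 1) (p := p) hp0 hne
  have h6 := Nat.mul_le_mul_left (p ^ 2) (h1.trans (Nat.mul_le_mul_left 2 h2))
  rw [h3] at h6
  refine h6.trans ?_
  calc _ = 2 * (p ^ 2 * K (2 * g + 1) p (fun A => Spt p A j)) +
        2 * (p ^ 2 * K (2 * g + 1) p (fun A => (p : ℤ) ^ 2 ∣ A (fs j) - A (sn j))) +
        2 * (p ^ 2 * ∑ q ∈ bad (fs j) (sn j), K (2 * g + 1) p
          (fun A => Dv p (fs j) (sn j) A ∧ Dv p q.1 q.2 A)) := by ring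
    _ ≤ 2 * (p ^ 2 * K (2 * g + 1) p (fun A => Spt p A j)) +
        2 * ((p ^ 2) ^ (2 * g + 1)) + 2 * ((2 * g + 1) ^ 2 * (p ^ 2) ^ (2 * g + 1)) := by
        rw [h4]
        exact Nat.add_le_add_left (Nat.mul_le_mul_left 2 h5) _
    _ = _ := by ring

/-! ### the number of unmatched pairs -/

lemma card_PR (n : ℕ) : 2 * Fintype.card (PR n) = n * n - n := by
  classical
  have h1 : Fintype.card (PR n) = ((univ : Finset (Fin n × Fin n)).filter
      (fun c => c.1 < c.2)).card := by
    rw [Fintype.card_subtype]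
  have h2 : ((univ : Finset (Fin n × Fin n)).filter (fun c => c.1 < c.2)).card =
      ((univ : Finset (Fin n × Fin n)).filter (fun c => c.2 < c.1)).card := by
    refine Finset.card_nbij' Prod.swap Prod.swap ?_ ?_ ?_ ?_
    · intro c hc; simpa using hc
    · intro c hc; simpa using hc
    · intro c _; simp
    · intro c _; simp
  have h3 : (univ : Finset (Fin n)).offDiag =
      (univ : Finset (Fin n × Fin n)).filter (fun c => c.1 < c.2) ∪
      (univ : Finset (Fin n × Fin n)).filter (fun c => c.2 < c.1) := by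
    ext c
    simp only [Finset.mem_offDiag, Finset.mem_univ, true_and, Finset.mem_union, Finset.mem_filter]
    exact ⟨fun h => lt_or_gt_of_ne h, fun h => h.elim ne_of_lt ne_of_gt⟩
  have h4 : Disjoint ((univ : Finset (Fin n × Fin n)).filter (fun c => c.1 < c.2))
      ((univ : Finset (Fin n × Fin n)).filter (fun c => c.2 < c.1)) := by
    rw [Finset.disjoint_filter]
    intro c _ h h'
    exact absurd h (not_lt.2 h'.le)
  have h5 := congrArg Finset.card h3
  rw [Finset.card_union_of_disjoint h4, ← h2, ← h1, Finset.offDiag_card, Finset.card_univ,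
    Fintype.card_fin] at h5
  omega

lemma card_UM (g : ℕ) : 2 * g ^ 2 ≤ (UM g).card := by
  classical
  have h1 : (UM g).card + (univ.filter (fun c : PR (2 * g + 1) => ¬ (cl c.1.1 ≠ cl c.1.2))).card =
      Fintype.card (PR (2 * g + 1)) := by
    unfold UM
    exact Finset.card_filter_add_card_filter_not _
  have h2 : (univ.filter (fun c : PR (2 * g + 1) => ¬ (cl c.1.1 ≠ cl c.1.2))).card ≤ g := by
    have : (univ.filter (fun c : PR (2 * g + 1) => ¬ (cl c.1.1 ≠ cl c.1.2))).card ≤
        (Finset.range g).card := by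
      refine Finset.card_le_card_of_injOn (fun c => (c.1.1 : ℕ) / 2) ?_ ?_
      · intro c hc
        simp only [Finset.coe_filter, Set.mem_ofPred_eq, Finset.mem_univ, true_and, not_not] at hc
        have h3 := congrArg Fin.val hc
        simp only [cl] at h3
        have h4 : (c.1.1 : ℕ) < c.1.2 := c.2
        have h5 := c.1.2.isLt
        simp only [Finset.coe_range, Set.mem_Iio]
        omega
      · intro c hc c' hc' he
        simp only [Finset.coe_filter, Set.mem_ofPred_eq, Finset.mem_univ, true_and, not_not] at hc hc'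
        have h3 := congrArg Fin.val hc
        have h3' := congrArg Fin.val hc'
        simp only [cl] at h3 h3'
        have h4 : (c.1.1 : ℕ) < c.1.2 := c.2
        have h4' : (c'.1.1 : ℕ) < c'.1.2 := c'.2
        simp only [] at he
        refine Subtype.ext (Prod.ext (Fin.ext ?_) (Fin.ext ?_))
        · omega
        · omega
    simpa using this
  have h3 := card_PR (2 * g + 1)
  have h4 : (2 * g + 1) * (2 * g + 1) - (2 * g + 1) = 2 * (g * (2 * g + 1)) := by
    have : (2 * g + 1) * (2 * g + 1) = 2 * (g * (2 * g + 1)) + (2 * g + 1) := by ring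
    omega
  have h5 : Fintype.card (PR (2 * g + 1)) = g * (2 * g + 1) := by omega
  have h6 : g * (2 * g + 1) = 2 * g ^ 2 + g := by ring
  omega

end Den

open Den in
theorem den : S_DEN := by
  intro g κ hg hκ
  refine ⟨2 * ((2 * g + 1) ^ 2 + 1), fun p hpp hCp => ?_⟩
  classical
  have : Fact p.Prime := ⟨hpp⟩
  have hp0 : 0 < p := hpp.pos
  have hpR : (0 : ℝ) < p := by exact_mod_cast hp0
  set n : ℕ := 2 * g + 1 with hn
  set B : ℝ := ((p : ℝ) ^ 2) ^ n with hB
  have hBpos : 0 < B := by positivity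
  set D : ℝ := (n : ℝ) ^ 2 with hD
  set y : ℝ := (2 : ℝ) ^ κ with hy
  have hy1 : 1 ≤ y := Real.one_le_rpow one_le_two hκ
  have hy0 : 0 < y := by linarith
  set yi : ℝ := (2 : ℝ) ^ (-κ) with hyi
  have hyi0 : 0 < yi := Real.rpow_pos_of_pos two_pos _
  -- counts as real numbers
  have hO : ∀ i l : Fin n, i ≠ l →
      ((p : ℝ) - D) * B ≤ (p : ℝ) ^ 2 * (K n p (fun A => Only p A i l) : ℝ) := by
    intro i l hil
    have h1 := K_only (p := p) hp0 hil
    have h2 : (p : ℝ) * ((p : ℝ) ^ 2) ^ n ≤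
        (p : ℝ) ^ 2 * (K n p (fun A => Only p A i l) : ℝ) + (n : ℝ) ^ 2 * ((p : ℝ) ^ 2) ^ n := by
      exact_mod_cast h1
    rw [hD, hB]
    linarith
  have hS : ∀ j : Fin g,
      ((p : ℝ) / 2 - (D + 1)) * B ≤ (p : ℝ) ^ 2 * (K n p (fun A => Spt p A j) : ℝ) := by
    intro j
    have h1 := K_spt (g := g) (p := p) j
    have h2 : (p : ℝ) * ((p : ℝ) ^ 2) ^ n ≤
        2 * ((p : ℝ) ^ 2 * (K n p (fun A => Spt p A j) : ℝ)) +
          2 * ((n : ℝ) ^ 2 + 1) * ((p : ℝ) ^ 2) ^ n := by
      exact_mod_cast h1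
    rw [hD, hB]
    linarith
  -- the sum
  have hKsum : ∀ P : (Fin n → ℤ) → Prop,
      ∑ A ∈ Bx n p, (if P A then (1 : ℝ) else 0) = (K n p P : ℝ) := by
    intro P
    unfold K
    rw [Finset.card_filter]
    push_cast
    rfl
  have hsum : ∑ A ∈ Fintype.piFinset (fun _ : Fin (2 * g + 1) => Ico (0 : ℤ) ((p : ℤ) ^ 2)),
      fw (g := g) κ p A =
      ∑ j : Fin g, ((K n p (fun A => Only p A (fs j) (sn j)) : ℝ) +
        (y - 1) * (K n p (fun A => Spt p A j) : ℝ)) +
      ∑ c ∈ UM g, yi * (K n p (fun A => Only p A c.1.1 c.1.2) : ℝ) := by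
    have e1 : ∀ A : Fin n → ℤ, fw (g := g) κ p A =
        ∑ j : Fin g, ((if Only p A (fs j) (sn j) then (1 : ℝ) else 0) +
          (y - 1) * (if Spt p A j then (1 : ℝ) else 0)) +
        ∑ c ∈ UM g, yi * (if Only p A c.1.1 c.1.2 then (1 : ℝ) else 0) := by
      intro A
      unfold fw
      congr 1
      · refine Finset.sum_congr rfl fun j _ => ?_
        by_cases h1 : Spt p A j
        · have h2 : Only p A (fs j) (sn j) := h1.1
          simp only [h1, h2, if_true]
          rw [hy]; ring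
        · by_cases h2 : Only p A (fs j) (sn j)
          · simp only [h1, h2, if_true, if_false]; ring
          · simp only [h1, h2, if_false]; ring
      · refine Finset.sum_congr rfl fun c _ => ?_
        by_cases h1 : Only p A c.1.1 c.1.2
        · simp only [h1, if_true]; rw [hyi]; ring
        · simp only [h1, if_false]; ring
    change ∑ A ∈ Bx n p, fw (g := g) κ p A = _
    simp only [e1]
    rw [Finset.sum_add_distrib, Finset.sum_comm]
    congr 1
    · refine Finset.sum_congr rfl fun j _ => ?_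
      rw [Finset.sum_add_distrib, hKsum, ← Finset.mul_sum, hKsum]
    · rw [Finset.sum_comm]
      refine Finset.sum_congr rfl fun c _ => ?_
      rw [← Finset.mul_sum, hKsum]
  rw [hsum]
  -- lower bounds, multiplied by p^2
  have hfs : ∀ j : Fin g, fs j ≠ sn j := by
    intro j h
    have := congrArg Fin.val h
    simp [fs, sn] at this
  have hpD : 0 ≤ (p : ℝ) - D := by
    have : ((2 * ((2 * g + 1) ^ 2 + 1) : ℕ) : ℝ) < p := by exact_mod_cast hCp
    push_cast at this
    rw [hD, hn]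
    push_cast
    nlinarith [sq_nonneg ((2 : ℝ) * g + 1)]
  have hL1 : (g : ℝ) * (((p : ℝ) - D) * B + (y - 1) * (((p : ℝ) / 2 - (D + 1)) * B)) ≤
      (p : ℝ) ^ 2 * ∑ j : Fin g, ((K n p (fun A => Only p A (fs j) (sn j)) : ℝ) +
        (y - 1) * (K n p (fun A => Spt p A j) : ℝ)) := by
    rw [Finset.mul_sum]
    have : (g : ℝ) * (((p : ℝ) - D) * B + (y - 1) * (((p : ℝ) / 2 - (D + 1)) * B)) =
        ∑ _j : Fin g, (((p : ℝ) - D) * B + (y - 1) * (((p : ℝ) / 2 - (D + 1)) * B)) := by
      rw [Finset.sum_const, Finset.card_univ, Fintype.card_fin, nsmul_eq_mul]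
    rw [this]
    refine Finset.sum_le_sum fun j _ => ?_
    have h1 := hO _ _ (hfs j)
    have h2 := mul_le_mul_of_nonneg_left (hS j) (by linarith : (0:ℝ) ≤ y - 1)
    nlinarith
  have hL2 : 2 * (g : ℝ) ^ 2 * (yi * (((p : ℝ) - D) * B)) ≤
      (p : ℝ) ^ 2 * ∑ c ∈ UM g, yi * (K n p (fun A => Only p A c.1.1 c.1.2) : ℝ) := by
    rw [Finset.mul_sum]
    have h0 : 0 ≤ yi * (((p : ℝ) - D) * B) := by positivity
    have h1 : 2 * (g : ℝ) ^ 2 * (yi * (((p : ℝ) - D) * B)) ≤
        ∑ _c ∈ UM g, yi * (((p : ℝ) - D) * B) := by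
      rw [Finset.sum_const, nsmul_eq_mul]
      refine mul_le_mul_of_nonneg_right ?_ h0
      exact_mod_cast card_UM g
    refine h1.trans (Finset.sum_le_sum fun c _ => ?_)
    have h2 := mul_le_mul_of_nonneg_left (hO c.1.1 c.1.2 (ne_of_lt c.2)) hyi0.le
    linarith
  -- conclusion
  have hgoal : (p : ℝ) ^ 2 * ((p : ℝ) ^ (2 * (2 * g + 1)) *
      (gp g κ / (p : ℝ) * (1 - ((2 * ((2 * g + 1) ^ 2 + 1) : ℕ) : ℝ) / p))) ≤
      (p : ℝ) ^ 2 * (∑ j : Fin g, ((K n p (fun A => Only p A (fs j) (sn j)) : ℝ) +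
        (y - 1) * (K n p (fun A => Spt p A j) : ℝ)) +
      ∑ c ∈ UM g, yi * (K n p (fun A => Only p A c.1.1 c.1.2) : ℝ)) := by
    rw [mul_add ((p : ℝ) ^ 2) (∑ j : Fin g, _)]
    refine le_trans ?_ (add_le_add hL1 hL2)
    have e1 : (p : ℝ) ^ (2 * (2 * g + 1)) = B := by rw [hB, hn, ← pow_mul]
    have e2 : ((2 * ((2 * g + 1) ^ 2 + 1) : ℕ) : ℝ) = 2 * (D + 1) := by
      rw [hD, hn]; push_cast; ring
    have e3 : (p : ℝ) ^ 2 * (B * (gp g κ / (p : ℝ) * (1 - (2 * (D + 1)) / p))) =
        B * (gp g κ * (p - 2 * (D + 1))) := by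
      field_simp
    rw [e1, e2, e3]
    have e4 : gp g κ = (g : ℝ) * (y + 1) / 2 + 2 * (g : ℝ) ^ 2 * yi := rfl
    rw [e4]
    have e5 : (g : ℝ) * (((p : ℝ) - D) * B + (y - 1) * (((p : ℝ) / 2 - (D + 1)) * B)) +
        2 * (g : ℝ) ^ 2 * (yi * (((p : ℝ) - D) * B)) -
        B * (((g : ℝ) * (y + 1) / 2 + 2 * (g : ℝ) ^ 2 * yi) * (p - 2 * (D + 1))) =
        B * ((g : ℝ) * 2 + 2 * (g : ℝ) ^ 2 * yi * (D + 2)) +
        B * ((g : ℝ) * D) := by ring
    have hD0 : 0 ≤ D := by rw [hD]; positivity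
    have e6 : 0 ≤ B * ((g : ℝ) * 2 + 2 * (g : ℝ) ^ 2 * yi * (D + 2)) +
        B * ((g : ℝ) * D) := by positivity
    linarith
  exact le_of_mul_le_mul_left hgoal (by positivity)

end Pool.Agent.TH344.JT
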