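import Pool.Agent.TH344.JT.Stm
import Pool.Agent.TH344.MT.Eul

/-!
# JT-EUL: a truncated Euler product
-/

set_option autoImplicit false

namespace Pool.Agent.TH344.JT

open Finset

open Pool.Agent.TH344.MT (Pr)

namespace Eul

open Pool.Agent.TH344.MT.Eul (mem_Pr rankin_point prod_compare)

/-- the sum over all the subsets -/
theorem sum_all (P : Finset ℕ) (x : ℕ → ℝ) :
    ∑ S ∈ P.powerset, ∏ p ∈ S, x p = ∏ p ∈ P, (1 + x p) := by
  have e1 : ∏ p ∈ P, (1 + x p) = ∏ p ∈ P, (x p + 1) := prod_congr rfl fun p _ => by ring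
  rw [e1, prod_add]
  exact sum_congr rfl fun S _ => by rw [prod_const_one, mul_one]

open Classical in
/-- the sum over the small subsets, from below -/
theorem sum_small_ge {z w L : ℕ} (hw : 2 ≤ w) {s : ℝ} (hs : 0 < s) (x : ℕ → ℝ)
    (hx : ∀ p ∈ Pr z w, 0 ≤ x p) :
    (∏ p ∈ Pr z w, (1 + x p)) - ((w : ℝ) ^ L) ^ (-s) *
      (∏ p ∈ Pr z w, (1 + (p : ℝ) ^ s * x p)) ≤
    ∑ S ∈ (Pr z w).powerset.filter (fun S => ∏ p ∈ S, p ≤ w ^ L), ∏ p ∈ S, x p := by
  rw [sum_filter, ← sum_all, ← sum_all, mul_sum, ← sum_sub_distrib]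
  apply sum_le_sum
  intro S hS
  rw [mem_powerset] at hS
  have hW : 0 ≤ ∏ p ∈ S, x p := prod_nonneg fun p hp => hx p (hS hp)
  rw [prod_mul_distrib]
  have n1 : 0 ≤ ∏ p ∈ S, (p : ℝ) ^ s := prod_nonneg fun p _ => by positivity
  have hc : 0 < ((w : ℝ) ^ L) ^ (-s) := by positivity
  split_ifs with hcond
  · have := mul_nonneg hc.le (mul_nonneg n1 hW)
    linarith
  · have hbig := rankin_point hw hs S (fun p hp => (mem_Pr (hS hp)).1.one_lt.le) hcond
    have h1 : (∏ p ∈ S, x p) ≤ ((w : ℝ) ^ L) ^ (-s) * (∏ p ∈ S, (p : ℝ) ^ s) * ∏ p ∈ S, x p :=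
      le_mul_of_one_le_left hW hbig
    rw [mul_assoc] at h1
    linarith

/-- the Euler product from below -/
theorem euler_ge (β C : ℝ) (hβ : 0 ≤ β) (hC : 0 ≤ C) (z : ℕ) (hz : C ≤ z) :
    ∃ c : ℝ, 0 < c ∧ ∀ w : ℕ, 3 ≤ w →
      c * Real.log w ^ β ≤ ∏ p ∈ Pr z w, (1 + β / (p : ℝ) * (1 - C / p)) := by
  obtain ⟨D, hD⟩ := Pool.Agent.Helper256.KM.mertens_inv
  have hsum : Summable (fun n : ℕ => 1 / (n : ℝ) ^ 2) := Real.summable_one_div_nat_pow.mpr (by norm_num)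
  set Z2 : ℝ := ∑' n : ℕ, 1 / (n : ℝ) ^ 2 with hZ2
  set B0 : ℝ := ∑ p ∈ (Icc 1 z).filter Nat.Prime, (1 : ℝ) / p with hB0
  refine ⟨Real.exp (-(β * (D + B0)) - (β * C + β ^ 2) * Z2), Real.exp_pos _, ?_⟩
  intro w hw
  have hw3 : (3 : ℝ) ≤ w := by exact_mod_cast hw
  have hlw : 0 < Real.log w := Real.log_pos (by linarith)
  have hterm : ∀ p ∈ Pr z w, Real.exp (β / p - (β * C + β ^ 2) * (1 / (p : ℝ) ^ 2)) ≤
      1 + β / (p : ℝ) * (1 - C / p) := by
    intro p hp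
    obtain ⟨hp1, hp2, hp3⟩ := mem_Pr hp
    have hpr : (2 : ℝ) ≤ p := by exact_mod_cast hp1.two_le
    have hp0 : (0 : ℝ) < p := by linarith
    have hzp : (z : ℝ) ≤ p := by exact_mod_cast hp2.le
    have hCp : C / p ≤ 1 := (div_le_one hp0).2 (hz.trans hzp)
    have hCp0 : 0 ≤ C / p := by positivity
    set v : ℝ := β / (p : ℝ) * (1 - C / p) with hv
    have hv1 : v = β / p - β * C * (1 / (p : ℝ) ^ 2) := by
      rw [hv]; field_simp
    have hv0 : 0 ≤ v := mul_nonneg (by positivity) (by linarith)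
    have hvle : v ≤ β / p := by
      rw [hv1]
      have : 0 ≤ β * C * (1 / (p : ℝ) ^ 2) := by positivity
      linarith
    have hlog : v - v ^ 2 ≤ Real.log (1 + v) := by
      have h1 := Real.le_log_one_add_of_nonneg hv0
      have h2 : v - v ^ 2 ≤ 2 * v / (v + 2) := by
        rw [le_div_iff₀ (by linarith)]
        nlinarith [mul_nonneg hv0 hv0, mul_nonneg (mul_nonneg hv0 hv0) hv0]
      linarith
    have hvsq : v ^ 2 ≤ β ^ 2 * (1 / (p : ℝ) ^ 2) := by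
      have := pow_le_pow_left₀ hv0 hvle 2
      calc v ^ 2 ≤ (β / p) ^ 2 := this
        _ = β ^ 2 * (1 / (p : ℝ) ^ 2) := by field_simp
    rw [← Real.le_log_iff_exp_le (by linarith)]
    calc β / p - (β * C + β ^ 2) * (1 / (p : ℝ) ^ 2) ≤ v - v ^ 2 := by rw [hv1] at hvsq ⊢; linarith
      _ ≤ _ := hlog
  have h1 : ∏ p ∈ Pr z w, Real.exp (β / p - (β * C + β ^ 2) * (1 / (p : ℝ) ^ 2)) ≤
      ∏ p ∈ Pr z w, (1 + β / (p : ℝ) * (1 - C / p)) :=
    prod_le_prod (fun p _ => (Real.exp_pos _).le) hterm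
  refine le_trans ?_ h1
  rw [← Real.exp_sum, Real.rpow_def_of_pos hlw, ← Real.exp_add]
  apply Real.exp_le_exp.mpr
  rw [sum_sub_distrib, ← mul_sum]
  have e2 : ∑ p ∈ Pr z w, β / (p : ℝ) = β * ∑ p ∈ Pr z w, (1 : ℝ) / p := by
    rw [mul_sum]; apply sum_congr rfl; intro p _; ring
  rw [e2]
  have h2 : Real.log (Real.log w) - D - B0 ≤ ∑ p ∈ Pr z w, (1 : ℝ) / p := by
    have h3 := (abs_le.mp (hD w hw)).1
    have h4 : ∑ p ∈ (Icc 1 w).filter Nat.Prime, (1 : ℝ) / p ≤ B0 + ∑ p ∈ Pr z w, (1 : ℝ) / p := by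
      have hsub : (Icc 1 w).filter Nat.Prime ⊆ ((Icc 1 z).filter Nat.Prime) ∪ Pr z w := by
        intro p hp
        rw [mem_filter, mem_Icc] at hp
        rw [mem_union]
        by_cases hpz : p ≤ z
        · left; rw [mem_filter, mem_Icc]; exact ⟨⟨hp.1.1, hpz⟩, hp.2⟩
        · right; unfold Pr; rw [mem_filter, mem_Icc]; exact ⟨⟨by omega, hp.1.2⟩, hp.2⟩
      have hdisj : Disjoint ((Icc 1 z).filter Nat.Prime) (Pr z w) := by
        rw [disjoint_left]
        intro p hp hp'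
        rw [mem_filter, mem_Icc] at hp
        have := (mem_Pr hp').2.1
        omega
      calc ∑ p ∈ (Icc 1 w).filter Nat.Prime, (1 : ℝ) / p
          ≤ ∑ p ∈ ((Icc 1 z).filter Nat.Prime) ∪ Pr z w, (1 : ℝ) / p :=
            sum_le_sum_of_subset_of_nonneg hsub (fun p _ _ => by positivity)
        _ = _ := by rw [sum_union hdisj]
    linarith
  have h5 : ∑ p ∈ Pr z w, 1 / (p : ℝ) ^ 2 ≤ Z2 := hsum.sum_le_tsum _ (fun n _ => by positivity)
  have h6 := mul_le_mul_of_nonneg_left h2 hβ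
  have h7 := mul_le_mul_of_nonneg_left h5 (show 0 ≤ β * C + β ^ 2 by positivity)
  linarith

end Eul

open Eul in
open Pool.Agent.TH344.MT.Eul (mem_Pr prod_compare) in
theorem eulj : S_EULJ := by
  classical
  intro β C z hβ hC hz
  obtain ⟨D', hD'⟩ := Pool.Agent.Helper256.KM.mertens_log
  set D : ℝ := max D' 0 with hDdef
  have hD0 : 0 ≤ D := le_max_right _ _
  have hD : ∀ w : ℕ, 1 ≤ w → ∑ p ∈ (Icc 1 w).filter Nat.Prime, Real.log p / p ≤ Real.log w + D := by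
    intro w hw
    have := (abs_le.mp (hD' w hw)).2
    have := le_max_left D' 0
    linarith
  obtain ⟨c, hc0, hc⟩ := euler_ge β C hβ hC z hz
  set M : ℝ := Real.exp (2 * β * (1 + D / Real.log 2)) with hM
  have hM0 : 0 < M := Real.exp_pos _
  obtain ⟨L, hL⟩ := exists_nat_ge (max 1 (Real.log (2 * M)))
  have hL1 : (1 : ℝ) ≤ L := le_trans (le_max_left _ _) hL
  have hL2 : Real.log (2 * M) ≤ L := le_trans (le_max_right _ _) hL
  have hLM : Real.exp (-(L : ℝ)) * M ≤ 1 / 2 := by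
    have h1 : 2 * M ≤ Real.exp L := (Real.log_le_iff_le_exp (by positivity)).mp hL2
    rw [Real.exp_neg, inv_mul_le_iff₀ (Real.exp_pos _)]
    linarith
  refine ⟨L, 3, c / 2, by exact_mod_cast hL1, by norm_num, by positivity, ?_⟩
  intro w hw
  have hw2 : 2 ≤ w := by omega
  have hw3 : (3 : ℝ) ≤ w := by exact_mod_cast hw
  have hlw : 0 < Real.log w := Real.log_pos (by linarith)
  set s : ℝ := 1 / Real.log w with hs
  have hs0 : 0 < s := by positivity
  set x : ℕ → ℝ := fun p => max 0 (β / (p : ℝ) * (1 - C / p)) with hx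
  have hxeq : ∀ p ∈ Pr z w, x p = β / (p : ℝ) * (1 - C / p) := by
    intro p hp
    obtain ⟨hp1, hp2, hp3⟩ := mem_Pr hp
    have hp0 : (0 : ℝ) < p := by exact_mod_cast hp1.pos
    have hzp : (z : ℝ) ≤ p := by exact_mod_cast hp2.le
    have hCp : C / p ≤ 1 := (div_le_one hp0).2 (hz.trans hzp)
    exact max_eq_right (mul_nonneg (by positivity) (by linarith))
  have hx0 : ∀ p, 0 ≤ x p := fun p => le_max_left _ _
  have hxg : ∀ p : ℕ, x p ≤ β / p := by
    intro p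
    apply max_le (by positivity)
    have h1 : (0 : ℝ) ≤ β / p := by positivity
    have h2 : (0 : ℝ) ≤ C / p := by positivity
    nlinarith
  have hmain := sum_small_ge (z := z) (L := L) hw2 hs0 x (fun p _ => hx0 p)
  have hML := hD w (by omega)
  have hF := hc w hw
  set E : ℝ := ∏ p ∈ Pr z w, (1 + x p) with hE
  have hFE : c * Real.log w ^ β ≤ E := by
    rw [hE]
    refine hF.trans (le_of_eq (prod_congr rfl fun p hp => by rw [hxeq p hp]))
  have b1 : ∏ p ∈ Pr z w, (1 + (p : ℝ) ^ s * x p) ≤ E * M :=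
    prod_compare hw2 hβ hD0 hML x x hx0 hx0 hxg _ (fun p _ => by ring)
  have hwL : ((w : ℝ) ^ L) ^ (-s) = Real.exp (-(L : ℝ)) := by
    rw [Real.rpow_def_of_pos (by positivity), Real.log_pow, hs]
    congr 1
    field_simp
  rw [hwL] at hmain
  have hE0 : 0 ≤ E := prod_nonneg (fun p _ => by have := hx0 p; linarith)
  have hexpL : 0 < Real.exp (-(L : ℝ)) := Real.exp_pos _
  have h7 : Real.exp (-(L : ℝ)) * (∏ p ∈ Pr z w, (1 + (p : ℝ) ^ s * x p)) ≤ E / 2 := by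
    calc _ ≤ Real.exp (-(L : ℝ)) * (E * M) := mul_le_mul_of_nonneg_left b1 hexpL.le
      _ = E * (Real.exp (-(L : ℝ)) * M) := by ring
      _ ≤ E * (1 / 2) := mul_le_mul_of_nonneg_left hLM hE0
      _ = E / 2 := by ring
  have h8 : E / 2 ≤ ∑ S ∈ (Pr z w).powerset.filter (fun S => ∏ p ∈ S, p ≤ w ^ L), ∏ p ∈ S, x p := by
    linarith
  have h9 : ∑ S ∈ (Pr z w).powerset.filter (fun S => ∏ p ∈ S, p ≤ w ^ L), ∏ p ∈ S, x p =
      ∑ S ∈ (Pr z w).powerset.filter (fun S => ∏ p ∈ S, p ≤ w ^ L),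
        ∏ p ∈ S, (β / (p : ℝ) * (1 - C / p)) := by
    refine sum_congr rfl fun S hS => prod_congr rfl fun p hp => ?_
    rw [mem_filter, mem_powerset] at hS
    exact hxeq p (hS.1 hp)
  rw [h9] at h8
  calc c / 2 * Real.log w ^ β = (c * Real.log w ^ β) / 2 := by ring
    _ ≤ E / 2 := by linarith
    _ ≤ _ := by
      convert h8 using 2

end Pool.Agent.TH344.JT
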