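import Mathlib
import Pool.Agent.TH344.JT.Stm

/-!
# JT-LOCG: the elements of the Selmer group (written by helper713)
-/

set_option autoImplicit false

namespace Pool.Agent.TH344.JT

open Finset Polynomial Pool.Agent.TH344.JG

namespace LocgX

section padic

variable {p : ℕ} [hp : Fact p.Prime]

/-- Hensel: `1 + r` is a square if `‖r‖ < ‖4‖` -/
theorem isSquare_one_add (r : ℚ_[p]) (hr : ‖r‖ < ‖(4 : ℚ_[p])‖) : IsSquare (1 + r) := by
  have h4 : ‖(4 : ℚ_[p])‖ ≤ 1 := by
    have := Padic.norm_int_le_one (p := p) 4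
    exact_mod_cast this
  let r' : ℤ_[p] := ⟨r, (hr.trans_le h4).le⟩
  let F : Polynomial ℤ_[p] := Polynomial.X ^ 2 - Polynomial.C (1 + r')
  have h1 : F.aeval (1 : ℤ_[p]) = -r' := by
    simp [F]
  have h2 : F.derivative.aeval (1 : ℤ_[p]) = 2 := by
    simp [F, one_add_one_eq_two]
  have h3 : ‖(2 : ℤ_[p])‖ ^ 2 = ‖(4 : ℚ_[p])‖ := by
    have e : (((2 : ℤ_[p]) ^ 2 : ℤ_[p]) : ℚ_[p]) = 4 := by
      rw [PadicInt.coe_pow]
      have : ((2 : ℤ_[p]) : ℚ_[p]) = 2 := by
        have := PadicInt.coe_natCast (p := p) 2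
        exact_mod_cast this
      rw [this]; norm_num
    rw [← norm_pow, PadicInt.norm_def, e]
  obtain ⟨z, hz, -⟩ := hensels_lemma (p := p) (R := ℤ_[p]) (F := F) (a := 1) (by
    rw [h1, h2, h3, norm_neg]
    exact hr)
  have h8 : z ^ 2 = 1 + r' := by
    have : F.aeval z = z ^ 2 - (1 + r') := by simp [F]
    rw [this] at hz
    exact sub_eq_zero.1 hz
  refine ⟨(z : ℚ_[p]), ?_⟩
  have h9 := congrArg (fun w : ℤ_[p] => (w : ℚ_[p])) h8
  simp only [PadicInt.coe_pow, PadicInt.coe_add, PadicInt.coe_one] at h9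
  rw [← pow_two, h9]

theorem norm_four (hp2 : p ≠ 2) : ‖(4 : ℚ_[p])‖ = 1 := by
  have h1 : ¬ ‖((4 : ℤ) : ℚ_[p])‖ < 1 := by
    rw [Padic.norm_intCast_lt_one_iff]
    intro h
    have h5 : p ∣ 2 ^ 2 := by exact_mod_cast h
    exact hp2 ((Nat.prime_dvd_prime_iff_eq hp.out Nat.prime_two).1 (hp.out.dvd_of_dvd_pow h5))
  have h2 := Padic.norm_int_le_one (p := p) 4
  have h3 := le_antisymm h2 (not_lt.1 h1)
  exact_mod_cast h3

/-- integers that are nonzero squares modulo the odd prime `p` are squares in `ℚ_p` -/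
theorem sq_of_zmod (hp2 : p ≠ 2) {n : ℤ} (hn : ¬ (p : ℤ) ∣ n)
    (h : IsSquare ((n : ℤ) : ZMod p)) : IsSquare ((n : ℤ) : ℚ_[p]) := by
  obtain ⟨r, hr⟩ := h
  obtain ⟨m, rfl⟩ := ZMod.intCast_surjective r
  have h1 : (p : ℤ) ∣ n - m ^ 2 := by
    rw [← ZMod.intCast_zmod_eq_zero_iff_dvd]
    push_cast
    rw [hr]; ring
  have hm : ¬ (p : ℤ) ∣ m := by
    intro hm
    apply hn
    have : n = (n - m ^ 2) + m ^ 2 := by ring
    rw [this]
    exact dvd_add h1 (dvd_pow hm two_ne_zero)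
  have hm1 : ‖(m : ℚ_[p])‖ = 1 := by
    have h1 : ¬ ‖((m : ℤ) : ℚ_[p])‖ < 1 := by rwa [Padic.norm_intCast_lt_one_iff]
    exact le_antisymm (Padic.norm_int_le_one m) (not_lt.1 h1)
  have hm0 : (m : ℚ_[p]) ≠ 0 := by
    intro h0; rw [h0, norm_zero] at hm1; norm_num at hm1
  have h2 : ‖((n : ℤ) : ℚ_[p]) - (m : ℚ_[p]) ^ 2‖ < 1 := by
    have : ((n : ℤ) : ℚ_[p]) - (m : ℚ_[p]) ^ 2 = ((n - m ^ 2 : ℤ) : ℚ_[p]) := by push_cast; ring
    rw [this, Padic.norm_intCast_lt_one_iff]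
    exact h1
  have hr : ‖(((n : ℤ) : ℚ_[p]) - (m : ℚ_[p]) ^ 2) / (m : ℚ_[p]) ^ 2‖ < ‖(4 : ℚ_[p])‖ := by
    rw [norm_four hp2, norm_div, norm_pow, hm1, one_pow, div_one]
    exact h2
  obtain ⟨s, hs⟩ := isSquare_one_add _ hr
  refine ⟨m * s, ?_⟩
  have : ((n : ℤ) : ℚ_[p]) = (m : ℚ_[p]) ^ 2 *
      (1 + (((n : ℤ) : ℚ_[p]) - (m : ℚ_[p]) ^ 2) / (m : ℚ_[p]) ^ 2) := by
    field_simp; ring
  rw [this, hs]; ring

end padic

/-- integers `≡ 1` modulo `8` are squares in `ℚ_2` -/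
theorem sq_two [Fact (Nat.Prime 2)] {n : ℤ} (hn : n % 8 = 1) : IsSquare ((n : ℤ) : ℚ_[2]) := by
  have h1 : ((2 : ℕ) ^ 3 : ℤ) ∣ n - 1 := by
    norm_num
    omega
  have h2 : ‖((n - 1 : ℤ) : ℚ_[2])‖ ≤ ((2 : ℕ) : ℝ) ^ (-(3 : ℕ) : ℤ) :=
    (Padic.norm_int_le_pow_iff_dvd _ _).2 h1
  have h3 : ‖(4 : ℚ_[2])‖ = 1 / 4 := by
    have e : (4 : ℚ_[2]) = ((2 : ℕ) : ℚ_[2]) ^ 2 := by norm_num
    rw [e, norm_pow, Padic.norm_p]
    norm_num
  have h4 : ‖((n - 1 : ℤ) : ℚ_[2])‖ < ‖(4 : ℚ_[2])‖ := by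
    rw [h3]
    refine h2.trans_lt ?_
    norm_num
  have h5 := isSquare_one_add _ h4
  have h6 : (1 : ℚ_[2]) + ((n - 1 : ℤ) : ℚ_[2]) = ((n : ℤ) : ℚ_[2]) := by
    push_cast; ring
  rwa [h6] at h5

/-- `LocJ` at a place where all the `d i` are squares -/
theorem locJ_of_sq {K : Type} [Field K] {n : ℕ} (a d : Fin n → ℤ)
    (h : ∀ i, IsSquare ((d i : ℤ) : K)) : LocJ K a d := by
  refine ⟨1, 0, Polynomial.monic_one, one_dvd _, fun i => ?_⟩
  simp only [Polynomial.eval_one, Polynomial.natDegree_one, pow_zero, one_mul]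
  exact ⟨one_ne_zero, h i⟩

theorem prod_half {M : Type} [CommMonoid M] (G : ℕ → M) (g : ℕ) :
    ∏ n ∈ range (2 * g), G (n / 2) = ∏ j ∈ range g, (G j * G j) := by
  induction g with
  | zero => simp
  | succ g ih =>
    rw [show 2 * (g + 1) = 2 * g + 1 + 1 by ring, Finset.prod_range_succ, Finset.prod_range_succ,
      ih, Finset.prod_range_succ]
    have e1 : 2 * g / 2 = g := by omega
    have e2 : (2 * g + 1) / 2 = g := by omega
    rw [e1, e2, mul_assoc]

/-- the product over the classes -/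
theorem prod_cl {M : Type} [CommMonoid M] {g : ℕ} (F : Fin (g + 1) → M) :
    ∏ i : Fin (2 * g + 1), F (cl i) =
      (∏ j : Fin g, F j.castSucc) * (∏ j : Fin g, F j.castSucc) * F (Fin.last g) := by
  set G : ℕ → M := fun k => if h : k < g + 1 then F ⟨k, h⟩ else 1 with hG
  have h1 : ∀ i : Fin (2 * g + 1), F (cl i) = G ((i : ℕ) / 2) := by
    intro i
    rw [hG]
    dsimp only
    rw [dif_pos (by omega)]
    rfl
  have h2 : ∀ j : Fin g, F j.castSucc = G (j : ℕ) := by
    intro j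
    rw [hG]
    dsimp only
    rw [dif_pos (by omega)]
    rfl
  have h3 : F (Fin.last g) = G g := by
    rw [hG]
    dsimp only
    rw [dif_pos (by omega)]
    rfl
  rw [Finset.prod_congr rfl (fun i _ => h1 i), Finset.prod_congr rfl (fun j _ => h2 j), h3,
    Fin.prod_univ_eq_prod_range (fun n => G (n / 2)) (2 * g + 1),
    Fin.prod_univ_eq_prod_range G g, Finset.prod_range_succ, prod_half, Finset.prod_mul_distrib]
  have e1 : 2 * g / 2 = g := by omega
  rw [e1]

theorem cl_fs {g : ℕ} (j : Fin g) : cl (fs j) = j.castSucc := by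
  apply Fin.ext
  simp only [cl, fs, Fin.val_castSucc]
  omega

theorem cl_sn {g : ℕ} (j : Fin g) : cl (sn j) = j.castSucc := by
  apply Fin.ext
  simp only [cl, sn, Fin.val_castSucc]
  omega

theorem eq_of_cl {g : ℕ} (j : Fin g) (m : Fin (2 * g + 1)) (h : cl m = j.castSucc) :
    m = fs j ∨ m = sn j := by
  have h1 : (m : ℕ) / 2 = j := by
    have := congrArg Fin.val h
    simpa [cl] using this
  have h2 : (m : ℕ) = 2 * j ∨ (m : ℕ) = 2 * j + 1 := by omega
  rcases h2 with h2 | h2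
  · left; apply Fin.ext; exact h2
  · right; apply Fin.ext; exact h2

theorem cast_isSquare {p : ℕ} {n : ℤ} (h : IsSquare n) : IsSquare ((n : ℤ) : ZMod p) := by
  obtain ⟨r, rfl⟩ := h
  exact ⟨(r : ZMod p), by push_cast; ring⟩

end LocgX

open LocgX

theorem locg_of (h1 : S_LOCU) (h2 : S_LOCR) : S_LOCG := by
  intro g _
  obtain ⟨Z1, hZ1⟩ := h1 (2 * g + 1)
  obtain ⟨Z2, hZ2⟩ := h2 (2 * g + 1)
  refine ⟨max Z1 Z2, fun a b hb hl hs hu hr => ?_⟩
  refine ⟨fun i => (hb (cl i)).2.1, locJ_of_sq a _ fun i => ?_, fun p hp => ?_⟩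
  · rw [Real.isSquare_iff]
    exact_mod_cast (hb (cl i)).1.le
  rcases eq_or_ne p 2 with rfl | hp2
  · exact locJ_of_sq a _ fun i => sq_two (hb (cl i)).2.2
  rcases le_or_gt p (max Z1 Z2) with hpZ | hpZ
  · refine locJ_of_sq a _ fun i => ?_
    obtain ⟨k1, k2⟩ := hs p hp.out hp2 hpZ (cl i)
    exact sq_of_zmod hp2 k1 k2
  have hpp : Prime (p : ℤ) := Nat.prime_iff_prime_int.1 hp.out
  have hp1 : ¬ (p : ℤ) ∣ 1 := fun h => hpp.not_unit (isUnit_of_dvd_one h)
  by_cases hd : ∃ j, (p : ℤ) ∣ b j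
  · obtain ⟨j', hj'⟩ := hd
    have hj1 : j' ≠ Fin.last g := by
      rintro rfl
      rw [hl] at hj'
      exact hp1 hj'
    obtain ⟨j, rfl⟩ : ∃ j : Fin g, j.castSucc = j' := ⟨j'.castPred hj1, by simp⟩
    obtain ⟨hO, hsq, hres⟩ := hr p hp.out j hj'
    refine hZ2 p ((le_max_right _ _).trans_lt hpZ) a _ (fs j) (sn j) hO hsq hres ?_ ?_ ?_
    · obtain ⟨e, he⟩ := hj'
      refine ⟨e, ?_, ?_, ?_⟩
      · intro h
        have h3 : (p : ℤ) * p ∣ b j.castSucc := by
          rw [he]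
          exact mul_dvd_mul_left _ h
        exact hpp.not_unit ((hb j.castSucc).2.1 _ h3)
      · rw [cl_fs, he]
      · rw [cl_sn, he]
    · intro m hm1 hm2 hm3
      have hm4 : cl m ≠ Fin.last g := by
        intro h
        rw [h, hl] at hm3
        exact hp1 hm3
      obtain ⟨j2, hj2⟩ : ∃ j2 : Fin g, j2.castSucc = cl m := ⟨(cl m).castPred hm4, by simp⟩
      rw [← hj2] at hm3
      obtain ⟨hO2, -, -⟩ := hr p hp.out j2 hm3
      have h4 := hO.2.2 (fs j2) (sn j2) hO2.1 hO2.2.1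
      have h5 : j2 = j := by
        rcases h4 with ⟨h, -⟩ | ⟨h, -⟩
        · have := congrArg Fin.val h
          simp only [fs] at this
          apply Fin.ext
          omega
        · have := congrArg Fin.val h
          simp only [fs, sn] at this
          omega
      rw [h5] at hj2
      rcases eq_of_cl j m hj2.symm with h | h
      · exact hm1 h
      · exact hm2 h
    · apply cast_isSquare
      set F : Fin (g + 1) → ℤ := Function.update b j.castSucc 1 with hF
      have h6 : ∏ m ∈ (univ.erase (fs j)).erase (sn j), b (cl m) =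
          ∏ m : Fin (2 * g + 1), F (cl m) := by
        have hsub : (univ.erase (fs j)).erase (sn j) ⊆ (univ : Finset (Fin (2 * g + 1))) :=
          Finset.subset_univ _
        rw [← Finset.prod_subset hsub]
        · refine Finset.prod_congr rfl fun m hm => ?_
          rw [Finset.mem_erase, Finset.mem_erase] at hm
          rw [hF, Function.update_of_ne]
          intro h
          rcases eq_of_cl j m h with h | h
          · exact hm.2.1 h
          · exact hm.1 h
        · intro m _ hm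
          have h7 : m = fs j ∨ m = sn j := by
            by_contra hcon
            push Not at hcon
            apply hm
            rw [Finset.mem_erase, Finset.mem_erase]
            exact ⟨hcon.2, hcon.1, Finset.mem_univ _⟩
          have h8 : cl m = j.castSucc := by
            rcases h7 with rfl | rfl
            · exact cl_fs j
            · exact cl_sn j
          rw [h8, hF, Function.update_self]
      rw [h6, prod_cl F]
      have h9 : F (Fin.last g) = 1 := by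
        rw [hF, Function.update_of_ne hj1.symm, hl]
      rw [h9, mul_one]
      exact ⟨_, rfl⟩
  · push Not at hd
    refine hZ1 p ((le_max_left _ _).trans_lt hpZ) a _ (fun i => hd _) ?_ ?_
    · apply cast_isSquare
      rw [prod_cl b, hl, mul_one]
      exact ⟨_, rfl⟩
    · intro i l _ hil
      by_cases hc : cl i = cl l
      · rw [hc]
        exact cast_isSquare ⟨_, rfl⟩
      · exact hu p hp.out hpZ i l hil hc

end Pool.Agent.TH344.JT
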