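import Pool.Agent.TH344.JT.Stm
import Pool.Agent.TH344.MT.Loc

/-!
# JT-LOCR: the ramified local condition at a split prime
-/

set_option autoImplicit false

namespace Pool.Agent.TH344.JT

open Finset Polynomial Pool.Agent.TH344.JG

/-- a divisor with two points -/
theorem locj_of_two {K : Type} [Field K] {n : ℕ} (a d : Fin n → ℤ) (x0 x1 r0 r1 : K)
    (hx : x0 ≠ x1) (h0 : ∏ m, (x0 - ((a m : ℤ) : K)) = r0 ^ 2)
    (h1 : ∏ m, (x1 - ((a m : ℤ) : K)) = r1 ^ 2)
    (h : ∀ m, (((a m : ℤ) : K) - x0) * (((a m : ℤ) : K) - x1) ≠ 0 ∧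
      IsSquare ((((a m : ℤ) : K) - x0) * (((a m : ℤ) : K) - x1) * ((d m : ℤ) : K))) :
    LocJ K a d := by
  have hx' : x1 - x0 ≠ 0 := sub_ne_zero.2 hx.symm
  refine ⟨(X - C x0) * (X - C x1), C r0 + C ((r1 - r0) / (x1 - x0)) * (X - C x0),
    (monic_X_sub_C x0).mul (monic_X_sub_C x1), ?_, ?_⟩
  · have hcop : IsCoprime (X - C x0) (X - C x1) :=
      Polynomial.isCoprime_X_sub_C_of_isUnit_sub (sub_ne_zero.2 hx).isUnit
    refine hcop.mul_dvd ?_ ?_
    · rw [dvd_iff_isRoot, IsRoot, eval_sub, eval_prod, eval_pow]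
      simp only [eval_sub, eval_X, eval_C, eval_add, eval_mul, sub_self, mul_zero, add_zero]
      rw [h0, sub_self]
    · rw [dvd_iff_isRoot, IsRoot, eval_sub, eval_prod, eval_pow]
      simp only [eval_sub, eval_X, eval_C, eval_add, eval_mul]
      rw [h1, div_mul_cancel₀ _ hx']
      ring
  · intro m
    have hdeg : ((X - C x0) * (X - C x1) : K[X]).natDegree = 2 := by
      rw [(monic_X_sub_C x0).natDegree_mul (monic_X_sub_C x1), natDegree_X_sub_C,
        natDegree_X_sub_C]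
    rw [hdeg]
    simp only [eval_mul, eval_sub, eval_X, eval_C]
    refine ⟨(h m).1, ?_⟩
    have := (h m).2
    rw [neg_one_sq, one_mul]
    exact this

theorem isSquare_prod' {ι M : Type} [CommMonoid M] (s : Finset ι) (f : ι → M)
    (h : ∀ i ∈ s, IsSquare (f i)) : IsSquare (∏ i ∈ s, f i) := by
  classical
  induction s using Finset.induction_on with
  | empty => simp
  | insert i s hi ih =>
    rw [Finset.prod_insert hi]
    exact (h i (mem_insert_self i s)).mul (ih fun j hj => h j (mem_insert_of_mem hj))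

theorem locr_of (h : S_PTF) : S_LOCR := by
  intro n
  obtain ⟨Z, hZ⟩ := h n
  refine ⟨max Z (max n 3), ?_⟩
  intro p hpf hp a d i l hO hsq hprod hd hdm hdsq
  have hpZ : Z < p := lt_of_le_of_lt (le_max_left _ _) hp
  have hpn : n < p := lt_of_le_of_lt ((le_max_left _ _).trans (le_max_right _ _)) hp
  have hp3 : 3 < p := lt_of_le_of_lt ((le_max_right _ _).trans (le_max_right _ _)) hp
  have hp2 : p ≠ 2 := by omega
  have hpp : Prime (p : ℤ) := Nat.prime_iff_prime_int.1 hpf.out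
  have hz : ∀ z : ℤ, ((z : ℤ) : ZMod p) ≠ 0 ↔ ¬ (p : ℤ) ∣ z := fun z => by
    rw [Ne, ZMod.intCast_zmod_eq_zero_iff_dvd]
  obtain ⟨hil, hpd, honly⟩ := hO
  obtain ⟨e, he, hdi, hdl⟩ := hd
  obtain ⟨δ, hδ⟩ := hpd
  have hδp : ¬ (p : ℤ) ∣ δ := by
    intro hd
    apply hsq
    rw [hδ, pow_two]
    exact mul_dvd_mul_left _ hd
  -- no other congruences
  have hnc : ∀ m m', m ≠ m' → ¬ (m = i ∧ m' = l) → ¬ (m = l ∧ m' = i) →
      ¬ (p : ℤ) ∣ a m - a m' := by
    intro m m' hne h1 h2 hdv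
    rcases honly m m' hne hdv with h3 | h3
    · exact h1 h3
    · exact h2 h3
  have h3p : ((3 : ℤ) : ZMod p) ≠ 0 := by
    rw [hz]
    intro hd
    have h1 : p ∣ 3 := by exact_mod_cast hd
    have := Nat.le_of_dvd (by norm_num) h1
    omega
  have h2p : ((2 : ℤ) : ZMod p) ≠ 0 := by
    rw [hz]
    intro hd
    have h1 : p ∣ 2 := by exact_mod_cast hd
    have := Nat.le_of_dvd (by norm_num) h1
    omega
  -- choice of `t`
  obtain ⟨t, ht⟩ := ZMod.intCast_surjective (((δ : ℤ) : ZMod p) / ((3 : ℤ) : ZMod p))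
  have ht3 : ((δ : ℤ) : ZMod p) = 3 * ((t : ℤ) : ZMod p) := by
    rw [ht]
    push_cast
    push_cast at h3p
    field_simp
  have hδ0 : ((δ : ℤ) : ZMod p) ≠ 0 := (hz δ).2 hδp
  have ht0 : ((t : ℤ) : ZMod p) ≠ 0 := by
    intro h0
    rw [h0, mul_zero] at ht3
    exact hδ0 ht3
  have htδ : (((t + δ : ℤ)) : ZMod p) = (2 : ZMod p) ^ 2 * ((t : ℤ) : ZMod p) := by
    push_cast
    rw [ht3]
    ring
  have h2p' : (2 : ZMod p) ≠ 0 := by exact_mod_cast h2p
  have htδ0 : (((t + δ : ℤ)) : ZMod p) ≠ 0 := by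
    rw [htδ]
    exact mul_ne_zero (pow_ne_zero _ h2p') ht0
  -- the first point
  set x0 : ℤ := a i + p * t with hx0
  have ex0 : ((x0 : ℤ) : ZMod p) = ((a i : ℤ) : ZMod p) := by
    rw [hx0]; push_cast; simp
  -- the second point
  obtain ⟨c, hc⟩ : ∃ c : ZMod p, ∀ m, c ≠ ((a m : ℤ) : ZMod p) := by
    classical
    by_contra hno
    push Not at hno
    have hsurj : Function.Surjective (fun m : Fin n => ((a m : ℤ) : ZMod p)) := by
      intro c
      obtain ⟨m, hm⟩ := hno c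
      exact ⟨m, hm.symm⟩
    have := Fintype.card_le_of_surjective _ hsurj
    rw [ZMod.card, Fintype.card_fin] at this
    omega
  classical
  have hb : Function.Injective (fun m : Fin n => if m = l then c else ((a m : ℤ) : ZMod p)) := by
    intro m m' hmm
    simp only at hmm
    by_contra hne
    split_ifs at hmm with h1 h2 h2
    · exact hne (h1.trans h2.symm)
    · exact hc m' hmm
    · exact hc m hmm.symm
    · have h3 : (((a m - a m' : ℤ)) : ZMod p) = 0 := by
        push_cast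
        rw [hmm, sub_self]
      rw [ZMod.intCast_zmod_eq_zero_iff_dvd] at h3
      exact hnc m m' hne (fun h => h2 h.2) (fun h => h1 h.1) h3
  obtain ⟨y, hy⟩ := hZ p hpZ (fun m : Fin n => if m = l then c else ((a m : ℤ) : ZMod p))
    (fun m : Fin n => if m = l then 1 else if m = i then ((t * e : ℤ) : ZMod p) else
      (((a i - a m) * d m : ℤ) : ZMod p)) hb (by
      intro m
      split_ifs with h1 h2
      · exact one_ne_zero
      · rw [Int.cast_mul]
        exact mul_ne_zero ht0 ((hz e).2 he)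
      · rw [Int.cast_mul]
        exact mul_ne_zero ((hz _).2 (hnc i m (Ne.symm h2) (fun h => h1 h.2) (fun h => hil h.1)))
          ((hz _).2 (hdm m h2 h1)))
  obtain ⟨x1, rfl⟩ := ZMod.intCast_surjective y
  have hyi := hy i
  simp only [if_neg hil, if_true] at hyi
  have hym : ∀ m, m ≠ i → m ≠ l → ((x1 : ℤ) : ZMod p) ≠ ((a m : ℤ) : ZMod p) ∧
      IsSquare ((((x1 : ℤ) : ZMod p) - ((a m : ℤ) : ZMod p)) * (((a i - a m) * d m : ℤ) : ZMod p)) := by
    intro m h1 h2
    have := hy m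
    simp only [if_neg h1, if_neg h2] at this
    exact this
  -- congruences
  have hail : ((a i : ℤ) : ZMod p) = ((a l : ℤ) : ZMod p) := by
    have h1 : (((a i - a l : ℤ)) : ZMod p) = 0 := by
      rw [hδ]; push_cast; simp
    push_cast at h1
    exact sub_eq_zero.1 h1
  have hx1i : (((x1 - a i : ℤ)) : ZMod p) ≠ 0 := by
    push_cast
    exact sub_ne_zero.2 hyi.1
  have hx1l : (((x1 - a l : ℤ)) : ZMod p) = (((x1 - a i : ℤ)) : ZMod p) := by
    push_cast
    rw [hail]
  -- from integers to p-adic numbers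
  have SQ : ∀ z : ℤ, ((z : ℤ) : ZMod p) ≠ 0 → IsSquare ((z : ℤ) : ZMod p) →
      IsSquare ((z : ℤ) : ℚ_[p]) ∧ ((z : ℤ) : ℚ_[p]) ≠ 0 := fun z h1 h2 =>
    Pool.Agent.TH344.MT.LocX.sq_of_zmod hp2 ((hz z).1 h1) h2
  have hp0 : (p : ℚ_[p]) ≠ 0 := by exact_mod_cast hpf.out.ne_zero
  set R : Finset (Fin n) := (univ.erase i).erase l with hR
  have hmR : ∀ m, m ∈ R ↔ m ≠ i ∧ m ≠ l := by
    intro m
    rw [hR, mem_erase, mem_erase]
    simp only [mem_univ, and_true]
    tauto
  have split : ∀ {M : Type} [CommMonoid M] (g : Fin n → M),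
      ∏ m, g m = g i * (g l * ∏ m ∈ R, g m) := by
    intro M _ g
    rw [hR, mul_prod_erase _ _ (mem_erase.2 ⟨hil.symm, mem_univ l⟩),
      mul_prod_erase _ _ (mem_univ i)]
  -- value at the first point
  have hai : ∀ m ∈ R, (((a i - a m : ℤ)) : ZMod p) ≠ 0 := by
    intro m hm
    rw [hmR] at hm
    exact (hz _).2 (hnc i m (Ne.symm hm.1) (fun h => hm.2 h.2) (fun h => hil h.1))
  have hf0 : IsSquare (∏ m, (((x0 : ℤ) : ℚ_[p]) - ((a m : ℤ) : ℚ_[p]))) := by
    have h1 := SQ (t * (t + δ) * ∏ m ∈ R, (x0 - a m)) ?_ ?_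
    · obtain ⟨⟨w, hw⟩, -⟩ := h1
      refine ⟨p * w, ?_⟩
      rw [split]
      have e1 : ((x0 : ℤ) : ℚ_[p]) - ((a i : ℤ) : ℚ_[p]) = p * t := by
        rw [hx0]; push_cast; ring
      have e2 : ((x0 : ℤ) : ℚ_[p]) - ((a l : ℤ) : ℚ_[p]) = p * (t + δ) := by
        have h2 : ((a i : ℤ) : ℚ_[p]) - ((a l : ℤ) : ℚ_[p]) = p * δ := by
          exact_mod_cast congrArg (fun z : ℤ => (z : ℚ_[p])) hδ
        rw [hx0]; push_cast
        linear_combination h2
      rw [e1, e2]
      push_cast at hw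
      have e3 : ((x0 : ℤ) : ℚ_[p]) = (a i : ℚ_[p]) + p * t := by rw [hx0]; push_cast; ring
      linear_combination (p : ℚ_[p]) ^ 2 * hw
    · rw [Int.cast_mul, Int.cast_mul, Int.cast_prod]
      refine mul_ne_zero (mul_ne_zero ht0 htδ0) (prod_ne_zero_iff.2 fun m hm => ?_)
      have := hai m hm
      push_cast at this ⊢
      rwa [ex0]
    · rw [Int.cast_mul, Int.cast_mul, htδ, Int.cast_prod]
      refine IsSquare.mul ⟨2 * ((t : ℤ) : ZMod p), by ring⟩ ?_
      have h2 : ∏ m ∈ R, (((x0 - a m : ℤ)) : ZMod p) =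
          (((∏ m ∈ R, (a i - a m) : ℤ)) : ZMod p) := by
        rw [Int.cast_prod]
        refine prod_congr rfl fun m _ => ?_
        push_cast
        rw [ex0]
      rw [h2]
      exact hprod
  -- value at the second point
  have hf1 : IsSquare (∏ m, (((x1 : ℤ) : ℚ_[p]) - ((a m : ℤ) : ℚ_[p]))) := by
    have h1 := SQ (∏ m, (x1 - a m)) ?_ ?_
    · have h2 := h1.1
      rw [Int.cast_prod] at h2
      refine (congrArg IsSquare (prod_congr rfl fun m _ => ?_)).mp h2
      push_cast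
      rfl
    · rw [Int.cast_prod]
      refine prod_ne_zero_iff.2 fun m _ => ?_
      by_cases h1 : m = i
      · rw [h1]; exact hx1i
      by_cases h2 : m = l
      · rw [h2, hx1l]; exact hx1i
      have := (hym m h1 h2).1
      push_cast
      exact sub_ne_zero.2 this
    · rw [Int.cast_prod, split, hx1l]
      rw [← mul_assoc]
      refine IsSquare.mul ⟨_, rfl⟩ ?_
      -- the product over R
      have h3 : IsSquare (∏ m ∈ R, ((((x1 : ℤ) : ZMod p) - ((a m : ℤ) : ZMod p)) *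
          (((a i - a m) * d m : ℤ) : ZMod p))) :=
        isSquare_prod' _ _ fun m hm => (hym m ((hmR m).1 hm).1 ((hmR m).1 hm).2).2
      have h4 : ∏ m ∈ R, ((((x1 : ℤ) : ZMod p) - ((a m : ℤ) : ZMod p)) *
          (((a i - a m) * d m : ℤ) : ZMod p)) = (∏ m ∈ R, (((x1 - a m : ℤ)) : ZMod p)) *
          ((((∏ m ∈ R, (a i - a m) : ℤ)) : ZMod p) * (((∏ m ∈ R, d m : ℤ)) : ZMod p)) := by
        rw [Int.cast_prod, Int.cast_prod, ← prod_mul_distrib, ← prod_mul_distrib]
        refine prod_congr rfl fun m _ => ?_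
        push_cast
        ring
      rw [h4] at h3
      have h5 : IsSquare ((((∏ m ∈ R, (a i - a m) : ℤ)) : ZMod p) *
          (((∏ m ∈ R, d m : ℤ)) : ZMod p)) := hprod.mul hdsq
      have h6 : (((∏ m ∈ R, (a i - a m) : ℤ)) : ZMod p) * (((∏ m ∈ R, d m : ℤ)) : ZMod p) ≠ 0 := by
        rw [Int.cast_prod, Int.cast_prod]
        refine mul_ne_zero (prod_ne_zero_iff.2 hai) (prod_ne_zero_iff.2 fun m hm => ?_)
        exact (hz _).2 (hdm m ((hmR m).1 hm).1 ((hmR m).1 hm).2)
      have h7 := h3.div h5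
      rwa [mul_div_cancel_right₀ _ h6] at h7
  obtain ⟨r0, hr0⟩ := hf0
  obtain ⟨r1, hr1⟩ := hf1
  have hx01 : ((x0 : ℤ) : ℚ_[p]) ≠ ((x1 : ℤ) : ℚ_[p]) := by
    intro h0
    have h1 : x0 = x1 := by exact_mod_cast h0
    apply hx1i
    rw [← h1]
    push_cast
    rw [ex0, sub_self]
  refine locj_of_two a d x0 x1 r0 r1 hx01 (by rw [hr0]; ring) (by rw [hr1]; ring) fun m => ?_
  -- the values of `u`
  by_cases h1 : m = i
  · subst h1
    have h2 := SQ (t * e * (x1 - a m)) (by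
      rw [Int.cast_mul, Int.cast_mul]
      exact mul_ne_zero (mul_ne_zero ht0 ((hz e).2 he)) hx1i) (by
      have := hyi.2
      rw [Int.cast_mul, mul_comm]
      push_cast
      push_cast at this
      exact this)
    obtain ⟨⟨w, hw⟩, hw0⟩ := h2
    have hw0' : (t : ℚ_[p]) * e * (x1 - a m) ≠ 0 := by exact_mod_cast hw0
    have e1 : ((a m : ℤ) : ℚ_[p]) - ((x0 : ℤ) : ℚ_[p]) = -(p * t) := by
      rw [hx0]; push_cast; ring
    rw [e1, hdi]
    constructor
    · refine mul_ne_zero (neg_ne_zero.2 (mul_ne_zero hp0 ?_)) ?_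
      · intro h0
        exact hw0' (by rw [h0]; ring)
      · intro h0
        exact hw0' (by linear_combination (-(t : ℚ_[p]) * e) * h0)
    · refine ⟨p * w, ?_⟩
      push_cast at hw ⊢
      linear_combination (p : ℚ_[p]) ^ 2 * hw
  by_cases h2 : m = l
  · subst h2
    have h3 := SQ ((t + δ) * e * (x1 - a m)) (by
      rw [Int.cast_mul, Int.cast_mul, hx1l]
      exact mul_ne_zero (mul_ne_zero htδ0 ((hz e).2 he)) hx1i) (by
      have h4 := hyi.2
      rw [Int.cast_mul, Int.cast_mul, hx1l, htδ]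
      have h5 : (2 : ZMod p) ^ 2 * ((t : ℤ) : ZMod p) * ((e : ℤ) : ZMod p) *
          (((x1 - a i : ℤ)) : ZMod p) = (2 * 2) * ((((x1 : ℤ) : ZMod p) - ((a i : ℤ) : ZMod p)) *
            ((t * e : ℤ) : ZMod p)) := by
        push_cast
        ring
      rw [h5]
      exact IsSquare.mul ⟨2, rfl⟩ h4)
    obtain ⟨⟨w, hw⟩, hw0⟩ := h3
    have hw0' : ((t : ℚ_[p]) + δ) * e * (x1 - a m) ≠ 0 := by exact_mod_cast hw0
    have e1 : ((a m : ℤ) : ℚ_[p]) - ((x0 : ℤ) : ℚ_[p]) = -(p * (t + δ)) := by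
      have h2 : ((a i : ℤ) : ℚ_[p]) - ((a m : ℤ) : ℚ_[p]) = p * δ := by
        exact_mod_cast congrArg (fun z : ℤ => (z : ℚ_[p])) hδ
      rw [hx0]; push_cast
      linear_combination -h2
    rw [e1, hdl]
    constructor
    · refine mul_ne_zero (neg_ne_zero.2 (mul_ne_zero hp0 ?_)) ?_
      · intro h0
        exact hw0' (by rw [h0]; ring)
      · intro h0
        exact hw0' (by linear_combination (-((t : ℚ_[p]) + δ) * e) * h0)
    · refine ⟨p * w, ?_⟩
      push_cast at hw ⊢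
      linear_combination (p : ℚ_[p]) ^ 2 * hw
  · have h3 := hym m h1 h2
    have h4 := hnc i m (Ne.symm h1) (fun h => h2 h.2) (fun h => hil h.1)
    have h5 := SQ ((x0 - a m) * (x1 - a m) * d m) (by
      rw [Int.cast_mul, Int.cast_mul]
      refine mul_ne_zero (mul_ne_zero ?_ ?_) ((hz _).2 (hdm m h1 h2))
      · have := (hz _).2 h4
        push_cast at this ⊢
        rwa [ex0]
      · push_cast
        exact sub_ne_zero.2 h3.1) (by
      have h6 := h3.2
      have h7 : ((((x0 - a m) * (x1 - a m) * d m : ℤ)) : ZMod p) =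
          ((((x1 : ℤ) : ZMod p) - ((a m : ℤ) : ZMod p)) * (((a i - a m) * d m : ℤ) : ZMod p)) := by
        push_cast
        rw [ex0]
        ring
      rw [h7]
      exact h6)
    obtain ⟨⟨w, hw⟩, hw0⟩ := h5
    have hw0' : ((x0 : ℚ_[p]) - a m) * (x1 - a m) * d m ≠ 0 := by exact_mod_cast hw0
    constructor
    · intro h0
      apply hw0'
      linear_combination ((d m : ℤ) : ℚ_[p]) * h0
    · refine ⟨w, ?_⟩
      push_cast at hw ⊢
      linear_combination hw

end Pool.Agent.TH344.JT
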