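import Mathlib
import Pool.Agent.TH344.JT.Stm
import Pool.Agent.TH344.MT.Loc

/-!
# JT-LOCU: the unramified local condition (helper740)
-/

set_option autoImplicit false

namespace Pool.Agent.TH344.JT

open Finset Polynomial

namespace Locu

/-- the version of `S_PTF` with repeated residues -/
lemma exists_x (h : S_PTF) (n : ℕ) : ∃ Z : ℕ, ∀ (p : ℕ) [Fact p.Prime], Z < p →
    ∀ b e : Fin n → ZMod p, (∀ i, e i ≠ 0) →
      (∀ i l, i ≠ l → b i = b l → IsSquare (e i * e l)) →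
      ∃ x : ZMod p, ∀ i, x ≠ b i ∧ IsSquare ((x - b i) * e i) := by
  classical
  choose Z hZ using h
  refine ⟨∑ m ∈ range (n + 1), Z m, fun p _ hp b e he hbe => ?_⟩
  let S : Finset (ZMod p) := univ.image b
  have hSn : S.card ≤ n := by
    have := Finset.card_image_le (s := (univ : Finset (Fin n))) (f := b)
    rwa [Finset.card_univ, Fintype.card_fin] at this
  have hZS : Z S.card < p := by
    refine lt_of_le_of_lt ?_ hp
    exact Finset.single_le_sum (f := Z) (fun _ _ => Nat.zero_le _)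
      (Finset.mem_range.2 (by omega))
  let eq := S.equivFin
  have hrep : ∀ s : S, ∃ i, b i = s.1 := by
    intro s
    obtain ⟨i, -, hi⟩ := Finset.mem_image.1 s.2
    exact ⟨i, hi⟩
  choose rep hrep using hrep
  obtain ⟨x, hx⟩ := hZ S.card p hZS (fun k => (eq.symm k).1) (fun k => e (rep (eq.symm k)))
    (fun k l hkl => eq.symm.injective (Subtype.ext hkl)) (fun k => he _)
  refine ⟨x, fun i => ?_⟩
  obtain ⟨s, hs⟩ : ∃ s : S, s.1 = b i := ⟨⟨b i, Finset.mem_image_of_mem b (mem_univ i)⟩, rfl⟩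
  obtain ⟨h1, h2⟩ := hx (eq s)
  simp only [Equiv.symm_apply_apply] at h1 h2
  rw [hs] at h1 h2
  refine ⟨h1, ?_⟩
  by_cases hi : i = rep s
  · rw [← hi] at h2
    exact h2
  · have h3 := hbe i (rep s) hi (by rw [hrep s, hs])
    have h4 := h2.mul h3
    have h5 : (x - b i) * e i = (x - b i) * e (rep s) * (e i * e (rep s)) /
        (e (rep s) * e (rep s)) := by
      have := he (rep s)
      field_simp
    rw [h5]
    exact h4.div ⟨e (rep s), rfl⟩

end Locu

theorem locu_of (h : S_PTF) : S_LOCU := by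
  intro n
  obtain ⟨Z, hZ⟩ := Locu.exists_x h n
  refine ⟨Z + 2, fun p _ hp a d hd hprod hcong => ?_⟩
  have hp2 : p ≠ 2 := by omega
  have hcast : ∀ z : ℤ, ((z : ℤ) : ZMod p) ≠ 0 ↔ ¬ (p : ℤ) ∣ z := fun z =>
    not_congr (ZMod.intCast_zmod_eq_zero_iff_dvd z p)
  obtain ⟨x', hx⟩ := hZ p (by omega) (fun i => ((a i : ℤ) : ZMod p))
    (fun i => ((d i : ℤ) : ZMod p)) (fun i => (hcast _).2 (hd i)) (by
      intro i l hil hab
      have h1 := hcong i l hil (by
        rw [← ZMod.intCast_zmod_eq_zero_iff_dvd]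
        push_cast
        exact sub_eq_zero.2 hab)
      push_cast at h1
      exact h1)
  obtain ⟨x0, rfl⟩ := ZMod.intCast_surjective x'
  have hne : ∀ i, ¬ (p : ℤ) ∣ x0 - a i := by
    intro i
    rw [← hcast]
    push_cast
    exact sub_ne_zero.2 (hx i).1
  have hpp : Prime (p : ℤ) := Nat.prime_iff_prime_int.1 (Fact.out : p.Prime)
  have hsq : ∀ i, IsSquare (((x0 - a i) * d i : ℤ) : ℚ_[p]) ∧
      (((x0 - a i) * d i : ℤ) : ℚ_[p]) ≠ 0 := by
    intro i
    refine Pool.Agent.TH344.MT.LocX.sq_of_zmod hp2 ?_ ?_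
    · intro hdvd
      rcases hpp.dvd_or_dvd hdvd with h1 | h1
      · exact hne i h1
      · exact hd i h1
    · push_cast
      exact (hx i).2
  have hP : IsSquare ((∏ i, (x0 - a i) : ℤ) : ℚ_[p]) := by
    refine (Pool.Agent.TH344.MT.LocX.sq_of_zmod hp2 ?_ ?_).1
    · intro hdvd
      obtain ⟨i, -, hi⟩ := hpp.exists_mem_finset_dvd hdvd
      exact hne i hi
    · have h1 : IsSquare (∏ i, (((x0 : ℤ) : ZMod p) - ((a i : ℤ) : ZMod p)) *
          ((d i : ℤ) : ZMod p)) := Finset.isSquare_prod _ fun i _ => (hx i).2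
      rw [Finset.prod_mul_distrib] at h1
      have h2 := h1.mul hprod
      have hD : (∏ i, ((d i : ℤ) : ZMod p)) ≠ 0 :=
        Finset.prod_ne_zero_iff.2 fun i _ => (hcast _).2 (hd i)
      push_cast at h2 ⊢
      have h3 : (∏ i, (((x0 : ℤ) : ZMod p) - ((a i : ℤ) : ZMod p))) =
          (∏ i, (((x0 : ℤ) : ZMod p) - ((a i : ℤ) : ZMod p))) * (∏ i, ((d i : ℤ) : ZMod p)) *
            (∏ i, ((d i : ℤ) : ZMod p)) /
            ((∏ i, ((d i : ℤ) : ZMod p)) * (∏ i, ((d i : ℤ) : ZMod p))) := by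
        field_simp
      rw [h3]
      exact h2.div ⟨_, rfl⟩
  obtain ⟨y, hy⟩ := hP
  refine ⟨X - C ((x0 : ℤ) : ℚ_[p]), C y, monic_X_sub_C _, ?_, fun i => ?_⟩
  · rw [dvd_iff_isRoot, IsRoot, eval_sub, eval_prod, eval_pow, eval_C]
    simp only [eval_sub, eval_X, eval_C]
    rw [sub_eq_zero, sq, ← hy]
    push_cast
    rfl
  · obtain ⟨h1, h2⟩ := hsq i
    rw [natDegree_X_sub_C, pow_one, eval_sub, eval_X, eval_C]
    push_cast at h1 h2
    constructor
    · intro h3
      apply h2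
      have : ((x0 : ℤ) : ℚ_[p]) - ((a i : ℤ) : ℚ_[p]) = 0 := by linear_combination -h3
      rw [this, zero_mul]
    · have h3 : -1 * (((a i : ℤ) : ℚ_[p]) - ((x0 : ℤ) : ℚ_[p])) * ((d i : ℤ) : ℚ_[p]) =
          (((x0 : ℤ) : ℚ_[p]) - ((a i : ℤ) : ℚ_[p])) * ((d i : ℤ) : ℚ_[p]) := by ring
      rw [h3]
      exact h1

end Pool.Agent.TH344.JT
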