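import Pool.Agent.TH344.JT.Stm

/-!
# Project JT, part JT-LOW: the product of the local weights
-/

set_option autoImplicit false

namespace Pool.Agent.TH344.JT

open Finset Polynomial Pool.Agent.TH344.JG

open Pool.Agent.TH344.MT (Pr)

namespace LowAux

lemma om_le {z w K : ℕ} (hw : 1 ≤ w) {m : ℤ} (hm : m ≠ 0) (hle : m.natAbs ≤ w ^ K) :
    om m ≤ ((Pr z w).filter (fun p : ℕ => (p : ℤ) ∣ m)).card + (z + K) := by
  classical
  have hm0 : m.natAbs ≠ 0 := Int.natAbs_ne_zero.2 hm
  have hsub : m.natAbs.primeFactors ⊆ (Pr z w).filter (fun p : ℕ => (p : ℤ) ∣ m) ∪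
      (Icc 1 z ∪ m.natAbs.primeFactors.filter (fun p => w < p)) := by
    intro p hp
    have hp' := Nat.mem_primeFactors.1 hp
    simp only [mem_union, mem_filter, mem_Icc, Pr]
    by_cases h1 : p ≤ z
    · exact Or.inr (Or.inl ⟨hp'.1.pos, h1⟩)
    · by_cases h2 : p ≤ w
      · exact Or.inl ⟨⟨⟨by omega, h2⟩, hp'.1⟩, Int.natCast_dvd.2 hp'.2.1⟩
      · exact Or.inr (Or.inr ⟨hp, by omega⟩)
  have hbig : (m.natAbs.primeFactors.filter (fun p => w < p)).card ≤ K := by
    by_contra hcon
    push Not at hcon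
    have h1 : (w + 1) ^ (m.natAbs.primeFactors.filter (fun p => w < p)).card ≤
        ∏ p ∈ m.natAbs.primeFactors.filter (fun p => w < p), p := by
      refine Finset.pow_card_le_prod _ _ _ fun p hp => ?_
      have := (mem_filter.1 hp).2
      omega
    have h2 : ∏ p ∈ m.natAbs.primeFactors.filter (fun p => w < p), p ≤
        ∏ p ∈ m.natAbs.primeFactors, p := by
      refine Finset.prod_le_prod_of_subset_of_one_le' (filter_subset _ _) fun p hp _ => ?_
      exact (Nat.mem_primeFactors.1 hp).1.one_lt.le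
    have h3 : ∏ p ∈ m.natAbs.primeFactors, p ≤ m.natAbs :=
      Nat.le_of_dvd (Nat.pos_of_ne_zero hm0) (Nat.prod_primeFactors_dvd _)
    have h4 : (w + 1) ^ (K + 1) ≤ (w + 1) ^ (m.natAbs.primeFactors.filter (fun p => w < p)).card :=
      Nat.pow_le_pow_right (by omega) hcon
    have h5 : w ^ K ≤ (w + 1) ^ K := Nat.pow_le_pow_left (by omega) K
    have h6 : (w + 1) ^ K < (w + 1) ^ (K + 1) := Nat.pow_lt_pow_right (by omega) (by omega)
    omega
  have hc := card_le_card hsub
  have hc1 := card_union_le ((Pr z w).filter (fun p : ℕ => (p : ℤ) ∣ m))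
    (Icc 1 z ∪ m.natAbs.primeFactors.filter (fun p => w < p))
  have hc2 := card_union_le (Icc 1 z) (m.natAbs.primeFactors.filter (fun p => w < p))
  rw [Nat.card_Icc] at hc2
  unfold om
  omega

lemma cl_fs_sn {g : ℕ} (j : Fin g) : cl (fs j) = cl (sn j) := by
  apply Fin.ext
  simp only [cl, fs, sn]
  omega

lemma exists_of_cl {g : ℕ} {i l : Fin (2 * g + 1)} (h : i < l) (hc : cl i = cl l) :
    ∃ j : Fin g, i = fs j ∧ l = sn j := by
  have h1 : (i : ℕ) / 2 = (l : ℕ) / 2 := by
    have := congrArg Fin.val hc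
    simpa only [cl] using this
  have h2 : (i : ℕ) < l := h
  have h3 : (l : ℕ) < 2 * g + 1 := l.2
  refine ⟨⟨(i : ℕ) / 2, by omega⟩, Fin.ext ?_, Fin.ext ?_⟩
  · simp only [fs]; omega
  · simp only [sn]; omega

lemma fs_inj {g : ℕ} {j j' : Fin g} (h : fs j = fs j') : j = j' := by
  have := congrArg Fin.val h
  simp only [fs] at this
  exact Fin.ext (by omega)

lemma fs_ne_sn {g : ℕ} (j j' : Fin g) : fs j ≠ sn j' := by
  intro h
  have := congrArg Fin.val h
  simp only [fs, sn] at this
  omega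

lemma only_symm {n : ℕ} {p : ℕ} {a : Fin n → ℤ} {i l : Fin n} (h : Only p a i l) :
    Only p a l i := by
  obtain ⟨h1, h2, h3⟩ := h
  refine ⟨h1.symm, ?_, fun i' l' hne hd => (h3 i' l' hne hd).symm⟩
  rw [← neg_sub]
  exact (dvd_neg).2 h2

open Classical in
lemma pt {g : ℕ} (κ : ℝ) (p : ℕ) (a : Fin (2 * g + 1) → ℤ) :
    fw κ p a + (if Inj p a then 1 else 0) ≤
      (2 : ℝ) ^ (κ * ((∑ j : Fin g, if Spt p a j then (1 : ℝ) else 0) -
        ∑ c ∈ UM g, if (p : ℤ) ∣ df a c then (1 : ℝ) else 0)) := by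
  by_cases hI : Inj p a
  · have h1 : ∀ j : Fin g, ¬ Only p a (fs j) (sn j) := fun j h => hI _ _ h.1 h.2.1
    have h2 : ∀ j : Fin g, ¬ Spt p a j := fun j h => h1 j h.1
    have h3 : ∀ c : PR (2 * g + 1), ¬ (p : ℤ) ∣ df a c := fun c h => hI _ _ (ne_of_lt c.2) h
    have h4 : ∀ c : PR (2 * g + 1), ¬ Only p a c.1.1 c.1.2 := fun c h => h3 c h.2.1
    simp [fw, hI, h1, h2, h3, h4]
  · by_cases hO : ∃ c : PR (2 * g + 1), Only p a c.1.1 c.1.2
    · obtain ⟨c, hc⟩ := hO
      by_cases hcl : cl c.1.1 = cl c.1.2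
      · obtain ⟨j, hj1, hj2⟩ := exists_of_cl c.2 hcl
        rw [hj1, hj2] at hc
        have h1 : ∀ j' : Fin g, j' ≠ j → ¬ Only p a (fs j') (sn j') := by
          intro j' hne h
          rcases hc.2.2 _ _ h.1 h.2.1 with h | h
          · exact hne (fs_inj h.1)
          · exact fs_ne_sn _ _ h.1
        have h2 : ∀ j' : Fin g, j' ≠ j → ¬ Spt p a j' := fun j' hne h => h1 j' hne h.1
        have h3 : ∀ c' ∈ UM g, ¬ (p : ℤ) ∣ df a c' := by
          intro c' hc' h
          rcases hc.2.2 _ _ (ne_of_lt c'.2) h with h | h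
          · apply (mem_filter.1 hc').2
            rw [h.1, h.2, cl_fs_sn]
          · apply (mem_filter.1 hc').2
            rw [h.1, h.2, cl_fs_sn]
        have e1 : ∑ j' : Fin g, (if Spt p a j' then (2 : ℝ) ^ κ else
            if Only p a (fs j') (sn j') then 1 else 0) = if Spt p a j then (2 : ℝ) ^ κ else 1 := by
          rw [Finset.sum_eq_single j]
          · simp [hc]
          · intro j' _ hne
            simp [h1 j' hne, h2 j' hne]
          · simp
        have e2 : ∑ c ∈ UM g, (if Only p a c.1.1 c.1.2 then (2 : ℝ) ^ (-κ) else 0) = 0 :=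
          Finset.sum_eq_zero fun c' hc' => if_neg fun h => h3 c' hc' h.2.1
        have e3 : ∑ j' : Fin g, (if Spt p a j' then (1 : ℝ) else 0) =
            if Spt p a j then 1 else 0 := by
          rw [Finset.sum_eq_single j]
          · intro j' _ hne
            simp [h2 j' hne]
          · simp
        have e4 : ∑ c ∈ UM g, (if (p : ℤ) ∣ df a c then (1 : ℝ) else 0) = 0 :=
          Finset.sum_eq_zero fun c' hc' => if_neg (h3 c' hc')
        rw [e3, e4, if_neg hI]
        unfold fw
        rw [e1, e2]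
        by_cases hS : Spt p a j
        · simp [hS]
        · simp [hS]
      · have hcU : c ∈ UM g := mem_filter.2 ⟨mem_univ _, hcl⟩
        have h1 : ∀ j' : Fin g, ¬ Only p a (fs j') (sn j') := by
          intro j' h
          rcases hc.2.2 _ _ h.1 h.2.1 with h | h
          · apply hcl
            rw [← h.1, ← h.2, cl_fs_sn]
          · apply hcl
            rw [← h.1, ← h.2, cl_fs_sn]
        have h2 : ∀ j' : Fin g, ¬ Spt p a j' := fun j' h => h1 j' h.1
        have h3 : ∀ c' : PR (2 * g + 1), c' ≠ c → ¬ (p : ℤ) ∣ df a c' := by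
          intro c' hne h
          rcases hc.2.2 _ _ (ne_of_lt c'.2) h with h | h
          · exact hne (Subtype.ext (Prod.ext h.1 h.2))
          · have h5 := c'.2
            rw [h.1, h.2] at h5
            exact absurd c.2 (not_lt.2 h5.le)
        have e2 : ∑ c ∈ UM g, (if Only p a c.1.1 c.1.2 then (2 : ℝ) ^ (-κ) else 0) =
            (2 : ℝ) ^ (-κ) := by
          rw [Finset.sum_eq_single c]
          · rw [if_pos hc]
          · intro c' _ hne
            exact if_neg fun h => h3 c' hne h.2.1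
          · intro h; exact absurd hcU h
        have e4 : ∑ c ∈ UM g, (if (p : ℤ) ∣ df a c then (1 : ℝ) else 0) = 1 := by
          rw [Finset.sum_eq_single c]
          · exact if_pos hc.2.1
          · intro c' _ hne
            exact if_neg (h3 c' hne)
          · intro h; exact absurd hcU h
        have e1 : ∑ j' : Fin g, (if Spt p a j' then (2 : ℝ) ^ κ else
            if Only p a (fs j') (sn j') then 1 else 0) = 0 :=
          Finset.sum_eq_zero fun j' _ => by simp [h1 j', h2 j']
        have e3 : ∑ j' : Fin g, (if Spt p a j' then (1 : ℝ) else 0) = 0 :=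
          Finset.sum_eq_zero fun j' _ => by simp [h2 j']
        rw [e3, e4, if_neg hI]
        unfold fw
        rw [e1, e2]
        apply le_of_eq
        rw [zero_add, add_zero]
        congr 1
        ring
    · have hO' : ∀ i l : Fin (2 * g + 1), ¬ Only p a i l := by
        intro i l h
        rcases lt_trichotomy i l with h1 | h1 | h1
        · exact hO ⟨⟨(i, l), h1⟩, h⟩
        · exact h.1 h1
        · exact hO ⟨⟨(l, i), h1⟩, only_symm h⟩
      have h2 : ∀ j : Fin g, ¬ Spt p a j := fun j h => hO' _ _ h.1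
      have e : fw κ p a + (if Inj p a then 1 else 0) = 0 := by
        simp [fw, hI, hO', h2]
      rw [e]
      positivity

open Classical in
lemma fw_nonneg {g : ℕ} (κ : ℝ) (p : ℕ) (a : Fin (2 * g + 1) → ℤ) : 0 ≤ fw κ p a := by
  unfold fw
  refine add_nonneg (Finset.sum_nonneg fun j _ => ?_) (Finset.sum_nonneg fun c _ => ?_)
  · split_ifs
    · positivity
    · positivity
    · exact le_rfl
  · split_ifs
    · positivity
    · exact le_rfl

end LowAux

open LowAux in
theorem lowp : S_LOWJ := by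
  classical
  intro g κ z K hg hκ hz
  refine ⟨(2 : ℝ) ^ (κ * ((UM g).card * ((z : ℝ) + K))), by positivity, ?_⟩
  intro w hw a ha hinj
  have h1 : ∏ p ∈ Pr z w, (fw κ p a + if Inj p a then 1 else 0) ≤
      ∏ p ∈ Pr z w, (2 : ℝ) ^ (κ * ((∑ j : Fin g, if Spt p a j then (1 : ℝ) else 0) -
        ∑ c ∈ UM g, if (p : ℤ) ∣ df a c then (1 : ℝ) else 0)) := by
    refine Finset.prod_le_prod (fun p _ => ?_) fun p _ => pt κ p a
    refine add_nonneg (fw_nonneg κ p a) ?_
    split_ifs
    · exact zero_le_one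
    · exact le_rfl
  refine h1.trans ?_
  rw [← Real.rpow_sum_of_pos (by norm_num : (0 : ℝ) < 2), ← Real.rpow_add (by norm_num)]
  refine Real.rpow_le_rpow_of_exponent_le (by norm_num) ?_
  rw [← Finset.mul_sum, ← mul_add]
  refine mul_le_mul_of_nonneg_left ?_ hκ
  rw [Finset.sum_sub_distrib, Finset.sum_comm]
  have e1 : ∀ j : Fin g, ∑ p ∈ Pr z w, (if Spt p a j then (1 : ℝ) else 0) =
      (((Pr z w).filter (fun p => Spt p a j)).card : ℝ) := by
    intro j
    rw [Finset.sum_boole]
  have e2 : ∑ p ∈ Pr z w, ∑ c ∈ UM g, (if (p : ℤ) ∣ df a c then (1 : ℝ) else 0) =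
      ∑ c ∈ UM g, (((Pr z w).filter (fun p : ℕ => (p : ℤ) ∣ df a c)).card : ℝ) := by
    rw [Finset.sum_comm]
    refine Finset.sum_congr rfl fun c _ => ?_
    rw [Finset.sum_boole]
  rw [e2, Finset.sum_congr rfl fun j _ => e1 j]
  have h2 : ∀ c ∈ UM g, (om (df a c) : ℝ) ≤
      (((Pr z w).filter (fun p : ℕ => (p : ℤ) ∣ df a c)).card : ℝ) + ((z : ℝ) + K) := by
    intro c _
    have hne : df a c ≠ 0 := by
      unfold df
      intro h
      exact (ne_of_lt c.2) (hinj (sub_eq_zero.1 h))
    have hle : (df a c).natAbs ≤ w ^ K := by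
      unfold bx at ha
      rw [Fintype.mem_piFinset] at ha
      have hb1 := mem_Icc.1 (ha c.1.1)
      have hb2 := mem_Icc.1 (ha c.1.2)
      unfold df
      omega
    exact_mod_cast om_le (z := z) (by omega : 1 ≤ w) hne hle
  have h3 : ∑ c ∈ UM g, (om (df a c) : ℝ) ≤
      ∑ c ∈ UM g, (((Pr z w).filter (fun p : ℕ => (p : ℤ) ∣ df a c)).card : ℝ) +
        (UM g).card * ((z : ℝ) + K) := by
    refine (Finset.sum_le_sum h2).trans (le_of_eq ?_)
    rw [Finset.sum_add_distrib, Finset.sum_const, nsmul_eq_mul]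
  linarith

end Pool.Agent.TH344.JT
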