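import Mathlib
import Pool.Agent.TH344.JT.Stm
import Pool.Agent.H341R2.WeilSharp

/-!
# JT-PTF: prescribed quadratic characters (helper740)
-/

set_option autoImplicit false
set_option linter.unusedSectionVars false

namespace Pool.Agent.TH344.JT

open Finset Polynomial

namespace Ptf

variable {F : Type} [Field F] [Fintype F] [DecidableEq F]

lemma not_sq {n : ℕ} {b : Fin n → F} (hb : Function.Injective b) {S : Finset (Fin n)}
    (hS : S.Nonempty) (c : F) (h : F[X]) : ∏ i ∈ S, (X - C (b i)) ≠ C c * h ^ 2 := by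
  intro heq
  obtain ⟨i0, hi0⟩ := hS
  have hf0 : ∏ i ∈ S, (X - C (b i)) ≠ (0 : F[X]) := (monic_prod_X_sub_C b S).ne_zero
  have hc : c ≠ 0 := by
    rintro rfl
    rw [heq, map_zero, zero_mul] at hf0
    exact hf0 rfl
  have hroot : h.IsRoot (b i0) := by
    have h1 : (∏ i ∈ S, (X - C (b i))).eval (b i0) = 0 := by
      rw [eval_prod]
      exact Finset.prod_eq_zero hi0 (by simp)
    rw [heq, eval_mul, eval_C, eval_pow] at h1
    rcases mul_eq_zero.1 h1 with h2 | h2
    · exact absurd h2 hc
    · exact pow_eq_zero_iff (two_ne_zero) |>.1 h2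
  obtain ⟨k, hk⟩ := dvd_iff_isRoot.2 hroot
  rw [← Finset.mul_prod_erase S _ hi0, hk] at heq
  have h2 : (X - C (b i0)) * ∏ i ∈ S.erase i0, (X - C (b i)) =
      (X - C (b i0)) * (C c * (X - C (b i0)) * k ^ 2) := by
    rw [heq]; ring
  have h3 := mul_left_cancel₀ (X_sub_C_ne_zero (b i0)) h2
  have h4 := congrArg (fun p : F[X] => p.eval (b i0)) h3
  simp only [eval_mul, eval_sub, eval_X, eval_C, sub_self, mul_zero, zero_mul, eval_prod] at h4
  obtain ⟨i, hi, hi'⟩ := Finset.prod_eq_zero_iff.1 h4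
  exact (Finset.ne_of_mem_erase hi) (hb (sub_eq_zero.1 hi').symm)

lemma term_bound (hF : ringChar F ≠ 2) {n : ℕ} {b e : Fin n → F} (hb : Function.Injective b)
    {S : Finset (Fin n)} (hS : S.Nonempty) :
    |∑ x : F, ∏ i ∈ S, (quadraticChar F ((x - b i) * e i) : ℝ)| ≤
      n * Real.sqrt (Fintype.card F) := by
  have h1 : ∀ x : F, ∏ i ∈ S, (quadraticChar F ((x - b i) * e i) : ℝ) =
      (∏ i ∈ S, (quadraticChar F (e i) : ℝ)) *
        (quadraticChar F ((∏ i ∈ S, (X - C (b i))).eval x) : ℝ) := by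
    intro x
    rw [eval_prod, map_prod, Int.cast_prod, ← Finset.prod_mul_distrib]
    refine Finset.prod_congr rfl fun i _ => ?_
    rw [map_mul, eval_sub, eval_X, eval_C]
    push_cast
    ring
  simp_rw [h1]
  rw [← Finset.mul_sum, abs_mul]
  have h2 : |∏ i ∈ S, (quadraticChar F (e i) : ℝ)| ≤ 1 := by
    rw [Finset.abs_prod]
    refine Finset.prod_le_one (fun _ _ => abs_nonneg _) fun i _ => ?_
    rcases eq_or_ne (e i) 0 with h | h
    · rw [h, quadraticChar_zero]; norm_num
    · rcases quadraticChar_dichotomy h with h | h <;> rw [h] <;> norm_num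
  have hdeg : (∏ i ∈ S, (X - C (b i))).natDegree = S.card := by
    rw [natDegree_prod_of_monic _ _ fun i _ => monic_X_sub_C (b i)]
    simp
  have h3 := Pool.Agent.H341R2.Sharp.weil_sharp hF (∏ i ∈ S, (X - C (b i)))
    (by rw [hdeg]; exact Finset.card_pos.2 hS) (not_sq hb hS)
  rw [hdeg] at h3
  have h4 : (S.card : ℝ) ≤ n := by
    have := Finset.card_le_univ S
    rw [Fintype.card_fin] at this
    exact_mod_cast this
  have h5 : ((S.card : ℝ) - 1) * Real.sqrt (Fintype.card F) ≤
      n * Real.sqrt (Fintype.card F) :=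
    mul_le_mul_of_nonneg_right (by linarith) (Real.sqrt_nonneg _)
  calc _ ≤ 1 * |∑ x : F, (quadraticChar F ((∏ i ∈ S, (X - C (b i))).eval x) : ℝ)| :=
        mul_le_mul_of_nonneg_right h2 (abs_nonneg _)
    _ ≤ _ := by rw [one_mul]; exact h3.trans h5

lemma main (hF : ringChar F ≠ 2) {n : ℕ} (hc : ((n : ℝ) * 2 ^ n + 1) ^ 2 < Fintype.card F)
    {b e : Fin n → F} (hb : Function.Injective b) (he : ∀ i, e i ≠ 0) :
    ∃ x : F, ∀ i, x ≠ b i ∧ IsSquare ((x - b i) * e i) := by
  classical
  by_contra hno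
  push Not at hno
  obtain ⟨q, hq⟩ : ∃ q : ℝ, q = Fintype.card F := ⟨_, rfl⟩
  obtain ⟨A, hA⟩ : ∃ A : ℝ, A = (n : ℝ) * 2 ^ n := ⟨_, rfl⟩
  have hA0 : 0 ≤ A := by rw [hA]; positivity
  have h1 : ∑ x : F, ∏ i, (1 + (quadraticChar F ((x - b i) * e i) : ℝ)) ≤ A := by
    have h2 : ∀ x : F, ∏ i, (1 + (quadraticChar F ((x - b i) * e i) : ℝ)) ≤
        if x ∈ univ.image b then (2 : ℝ) ^ n else 0 := by
      intro x
      split_ifs with hx
      · have h3 : ∏ i, (1 + (quadraticChar F ((x - b i) * e i) : ℝ)) ≤ ∏ _i : Fin n, (2 : ℝ) := by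
          refine Finset.prod_le_prod (fun i _ => ?_) fun i _ => ?_
          · rcases eq_or_ne ((x - b i) * e i) 0 with h | h
            · rw [h, quadraticChar_zero]; norm_num
            · rcases quadraticChar_dichotomy h with h | h <;> rw [h] <;> norm_num
          · rcases eq_or_ne ((x - b i) * e i) 0 with h | h
            · rw [h, quadraticChar_zero]; norm_num
            · rcases quadraticChar_dichotomy h with h | h <;> rw [h] <;> norm_num
        refine h3.trans (le_of_eq ?_)
        simp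
      · obtain ⟨i, hi⟩ := hno x
        have hxi : x ≠ b i := by
          rintro rfl
          exact hx (Finset.mem_image_of_mem b (mem_univ i))
        have hne : (x - b i) * e i ≠ 0 := mul_ne_zero (sub_ne_zero.2 hxi) (he i)
        have h4 : quadraticChar F ((x - b i) * e i) = -1 := by
          rw [quadraticChar_eq_neg_one_iff_not_one hne, quadraticChar_one_iff_isSquare hne]
          exact hi hxi
        refine le_of_eq (Finset.prod_eq_zero (mem_univ i) ?_)
        rw [h4]
        norm_num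
    refine (Finset.sum_le_sum fun x _ => h2 x).trans ?_
    rw [Finset.sum_ite_mem, Finset.univ_inter, Finset.sum_const, nsmul_eq_mul, hA]
    refine mul_le_mul_of_nonneg_right ?_ (by positivity)
    have h5 : (univ.image b).card ≤ n := by
      have := Finset.card_image_le (s := (univ : Finset (Fin n))) (f := b)
      rwa [Finset.card_univ, Fintype.card_fin] at this
    exact_mod_cast h5
  have h6 : ∑ x : F, ∏ i, (1 + (quadraticChar F ((x - b i) * e i) : ℝ)) =
      ∑ S ∈ (univ : Finset (Fin n)).powerset,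
        ∑ x : F, ∏ i ∈ S, (quadraticChar F ((x - b i) * e i) : ℝ) := by
    simp_rw [Finset.prod_one_add]
    rw [Finset.sum_comm]
  have h7 : ∑ S ∈ (univ : Finset (Fin n)).powerset,
        ∑ x : F, ∏ i ∈ S, (quadraticChar F ((x - b i) * e i) : ℝ) ≥ q - A * Real.sqrt q := by
    rw [← Finset.add_sum_erase _ _ (Finset.empty_mem_powerset (univ : Finset (Fin n)))]
    have h8 : ∑ x : F, ∏ i ∈ (∅ : Finset (Fin n)),
        (quadraticChar F ((x - b i) * e i) : ℝ) = q := by
      simp [hq]
    rw [h8]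
    have h9 : |∑ S ∈ ((univ : Finset (Fin n)).powerset).erase ∅,
        ∑ x : F, ∏ i ∈ S, (quadraticChar F ((x - b i) * e i) : ℝ)| ≤ A * Real.sqrt q := by
      refine (Finset.abs_sum_le_sum_abs _ _).trans ?_
      refine (Finset.sum_le_sum (g := fun _ => (n : ℝ) * Real.sqrt q) fun S hS => ?_).trans ?_
      · rw [hq]
        exact term_bound hF hb (Finset.nonempty_iff_ne_empty.2 (Finset.ne_of_mem_erase hS))
      · rw [Finset.sum_const, nsmul_eq_mul]
        have h10 : (((univ : Finset (Fin n)).powerset).erase ∅).card ≤ 2 ^ n := by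
          refine (Finset.card_erase_le).trans ?_
          rw [Finset.card_powerset, Finset.card_univ, Fintype.card_fin]
        have h11 : ((((univ : Finset (Fin n)).powerset).erase ∅).card : ℝ) ≤ 2 ^ n := by
          exact_mod_cast h10
        calc _ ≤ (2 : ℝ) ^ n * ((n : ℝ) * Real.sqrt q) :=
              mul_le_mul_of_nonneg_right h11 (by positivity)
          _ = A * Real.sqrt q := by rw [hA]; ring
    have := (abs_le.1 h9).1
    linarith
  rw [h6] at h1
  have h12 : q ≤ A * Real.sqrt q + A := by linarith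
  rw [← hA, ← hq] at hc
  have hq0 : 0 ≤ q := by rw [hq]; positivity
  have hs : Real.sqrt q * Real.sqrt q = q := Real.mul_self_sqrt hq0
  have h13 : A + 1 < Real.sqrt q := Real.lt_sqrt_of_sq_lt hc
  nlinarith

end Ptf

theorem ptf : S_PTF := by
  intro n
  refine ⟨(n * 2 ^ n + 1) ^ 2 + 2, fun p _ hp b e hb he => ?_⟩
  refine Ptf.main ?_ ?_ hb he
  · rw [ZMod.ringChar_zmod_n]
    omega
  · rw [ZMod.card]
    have : (n * 2 ^ n + 1) ^ 2 < p := by omega
    exact_mod_cast this

end Pool.Agent.TH344.JT
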