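import Mathlib
import Pool.Agent.TH344.JT.Stm
import Pool.Agent.H373R2.T7.Fund
import Pool.Agent.Helper256.KM.Mertens

/-! Project JT, `S_SEQ`: tuples in residue classes that are injective modulo many primes. -/

set_option autoImplicit false

namespace Pool.Agent.TH344.JT

open Finset
open Pool.Agent.TH344.MT (Pr)
open Pool.Agent.H373R2.T7 (pz mem_pz nuB PerB sys_fund)

namespace SeqAux

lemma one_sub_ge' {k : ℕ} {x : ℝ} (h1 : x * (k + 1) ≤ k) :
    Real.exp (-(x + (k + 1) * x ^ 2)) ≤ 1 - x := by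
  have hk : (0:ℝ) < k + 1 := by positivity
  have h2 : 1 ≤ (1 - x) * (k + 1) := by nlinarith
  have h2' : 0 < 1 - x := by
    by_contra h
    have : (1 - x) * (k+1) ≤ 0 := mul_nonpos_of_nonpos_of_nonneg (by linarith) hk.le
    linarith
  rw [← Real.le_log_iff_exp_le h2']
  have h3 := Real.one_sub_inv_le_log_of_pos h2'
  refine le_trans ?_ h3
  have h4 : (1 - x)⁻¹ ≤ 1 + x + (k+1) * x ^ 2 := by
    rw [inv_le_iff_one_le_mul₀ h2']
    nlinarith [mul_le_mul_of_nonneg_left h2 (sq_nonneg x)]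
  linarith

lemma prod_lower' (k z : ℕ) (hz : k + 1 ≤ z) : ∃ c : ℝ, 0 < c ∧ ∀ w : ℕ, 3 ≤ w →
    c / Real.log w ^ k ≤ ∏ p ∈ Pr z w, (1 - (k : ℝ) / (p : ℝ)) := by
  obtain ⟨C, hC⟩ := Pool.Agent.Helper256.KM.mertens_inv
  have hs : Summable (fun n : ℕ => 1 / (n : ℝ) ^ 2) := Real.summable_one_div_nat_pow.2 (by norm_num)
  set S := ∑' n : ℕ, 1 / (n : ℝ) ^ 2 with hS
  refine ⟨Real.exp (-(k * C + (k + 1) * (k ^ 2 * S))), by positivity, fun w hw => ?_⟩
  have hw3 : (3 : ℝ) ≤ w := by exact_mod_cast hw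
  have hlog : 0 < Real.log w := Real.log_pos (by linarith)
  have h1 : ∏ p ∈ Pr z w, Real.exp (-((k : ℝ) / p + (k + 1) * ((k : ℝ) / p) ^ 2))
      ≤ ∏ p ∈ Pr z w, (1 - (k : ℝ) / (p : ℝ)) := by
    refine Finset.prod_le_prod (fun p _ => (Real.exp_pos _).le) fun p hp => ?_
    have hpz : z + 1 ≤ p := (mem_Icc.1 (mem_filter.1 hp).1).1
    have hp0 : (0 : ℝ) < p := by exact_mod_cast (by omega : 0 < p)
    have hpk : ((k : ℝ) + 1) ≤ p := by exact_mod_cast (by omega : k + 1 ≤ p)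
    refine one_sub_ge' ?_
    rw [div_mul_eq_mul_div, div_le_iff₀ hp0]
    exact mul_le_mul_of_nonneg_left hpk (by positivity)
  refine le_trans ?_ h1
  rw [← Real.exp_sum]
  have hsub : Pr z w ⊆ (Icc 1 w).filter Nat.Prime := by
    intro p hp
    unfold Pr at hp
    rw [mem_filter, mem_Icc] at hp ⊢
    exact ⟨⟨by omega, hp.1.2⟩, hp.2⟩
  have h2 : ∑ p ∈ Pr z w, (1 : ℝ) / p ≤ Real.log (Real.log w) + C := by
    have h3 := (abs_le.mp (hC w hw)).2
    have h4 : ∑ p ∈ Pr z w, (1 : ℝ) / p ≤ ∑ p ∈ (Icc 1 w).filter Nat.Prime, (1 : ℝ) / p :=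
      sum_le_sum_of_subset_of_nonneg hsub (fun _ _ _ => by positivity)
    linarith
  have h5 : ∑ p ∈ Pr z w, 1 / (p : ℝ) ^ 2 ≤ S := hs.sum_le_tsum _ fun p _ => by positivity
  have h6 : ∑ p ∈ Pr z w, ((k : ℝ) / p + (k + 1) * ((k : ℝ) / p) ^ 2) =
     k * ∑ p ∈ Pr z w, (1 : ℝ) / p + (k + 1) * (k ^ 2 * ∑ p ∈ Pr z w, 1 / (p : ℝ) ^ 2) := by
    rw [mul_sum, mul_sum, mul_sum, ← sum_add_distrib]
    apply sum_congr rfl
    intro p _
    rw [div_pow]
    ring
  have h10 : Real.exp (-(k * C + (k + 1) * (k ^ 2 * S))) / Real.log w ^ k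
      = Real.exp (-(k * C + (k + 1) * (k ^ 2 * S)) - k * Real.log (Real.log w)) := by
    rw [Real.exp_sub, ← Real.log_pow, Real.exp_log (by positivity)]
  rw [h10]
  refine Real.exp_le_exp.mpr ?_
  rw [Finset.sum_neg_distrib, h6]
  have h7 : (k : ℝ) * ∑ p ∈ Pr z w, (1 : ℝ) / p ≤ k * (Real.log (Real.log w) + C) := by gcongr
  have h8 : ((k : ℝ) + 1) * (k ^ 2 * ∑ p ∈ Pr z w, 1 / (p : ℝ) ^ 2) ≤ (k + 1) * (k ^ 2 * S) := by
    gcongr
  linarith

/-- the condition for the sieve -/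
def QQ {k : ℕ} (z w B : ℕ) (r : ℤ) (s : Fin k → ℤ) (p m : ℕ) : Prop :=
  p ∈ Pr z w ∧ ¬ p ∣ B ∧ ∃ i, (p : ℤ) ∣ r + B * m - s i

lemma nuQ {k : ℕ} (z w B : ℕ) (r : ℤ) (s : Fin k → ℤ) (p : ℕ) (hp : p.Prime) :
    nuB (QQ z w B r s) p ≤ k := by
  classical
  unfold nuB
  by_cases hB : p ∣ B
  · rw [filter_false_of_mem (fun m _ h => h.2.1 hB), card_empty]
    exact Nat.zero_le _
  have hpz : Prime (p : ℤ) := Nat.prime_iff_prime_int.1 hp
  have hsub : (range p).filter (fun m => QQ z w B r s p m) ⊆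
      (univ : Finset (Fin k)).biUnion
        (fun i => (range p).filter (fun m : ℕ => (p : ℤ) ∣ r + B * m - s i)) := by
    intro m hm
    obtain ⟨h1, _, _, i, hi⟩ := mem_filter.1 hm
    exact mem_biUnion.2 ⟨i, mem_univ _, mem_filter.2 ⟨h1, hi⟩⟩
  refine (card_le_card hsub).trans (card_biUnion_le.trans ?_)
  have h1 : ∀ i ∈ (univ : Finset (Fin k)),
      ((range p).filter (fun m : ℕ => (p : ℤ) ∣ r + B * m - s i)).card ≤ 1 := by
    intro i _
    rw [card_le_one]
    intro m hm m' hm'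
    rw [mem_filter, mem_range] at hm hm'
    have h2 : (p : ℤ) ∣ B * ((m : ℤ) - m') := by
      have := dvd_sub hm.2 hm'.2
      have e : r + (B : ℤ) * m - s i - (r + B * m' - s i) = B * ((m : ℤ) - m') := by ring
      rwa [e] at this
    have h3 : (p : ℤ) ∣ (m : ℤ) - m' := by
      rcases hpz.dvd_or_dvd h2 with h | h
      · exact absurd (Int.natCast_dvd_natCast.1 h) hB
      · exact h
    have h4 : (m : ℤ) ≡ m' [ZMOD p] := ((Int.modEq_iff_dvd).2 (by
      have := (dvd_neg).2 h3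
      rwa [neg_sub] at this))
    have h5 : m ≡ m' [MOD p] := (Int.natCast_modEq_iff).1 h4
    unfold Nat.ModEq at h5
    rwa [Nat.mod_eq_of_lt hm.1, Nat.mod_eq_of_lt hm'.1] at h5
  refine (sum_le_sum h1).trans ?_
  simp

lemma perQ {k : ℕ} (z w B : ℕ) (r : ℤ) (s : Fin k → ℤ) : PerB (QQ z w B r s) (max k 1) := by
  refine ⟨fun p n => ?_, fun p hp => (nuQ z w B r s p hp).trans (le_max_left _ _)⟩
  unfold QQ
  have h : ∀ i, (p : ℤ) ∣ r + B * (n : ℤ) - s i ↔ (p : ℤ) ∣ r + B * ((n % p : ℕ) : ℤ) - s i := by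
    intro i
    have h1 : (p : ℤ) ∣ (r + B * (n : ℤ) - s i) - (r + B * ((n % p : ℕ) : ℤ) - s i) := by
      have e : (r + B * (n : ℤ) - s i) - (r + B * ((n % p : ℕ) : ℤ) - s i) =
        B * ((n : ℤ) - ((n % p : ℕ) : ℤ)) := by ring
      rw [e]
      apply Dvd.dvd.mul_left
      rw [Int.natCast_mod]
      exact Int.dvd_self_sub_emod
    exact (dvd_iff_dvd_of_dvd_sub h1)
  simp only [h]

lemma prodQ {k : ℕ} (z w B : ℕ) (hz : k + 1 ≤ z) (r : ℤ) (s : Fin k → ℤ) :
    ∏ p ∈ Pr z w, (1 - (k : ℝ) / (p : ℝ)) ≤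
      ∏ p ∈ pz w, (1 - (nuB (QQ z w B r s) p : ℝ) / (p : ℝ)) := by
  classical
  have hsub : Pr z w ⊆ pz w := by
    intro p hp
    unfold Pr at hp
    rw [mem_filter, mem_Icc] at hp
    exact mem_pz.2 ⟨hp.1.2, hp.2⟩
  have e : ∏ p ∈ Pr z w, (1 - (k : ℝ) / (p : ℝ)) =
      ∏ p ∈ pz w, (if p ∈ Pr z w then (1 - (k : ℝ) / (p : ℝ)) else 1) := by
    rw [← prod_filter, filter_mem_eq_inter, inter_eq_right.2 hsub]
  rw [e]
  apply prod_le_prod
  · intro p hp
    split_ifs with h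
    · have hpz : z + 1 ≤ p := (mem_Icc.1 (mem_filter.1 h).1).1
      have hp0 : (0 : ℝ) < p := by exact_mod_cast (by omega : 0 < p)
      have : (k : ℝ) / p ≤ 1 := by
        rw [div_le_one hp0]
        exact_mod_cast (by omega : k ≤ p)
      linarith
    · exact zero_le_one
  · intro p hp
    have hpp := (mem_pz.1 hp).2
    have hp0 : (0 : ℝ) < p := by exact_mod_cast hpp.pos
    split_ifs with h
    · have h1 : (nuB (QQ z w B r s) p : ℝ) ≤ k := by exact_mod_cast nuQ z w B r s p hpp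
      have h2 : (nuB (QQ z w B r s) p : ℝ) / p ≤ k / p := div_le_div_of_nonneg_right h1 hp0.le
      linarith
    · have h1 : nuB (QQ z w B r s) p = 0 := by
        unfold nuB
        rw [filter_false_of_mem (fun m _ h' => h h'.1), card_empty]
      rw [h1]
      simp

open Classical in
lemma one_entry (k z : ℕ) (hz : k + 1 ≤ z) : ∃ (K w0 : ℕ) (c : ℝ), 1 ≤ K ∧ 2 ≤ w0 ∧ 0 < c ∧
    ∀ w : ℕ, w0 ≤ w → ∀ (X B : ℕ) (r : ℤ) (s : Fin k → ℤ), 1 ≤ B → B * w ^ K ≤ X →
      c * ((X : ℝ) / B) / (Real.log w) ^ k ≤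
        (((Icc (1 : ℤ) (X : ℤ)).filter (fun b => (B : ℤ) ∣ b - r ∧
          ∀ p ∈ Pr z w, ¬ p ∣ B → ∀ i, ¬ (p : ℤ) ∣ b - s i)).card : ℝ) := by
  obtain ⟨K0, x0, hK0, hf⟩ := sys_fund (max k 1) (le_max_right _ _) (1 / 2) (by norm_num)
  obtain ⟨c1, hc1, hm⟩ := prod_lower' k z hz
  have hlo : ∀ᶠ n : ℕ in Filter.atTop, Real.log n ^ k ≤ c1 / 8 * n := by
    have h := (Real.isLittleO_pow_log_id_atTop (n := k)).def (c := c1 / 8) (by positivity)
    have h2 := tendsto_natCast_atTop_atTop (R := ℝ) |>.eventually h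
    filter_upwards [h2] with n hn
    simp only [Real.norm_eq_abs, id] at hn
    have h3 : |(n : ℝ)| = n := abs_of_nonneg (Nat.cast_nonneg _)
    rw [h3] at hn
    exact (le_abs_self _).trans hn
  obtain ⟨w1, hw1⟩ := Filter.eventually_atTop.1 hlo
  refine ⟨K0 + 1, max 3 (max x0 w1), c1 / 8, by omega, by omega, by positivity, ?_⟩
  intro w hw X B r s hB hX
  have hw3 : 3 ≤ w := le_trans (le_max_left _ _) hw
  have hwx : x0 ≤ w := le_trans ((le_max_left _ _).trans (le_max_right _ _)) hw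
  have hww : w1 ≤ w := le_trans ((le_max_right _ _).trans (le_max_right _ _)) hw
  have hw0 : (0 : ℝ) < w := by exact_mod_cast (by omega : 0 < w)
  have hlogw : 0 < Real.log w := Real.log_pos (by exact_mod_cast (by omega : 1 < w))
  have hBr : (0 : ℝ) < B := by exact_mod_cast hB
  have hBz : (0 : ℤ) < B := by exact_mod_cast hB
  set r0 := r % (B : ℤ) with hr0
  have hr1 : 0 ≤ r0 := Int.emod_nonneg _ hBz.ne'
  have hr2 : r0 < B := Int.emod_lt_of_pos _ hBz
  have hr3 : (B : ℤ) ∣ r - r0 := Int.dvd_self_sub_emod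
  have hwK0 : 1 ≤ w ^ K0 := Nat.one_le_pow _ _ (by omega)
  have hwK : 3 ≤ w ^ (K0 + 1) := by
    rw [pow_succ]
    calc 3 ≤ 1 * w := by omega
      _ ≤ w ^ K0 * w := Nat.mul_le_mul_right _ hwK0
  have hXB : w ^ (K0 + 1) ≤ X / B := (Nat.le_div_iff_mul_le hB).2 (by rw [mul_comm]; exact hX)
  set T := X / B - 1 with hT
  have hT1 : T + 1 = X / B := by omega
  have hT2 : 2 ≤ T := by omega
  have hTX : B * (T + 1) ≤ X := by rw [hT1]; exact Nat.mul_div_le X B
  have hXT : X < B * (T + 2) := by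
    have := Nat.lt_mul_div_succ X hB
    rwa [← hT1] at this
  have hXTr : (X : ℝ) / B ≤ 2 * T := by
    rw [div_le_iff₀ hBr]
    have h1 : (X : ℝ) ≤ B * (T + 2) := by exact_mod_cast hXT.le
    have h2 : (2 : ℝ) ≤ T := by exact_mod_cast hT2
    nlinarith
  have hXw : (w : ℝ) ^ K0 * w ≤ (X : ℝ) / B := by
    rw [le_div_iff₀ hBr]
    have : ((B * w ^ (K0 + 1) : ℕ) : ℝ) ≤ X := by exact_mod_cast hX
    push_cast at this
    rw [pow_succ] at this
    linarith
  have h1 := hf (w ^ (2 * K0)) w hwx (Nat.pow_le_pow_right (by omega) (by omega)) _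
    (perQ z w B r0 s) T
  have hsq : √((w ^ (2 * K0) : ℕ) : ℝ) = (w : ℝ) ^ K0 := by
    push_cast
    rw [mul_comm, pow_mul]
    exact Real.sqrt_sq (by positivity)
  rw [hsq] at h1
  have h2 := (hm w hw3).trans (prodQ z w B hz r0 s)
  set V := ∏ p ∈ pz w, (1 - (nuB (QQ z w B r0 s) p : ℝ) / (p : ℝ)) with hV
  have h3 := (abs_le.1 h1).1
  have h4 : ((((Icc 1 T).filter (fun n : ℕ => ∀ p ∈ pz w, ¬ QQ z w B r0 s p n)).card : ℕ) : ℝ) ≤
      (((Icc (1 : ℤ) (X : ℤ)).filter (fun b => (B : ℤ) ∣ b - r ∧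
          ∀ p ∈ Pr z w, ¬ p ∣ B → ∀ i, ¬ (p : ℤ) ∣ b - s i)).card : ℝ) := by
    rw [Nat.cast_le]
    apply card_le_card_of_injOn (fun m : ℕ => r0 + (B : ℤ) * m)
    · intro m hm
      rw [mem_coe, mem_filter, mem_Icc] at hm
      rw [mem_coe, mem_filter, mem_Icc]
      have hm1 : (1 : ℤ) ≤ m := by exact_mod_cast hm.1.1
      have hm2 : (m : ℤ) ≤ T := by exact_mod_cast hm.1.2
      refine ⟨⟨?_, ?_⟩, ?_, ?_⟩
      · nlinarith
      · have h5 : (B : ℤ) * (T + 1) ≤ X := by exact_mod_cast hTX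
        nlinarith
      · have e : r0 + (B : ℤ) * m - r = B * m - (r - r0) := by ring
        rw [e]
        exact dvd_sub (Dvd.intro _ rfl) hr3
      · intro p hp hpB i hi
        have hpz : p ∈ pz w := by
          unfold Pr at hp
          rw [mem_filter, mem_Icc] at hp
          exact mem_pz.2 ⟨hp.1.2, hp.2⟩
        exact hm.2 p hpz ⟨hp, hpB, i, hi⟩
    · intro m _ m' _ h
      have h5 : (B : ℤ) * m = B * m' := by
        simp only at h
        linarith
      have h6 := mul_left_cancel₀ hBz.ne' h5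
      exact_mod_cast h6
  refine le_trans ?_ h4
  have hLk : 0 < Real.log w ^ k := by positivity
  have hV0 : 0 < V := lt_of_lt_of_le (by positivity) h2
  -- the error term
  have h5 : (w : ℝ) ^ K0 ≤ (X : ℝ) / B * V / 8 := by
    have h6 : Real.log w ^ k ≤ c1 / 8 * w := hw1 w hww
    have h7 : (8 : ℝ) ≤ w * (c1 / Real.log w ^ k) := by
      rw [mul_div_assoc', le_div_iff₀ hLk]
      linarith
    have h8 : (8 : ℝ) ≤ w * V := h7.trans (mul_le_mul_of_nonneg_left h2 hw0.le)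
    have h9 : (w : ℝ) ^ K0 * w * V ≤ (X : ℝ) / B * V := mul_le_mul_of_nonneg_right hXw hV0.le
    have h10 : (w : ℝ) ^ K0 * 8 ≤ (w : ℝ) ^ K0 * (w * V) :=
      mul_le_mul_of_nonneg_left h8 (by positivity)
    linarith
  have h6 : (X : ℝ) / B * V ≤ 2 * T * V := mul_le_mul_of_nonneg_right hXTr hV0.le
  have h7 : c1 / 8 * ((X : ℝ) / B) / Real.log w ^ k = (X : ℝ) / B * (c1 / Real.log w ^ k) / 8 := by
    ring
  have h8 : (X : ℝ) / B * (c1 / Real.log w ^ k) ≤ (X : ℝ) / B * V :=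
    mul_le_mul_of_nonneg_left h2 (by positivity)
  rw [h7]
  linarith

end SeqAux

open SeqAux

open Classical in
theorem seq : S_SEQ := by
  intro n
  induction n with
  | zero =>
    intro z _
    refine ⟨1, 2, 1, le_rfl, le_rfl, one_pos, fun w _ X B A _ _ => ?_⟩
    have h : ((bx 0 X).filter (fun a => (∀ i, (B : ℤ) ∣ a i - A i) ∧
        ∀ p ∈ Pr z w, ¬ p ∣ B → Inj p a)).Nonempty := by
      refine ⟨fun i => i.elim0, mem_filter.2 ⟨?_, fun i => i.elim0, fun p _ _ i => i.elim0⟩⟩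
      unfold bx
      rw [Fintype.mem_piFinset]
      exact fun i => i.elim0
    have h1 := card_pos.2 h
    have h2 : (1 : ℝ) ≤ (((bx 0 X).filter (fun a => (∀ i, (B : ℤ) ∣ a i - A i) ∧
        ∀ p ∈ Pr z w, ¬ p ∣ B → Inj p a)).card : ℝ) := by exact_mod_cast h1
    simpa using h2
  | succ n ih =>
    intro z hz
    obtain ⟨K1, w1, c1, hK1, hw1, hc1, h1⟩ := ih z (by omega)
    obtain ⟨K2, w2, c2, hK2, hw2, hc2, h2⟩ := one_entry n z (by omega)
    refine ⟨max K1 K2, max w1 w2, c1 * c2, le_trans hK1 (le_max_left _ _),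
      le_trans hw1 (le_max_left _ _), by positivity, fun w hw X B A hB hX => ?_⟩
    have hww1 : w1 ≤ w := le_trans (le_max_left _ _) hw
    have hww2 : w2 ≤ w := le_trans (le_max_right _ _) hw
    have hw1' : 1 ≤ w := by omega
    have hX1 : (B * w ^ K1) ^ 2 ≤ X := by
      refine le_trans ?_ hX
      gcongr
      exact le_max_left _ _
    have hX2 : B * w ^ K2 ≤ X := by
      have h3 : 1 ≤ B * w ^ K2 := Nat.mul_pos hB (Nat.pos_of_ne_zero (by positivity))
      have h4 : B * w ^ K2 ≤ (B * w ^ K2) ^ 2 := by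
        rw [pow_two]
        exact Nat.le_mul_of_pos_left _ h3
      refine h4.trans (le_trans ?_ hX)
      gcongr
      exact le_max_right _ _
    have a1 := h1 w hww1 X B (fun i => A i.succ) hB hX1
    have a2 := fun s : Fin n → ℤ => h2 w hww2 X B (A 0) s hB hX2
    set F := (bx n X).filter (fun a => (∀ i, (B : ℤ) ∣ a i - A i.succ) ∧
        ∀ p ∈ Pr z w, ¬ p ∣ B → Inj p a) with hF
    set G : (Fin n → ℤ) → Finset ℤ := fun s => (Icc (1 : ℤ) (X : ℤ)).filter
      (fun b => (B : ℤ) ∣ b - A 0 ∧ ∀ p ∈ Pr z w, ¬ p ∣ B → ∀ i, ¬ (p : ℤ) ∣ b - s i) with hG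
    have hcard : (F.sigma G).card ≤ ((bx (n + 1) X).filter (fun a => (∀ i, (B : ℤ) ∣ a i - A i) ∧
        ∀ p ∈ Pr z w, ¬ p ∣ B → Inj p a)).card := by
      apply card_le_card_of_injOn (fun x : (_ : Fin n → ℤ) × ℤ => (Fin.cons x.2 x.1 : Fin (n + 1) → ℤ))
      · rintro ⟨a, b⟩ hab
        rw [mem_coe, mem_sigma] at hab
        obtain ⟨ha, hb⟩ := hab
        simp only at ha hb
        rw [hF, mem_filter] at ha
        rw [hG, mem_filter] at hb
        rw [mem_coe, mem_filter]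
        refine ⟨?_, ?_, ?_⟩
        · unfold bx at ha ⊢
          rw [Fintype.mem_piFinset] at ha ⊢
          intro i
          refine Fin.cases ?_ (fun j => ?_) i
          · simpa using hb.1
          · simpa using ha.1 j
        · intro i
          refine Fin.cases ?_ (fun j => ?_) i
          · simpa using hb.2.1
          · simpa using ha.2.1 j
        · intro p hp hpB i l hil
          have hb' := hb.2.2 p hp hpB
          have ha' := ha.2.2 p hp hpB
          revert hil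
          refine Fin.cases ?_ (fun j => ?_) i
          · refine Fin.cases ?_ (fun m => ?_) l
            · intro h; exact absurd rfl h
            · intro _
              simpa using hb' m
          · refine Fin.cases ?_ (fun m => ?_) l
            · intro _ h
              apply hb' j
              have h3 := (dvd_neg).2 h
              simpa using h3
            · intro h
              have h3 : j ≠ m := fun h4 => h (by rw [h4])
              simpa using ha' j m h3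
      · rintro ⟨a, b⟩ _ ⟨a', b'⟩ _ h
        simp only at h
        have h3 := Fin.cons_injective2 h
        obtain ⟨rfl, rfl⟩ := h3
        rfl
    have hcard' : ((F.sigma G).card : ℝ) ≤ (((bx (n + 1) X).filter (fun a => (∀ i, (B : ℤ) ∣ a i - A i) ∧
        ∀ p ∈ Pr z w, ¬ p ∣ B → Inj p a)).card : ℝ) := by exact_mod_cast hcard
    refine le_trans ?_ hcard'
    rw [card_sigma]
    push_cast
    have h3 : (F.card : ℝ) * (c2 * ((X : ℝ) / B) / Real.log w ^ n) ≤ ∑ a ∈ F, ((G a).card : ℝ) := by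
      rw [← nsmul_eq_mul, ← sum_const]
      exact sum_le_sum fun a _ => a2 a
    refine le_trans ?_ h3
    have hlog : 0 < Real.log w := Real.log_pos (by exact_mod_cast (by omega : 1 < w))
    have hBr : (0 : ℝ) < B := by exact_mod_cast hB
    have h4 : c1 * ((X : ℝ) / B) ^ n / Real.log w ^ (n * (n - 1) / 2) *
        (c2 * ((X : ℝ) / B) / Real.log w ^ n) ≤ (F.card : ℝ) * (c2 * ((X : ℝ) / B) / Real.log w ^ n) :=
      mul_le_mul_of_nonneg_right a1 (by positivity)
    refine le_trans (le_of_eq ?_) h4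
    have he : (n + 1) * (n + 1 - 1) / 2 = n * (n - 1) / 2 + n := by
      have h5 : (n + 1) * (n + 1 - 1) = n * (n - 1) + n * 2 := by
        rcases n with _ | m
        · rfl
        · simp only [Nat.add_sub_cancel]
          ring
      rw [h5, Nat.add_mul_div_right _ _ (by norm_num)]
    rw [Nat.add_sub_cancel] at he
    rw [he, pow_add (Real.log (w : ℝ)), pow_succ ((X : ℝ) / B), div_mul_div_comm]
    congr 1
    ring

end Pool.Agent.TH344.JT
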