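import Pool.Agent.TH344.JT.Fin
import Pool.Agent.TH344.JT.Ptf
import Pool.Agent.TH344.JT.Locu
import Pool.Agent.TH344.JT.Locr
import Pool.Agent.TH344.JT.Locg
import Pool.Agent.TH344.JT.Cnt
import Pool.Agent.TH344.JT.Seq
import Pool.Agent.TH344.JT.Eul
import Pool.Agent.TH344.JT.Abs
import Pool.Agent.TH344.JT.Den
import Pool.Agent.TH344.JT.Low

/-!
# Project JT: the threshold
-/

set_option autoImplicit false

namespace Pool.Agent.TH344.JT

theorem thr : S_THR :=
  thr_of (cnt_of (locg_of (locu_of ptf) (locr_of ptf))) (abs_of seq eulj) den lowp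

end Pool.Agent.TH344.JT
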