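import Mathlib
import Pool.Agent.TH344.JT.Stm

/-!
# Project JT: assembly of the lower bound
-/

set_option autoImplicit false

namespace Pool.Agent.TH344.JT

open Finset Polynomial Pool.Agent.TH344.JG

open Pool.Agent.TH344.MT (Pr)

section

variable {n : ℕ} {p : ℕ} {a a' : Fin n → ℤ}

lemma dvd_cong (h : ∀ i, (p : ℤ) ^ 2 ∣ a i - a' i) (i l : Fin n) :
    (p : ℤ) ∣ a i - a l ↔ (p : ℤ) ∣ a' i - a' l := by
  have h1 : ∀ i, (p : ℤ) ∣ a i - a' i := fun i => (dvd_pow_self _ two_ne_zero).trans (h i)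
  have h2 : a i - a l = (a i - a' i) - (a l - a' l) + (a' i - a' l) := by ring
  rw [h2]
  exact (dvd_add_right (dvd_sub (h1 i) (h1 l)))

lemma dvd_cong2 (h : ∀ i, (p : ℤ) ^ 2 ∣ a i - a' i) (i l : Fin n) :
    (p : ℤ) ^ 2 ∣ a i - a l ↔ (p : ℤ) ^ 2 ∣ a' i - a' l := by
  have h2 : a i - a l = (a i - a' i) - (a l - a' l) + (a' i - a' l) := by ring
  rw [h2]
  exact (dvd_add_right (dvd_sub (h i) (h l)))

lemma only_cong (h : ∀ i, (p : ℤ) ^ 2 ∣ a i - a' i) (i l : Fin n) :
    Only p a i l ↔ Only p a' i l := by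
  unfold Only
  simp only [dvd_cong h]

end

lemma spt_cong {g p : ℕ} {a a' : Fin (2 * g + 1) → ℤ} (h : ∀ i, (p : ℤ) ^ 2 ∣ a i - a' i)
    (j : Fin g) : Spt p a j ↔ Spt p a' j := by
  unfold Spt
  rw [only_cong h, dvd_cong2 h]
  have h1 : ((∏ m ∈ (univ.erase (fs j)).erase (sn j), (a (fs j) - a m) : ℤ) : ZMod p) =
      ((∏ m ∈ (univ.erase (fs j)).erase (sn j), (a' (fs j) - a' m) : ℤ) : ZMod p) := by
    rw [Int.cast_prod, Int.cast_prod]
    refine prod_congr rfl fun m _ => ?_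
    rw [ZMod.intCast_eq_intCast_iff_dvd_sub]
    have h2 : (a' (fs j) - a' m) - (a (fs j) - a m) =
        -((a (fs j) - a' (fs j)) - (a m - a' m)) := by ring
    rw [h2, dvd_neg]
    have h3 : ∀ i, (p : ℤ) ∣ a i - a' i := fun i => (dvd_pow_self _ two_ne_zero).trans (h i)
    exact dvd_sub (h3 _) (h3 _)
  rw [h1]

lemma fw_cong {g p : ℕ} (κ : ℝ) {a a' : Fin (2 * g + 1) → ℤ}
    (h : ∀ i, (p : ℤ) ^ 2 ∣ a i - a' i) : fw κ p a = fw κ p a' := by
  unfold fw
  have e1 : ∀ i l, Only p a i l = Only p a' i l := fun i l => propext (only_cong h i l)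
  have e2 : ∀ j, Spt p a j = Spt p a' j := fun j => propext (spt_cong h j)
  congr 1
  · refine sum_congr rfl fun j _ => ?_
    by_cases h1 : Spt p a j
    · have h1' : Spt p a' j := by rw [← e2 j]; exact h1
      rw [if_pos h1, if_pos h1']
    · have h1' : ¬ Spt p a' j := by rw [← e2 j]; exact h1
      rw [if_neg h1, if_neg h1']
      by_cases h2 : Only p a (fs j) (sn j)
      · have h2' : Only p a' (fs j) (sn j) := by rw [← e1]; exact h2
        rw [if_pos h2, if_pos h2']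
      · have h2' : ¬ Only p a' (fs j) (sn j) := by rw [← e1]; exact h2
        rw [if_neg h2, if_neg h2']
  · refine sum_congr rfl fun c _ => ?_
    by_cases h2 : Only p a c.1.1 c.1.2
    · have h2' : Only p a' c.1.1 c.1.2 := by rw [← e1]; exact h2
      rw [if_pos h2, if_pos h2']
    · have h2' : ¬ Only p a' c.1.1 c.1.2 := by rw [← e1]; exact h2
      rw [if_neg h2, if_neg h2']

lemma fw_nonneg {g : ℕ} (κ : ℝ) (p : ℕ) (a : Fin (2 * g + 1) → ℤ) : 0 ≤ fw κ p a := by
  unfold fw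
  refine add_nonneg (sum_nonneg fun j _ => ?_) (sum_nonneg fun c _ => ?_)
  · split_ifs
    · positivity
    · exact zero_le_one
    · exact le_rfl
  · split_ifs
    · positivity
    · exact le_rfl

lemma gp_exp (g : ℕ) (κ : ℝ) :
    gp g κ - (((2 * g + 1) * (2 * g + 1 - 1) / 2 : ℕ) : ℝ) =
      (g : ℝ) / 2 * ((2 : ℝ) ^ κ - 1) * (1 - 4 * g / (2 : ℝ) ^ κ) := by
  have h1 : (2 * g + 1) * (2 * g + 1 - 1) / 2 = (2 * g + 1) * g := by
    rw [Nat.add_sub_cancel]
    have : (2 * g + 1) * (2 * g) = (2 * g + 1) * g * 2 := by ring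
    rw [this, Nat.mul_div_cancel _ (by norm_num)]
  have h2 : (2 : ℝ) ^ (-κ) = ((2 : ℝ) ^ κ)⁻¹ := Real.rpow_neg (by norm_num) κ
  have h3 : (0 : ℝ) < (2 : ℝ) ^ κ := by positivity
  rw [h1]
  unfold gp
  rw [h2]
  push_cast
  field_simp
  ring

lemma bx_sub {n X Y : ℕ} (h : X ≤ Y) : bx n X ⊆ BoxJ n Y := by
  intro a ha
  unfold bx at ha
  unfold BoxJ
  rw [Fintype.mem_piFinset] at ha ⊢
  intro i
  have := mem_Icc.1 (ha i)
  rw [mem_Icc]
  have h2 : (X : ℤ) ≤ Y := by exact_mod_cast h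
  constructor <;> omega

open Classical in
theorem thr_of (h1 : S_CNT) (h2 : S_ABS) (h3 : S_DEN) (h4 : S_LOWJ) : S_THR := by
  intro g κ hg hκ
  have hg1 : (1 : ℝ) ≤ g := by exact_mod_cast hg
  have hκ0 : 0 ≤ κ := by
    by_contra hc
    push Not at hc
    have h5 : (2 : ℝ) ^ κ ≤ 1 := Real.rpow_le_one_of_one_le_of_nonpos (by norm_num) hc.le
    linarith
  have h2κ : (0 : ℝ) < (2 : ℝ) ^ κ := by positivity
  set n : ℕ := 2 * g + 1 with hn
  obtain ⟨Z, C0, hC0⟩ := h1 g hg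
  obtain ⟨C, hC⟩ := h3 g κ hg hκ0
  set z : ℕ := Z + C + n + 2 with hz
  obtain ⟨K, w0, c2, hK, hw0, hc2, hsum⟩ := h2 n z (gp g κ) C (fun p a => fw κ p a) (by omega)
    (by unfold gp; positivity) (Nat.cast_nonneg _) (by rw [hz]; push_cast; linarith [(Nat.cast_nonneg Z : (0:ℝ) ≤ Z), (Nat.cast_nonneg n : (0:ℝ) ≤ n)])
    (fun p a => fw_nonneg κ p a) (fun p a a' h => fw_cong κ h)
    (fun p hp hzp => hC p hp (by omega))
  obtain ⟨C1, hC1, hlow⟩ := h4 g κ z K hg hκ0 (by omega)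
  set e : ℝ := (g : ℝ) / 2 * ((2 : ℝ) ^ κ - 1) * (1 - 4 * g / (2 : ℝ) ^ κ) with he
  have he0 : 0 ≤ e := by
    have h5 : 0 ≤ 1 - 4 * g / (2 : ℝ) ^ κ := by
      rw [sub_nonneg, div_le_one h2κ]
      exact hκ.le
    have h6 : 0 ≤ (2 : ℝ) ^ κ - 1 := by linarith
    positivity
  have hee : gp g κ - ((n * (n - 1) / 2 : ℕ) : ℝ) = e := gp_exp g κ
  rw [hee] at hsum
  set D : ℝ := C1 * ((C0 : ℝ) + 1) ^ κ with hD
  have hD0 : 0 < D := by positivity
  -- the sum over the small box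
  have key : ∀ w : ℕ, w0 ≤ w → ∀ X : ℕ, w ^ K ≤ X →
      c2 * ((w : ℝ) ^ K) ^ n * (Real.log w) ^ e ≤
        D * ∑ a ∈ (BoxJ n X).filter (fun a => Function.Injective a),
          ((SelJ a).ncard : ℝ) ^ κ := by
    intro w hw X hX
    refine (hsum w hw).trans ?_
    rw [mul_sum]
    calc ∑ a ∈ (bx n (w ^ K)).filter (fun a => Function.Injective a),
          ∏ p ∈ Pr z w, (fw κ p a + if Inj p a then 1 else 0)
        ≤ ∑ a ∈ (bx n (w ^ K)).filter (fun a => Function.Injective a),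
          D * ((SelJ a).ncard : ℝ) ^ κ := by
          refine sum_le_sum fun a ha => ?_
          rw [mem_filter] at ha
          refine (hlow w (by omega) a ha.1 ha.2).trans ?_
          rw [hD, mul_assoc]
          refine mul_le_mul_of_nonneg_left ?_ hC1.le
          have h5 := hC0 a ha.2 (fun j => (Pr z w).filter (fun p => Spt p a j)) (by
            intro j p hp
            rw [mem_filter] at hp
            have h6 := hp.1
            unfold Pr at h6
            rw [mem_filter, mem_Icc] at h6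
            exact ⟨h6.2, by omega, hp.2⟩)
          set s : ℕ := ∑ j : Fin g, ((Pr z w).filter (fun p => Spt p a j)).card with hs
          set t : ℕ := ∑ c ∈ UM g, om (df a c) with ht
          have h7 : (2 : ℝ) ^ ((s : ℝ) - t) ≤ ((C0 : ℝ) + 1) * (SelJ a).ncard := by
            rw [Real.rpow_sub (by norm_num), Real.rpow_natCast, Real.rpow_natCast,
              div_le_iff₀ (by positivity)]
            have h8 : (2 : ℝ) ^ s ≤ C0 * 2 ^ t * (SelJ a).ncard := by exact_mod_cast h5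
            refine h8.trans ?_
            have h9 : (0 : ℝ) ≤ 2 ^ t * (SelJ a).ncard := by positivity
            nlinarith
          have h8 : (2 : ℝ) ^ (κ * ((∑ j : Fin g,
              (((Pr z w).filter (fun p => Spt p a j)).card : ℝ)) -
              ∑ c ∈ UM g, (om (df a c) : ℝ))) = ((2 : ℝ) ^ ((s : ℝ) - t)) ^ κ := by
            rw [← Real.rpow_mul (by norm_num), mul_comm κ, hs, ht]
            push_cast
            rfl
          rw [h8, ← Real.mul_rpow (by positivity) (by positivity)]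
          exact Real.rpow_le_rpow (by positivity) h7 hκ0
      _ ≤ _ := by
          refine sum_le_sum_of_subset_of_nonneg (filter_subset_filter _ (bx_sub hX)) ?_
          intro a _ _
          positivity
  -- all `X`
  set A : ℝ := c2 / (D * ((2 : ℝ) ^ K) ^ n * (2 * K) ^ e) with hA
  have hK0 : (0 : ℝ) < K := by exact_mod_cast (by omega : 0 < K)
  refine ⟨A, w0 ^ K, by positivity, fun X hX => ?_⟩
  obtain ⟨w, hw1, hw2⟩ : ∃ w : ℕ, w ^ K ≤ X ∧ X < (w + 1) ^ K := by
    refine ⟨Nat.findGreatest (fun w => w ^ K ≤ X) X, ?_, ?_⟩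
    · exact Nat.findGreatest_spec (P := fun w => w ^ K ≤ X) (Nat.zero_le _)
        (by rw [zero_pow (by omega)]; exact Nat.zero_le _)
    · by_contra hc
      push Not at hc
      have h5 : Nat.findGreatest (fun w => w ^ K ≤ X) X + 1 ≤
          Nat.findGreatest (fun w => w ^ K ≤ X) X := by
        refine Nat.le_findGreatest (P := fun w => w ^ K ≤ X) ?_ hc
        exact (Nat.le_self_pow (by omega) _).trans hc
      omega
  have hww : w0 ≤ w := by
    by_contra hc
    push Not at hc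
    have h5 : (w + 1) ^ K ≤ w0 ^ K := Nat.pow_le_pow_left (by omega) K
    omega
  have hw2' : 2 ≤ w := hw0.trans hww
  have hX1 : 1 ≤ X := le_trans (Nat.one_le_pow _ _ (by omega)) hw1
  have h5 : (X : ℝ) ≤ 2 ^ K * (w : ℝ) ^ K := by
    have h6 : X ≤ (2 * w) ^ K := hw2.le.trans (Nat.pow_le_pow_left (by omega) K)
    rw [← mul_pow]
    exact_mod_cast h6
  have hlw : 0 < Real.log w := Real.log_pos (by exact_mod_cast (by omega : 1 < w))
  have hlX : 0 ≤ Real.log X := Real.log_natCast_nonneg X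
  have h6 : Real.log X ≤ 2 * K * Real.log w := by
    have h7 : (X : ℝ) ≤ ((w : ℝ) ^ 2) ^ K := by
      have h8 : X ≤ (w ^ 2) ^ K := by
        refine hw2.le.trans (Nat.pow_le_pow_left ?_ K)
        nlinarith
      exact_mod_cast h8
    have h8 := Real.log_le_log (by exact_mod_cast hX1) h7
    rw [Real.log_pow, Real.log_pow] at h8
    push_cast at h8
    linarith
  have hk := key w hww X hw1
  have h7 : (X : ℝ) ^ n * (Real.log X) ^ e ≤
      ((2 : ℝ) ^ K) ^ n * (2 * K) ^ e * (((w : ℝ) ^ K) ^ n * (Real.log w) ^ e) := by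
    have h8 : (X : ℝ) ^ n ≤ ((2 : ℝ) ^ K) ^ n * ((w : ℝ) ^ K) ^ n := by
      rw [← mul_pow]
      exact pow_le_pow_left₀ (Nat.cast_nonneg _) h5 n
    have h9 : (Real.log X) ^ e ≤ (2 * K) ^ e * (Real.log w) ^ e := by
      rw [← Real.mul_rpow (by positivity) hlw.le]
      exact Real.rpow_le_rpow hlX h6 he0
    calc (X : ℝ) ^ n * (Real.log X) ^ e ≤
        (((2 : ℝ) ^ K) ^ n * ((w : ℝ) ^ K) ^ n) * ((2 * K) ^ e * (Real.log w) ^ e) :=
          mul_le_mul h8 h9 (Real.rpow_nonneg hlX _) (by positivity)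
      _ = _ := by ring
  have h8 : A * ((X : ℝ) ^ n * (Real.log X) ^ e) ≤
      c2 / D * (((w : ℝ) ^ K) ^ n * (Real.log w) ^ e) := by
    calc A * ((X : ℝ) ^ n * (Real.log X) ^ e) ≤
        A * (((2 : ℝ) ^ K) ^ n * (2 * K) ^ e * (((w : ℝ) ^ K) ^ n * (Real.log w) ^ e)) :=
          mul_le_mul_of_nonneg_left h7 (by positivity)
      _ = c2 / D * (((w : ℝ) ^ K) ^ n * (Real.log w) ^ e) := by
          rw [hA]
          field_simp
  refine h8.trans ?_
  rw [div_mul_eq_mul_div, div_le_iff₀ hD0, mul_comm _ D]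
  calc c2 * (((w : ℝ) ^ K) ^ n * (Real.log w) ^ e) =
      c2 * ((w : ℝ) ^ K) ^ n * (Real.log w) ^ e := by ring
    _ ≤ _ := hk

end Pool.Agent.TH344.JT
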